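import Pool.Agent.TH668.Link.FrameNC

/-!
# Building configurations
-/

set_option autoImplicit false

namespace Pool.Agent.TH668.Link

open Finset

variable {n : ℕ} {al : ℕ → ℕ} {M H D V z : ℝ} {a : ℕ → ℚ} {V' z' U b1 b2 : ℚ} {X Y : ℕ → ℝ}

theorem zero_of_convex {α β s : ℝ} (hα : 0 < α) (hβ : 0 ≤ β) (hs : 0 ≤ s) (hs' : s ≤ 1)
    (h : α + s * (β - α) = 0) : s = 1 ∧ β = 0 := by
  have h1 : (1 - s) * α + s * β = 0 := by linarith
  have h2 : 0 ≤ (1 - s) * α := mul_nonneg (by linarith) hα.le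
  have h3 : 0 ≤ s * β := mul_nonneg hs hβ
  have h4 : (1 - s) * α = 0 := by linarith
  have h5 : s = 1 := by
    rcases mul_eq_zero.1 h4 with h | h
    · linarith
    · exact absurd h hα.ne'
  rw [h5] at h1
  exact ⟨h5, by linarith⟩

theorem zero_of_convex' {α β s : ℝ} (hα : 0 ≤ α) (hβ : 0 < β) (hs : 0 ≤ s) (hs' : s ≤ 1)
    (h : α + s * (β - α) = 0) : s = 0 ∧ α = 0 := by
  have := zero_of_convex (s := 1 - s) hβ hα (by linarith) (by linarith) (by linarith)
  exact ⟨by linarith [this.1], this.2⟩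

/-- Chain and frame. -/
theorem chain_frame (hn : 1 ≤ n) (hV : 0 < V) (hz : 0 < z) (hH : 0 < H)
    (hF : Fr n H D V z X Y) (hY : ∀ j, 1 ≤ j → j ≤ n → 0 < Y j)
    (hG3 : ∀ j ≤ n, 0 < (V - X j) * H - Y j * (V - D))
    (hG2 : ∀ j ≤ n, 0 < (X j + V) * H - Y j * (V + D)) {j : ℕ} (hj : j ≤ n) (l : ℚ)
    {b : (ℕ × ℕ) × ℚ} (hb : b ∈ frame n V' z' U b1 b2) : NC X Y ((j, j + 1), l) b := by
  obtain ⟨⟨x0, y0⟩, ⟨xw, yw⟩, ⟨xZ, yZ⟩, ⟨xu, yu⟩, ⟨xv, yv⟩⟩ := hF
  have hY0 : 0 ≤ Y j := by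
    rcases Nat.eq_zero_or_pos j with rfl | h
    · rw [y0]
    · exact (hY j h hj).le
  have hY1 : 0 < Y (j + 1) := by
    rcases eq_or_lt_of_le hj with h | h
    · rw [h, yw]; exact hH
    · exact hY (j + 1) (by omega) (by omega)
  have hGG : 0 ≤ (V - X (j + 1)) * H - Y (j + 1) * (V - D) ∧
      0 ≤ (X (j + 1) + V) * H - Y (j + 1) * (V + D) ∧
      (((V - X (j + 1)) * H - Y (j + 1) * (V - D) = 0 ∨
        (X (j + 1) + V) * H - Y (j + 1) * (V + D) = 0) → j = n) := by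
    rcases eq_or_lt_of_le hj with h | h
    · rw [h, xw, yw]
      exact ⟨by linarith, by linarith, fun _ => rfl⟩
    · have h1 := hG3 (j + 1) (by omega)
      have h2 := hG2 (j + 1) (by omega)
      refine ⟨h1.le, h2.le, ?_⟩
      rintro (h3 | h3)
      · exact absurd h3 h1.ne'
      · exact absurd h3 h2.ne'
  intro s t hs hs' ht ht' eX eY
  simp only at eX eY ⊢
  -- the point lies above the base
  have hlow : Y j + s * (Y (j + 1) - Y j) ≤ 0 →
      X j + s * (X (j + 1) - X j) = X 0 ∧ Y j + s * (Y (j + 1) - Y j) = Y 0 ∧ j = 0 := by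
    intro hle
    have h0 : Y j + s * (Y (j + 1) - Y j) = 0 := le_antisymm hle (by nlinarith)
    obtain ⟨h1, h2⟩ := zero_of_convex' hY0 hY1 hs hs' h0
    have hj0 : j = 0 := by
      by_contra hne
      exact absurd h2 (hY j (Nat.one_le_iff_ne_zero.2 hne) hj).ne'
    subst hj0
    rw [h1]
    exact ⟨by ring, by ring, rfl⟩
  -- the point lies on one of the upper bars only if it is the apex
  have hup2 : (X j + s * (X (j + 1) - X j) + V) * H - (Y j + s * (Y (j + 1) - Y j)) * (V + D) = 0 →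
      X j + s * (X (j + 1) - X j) = X (n + 1) ∧ Y j + s * (Y (j + 1) - Y j) = Y (n + 1) ∧
        j = n := by
    intro h0
    obtain ⟨h1, h2⟩ := zero_of_convex (hG2 j hj) hGG.2.1 hs hs' (by linear_combination h0)
    have hjn := hGG.2.2 (Or.inr h2)
    subst hjn
    rw [h1]
    exact ⟨by ring, by ring, rfl⟩
  have hup3 : (V - (X j + s * (X (j + 1) - X j))) * H - (Y j + s * (Y (j + 1) - Y j)) * (V - D) = 0 →
      X j + s * (X (j + 1) - X j) = X (n + 1) ∧ Y j + s * (Y (j + 1) - Y j) = Y (n + 1) ∧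
        j = n := by
    intro h0
    obtain ⟨h1, h2⟩ := zero_of_convex (hG3 j hj) hGG.1 hs hs' (by linear_combination h0)
    have hjn := hGG.2.2 (Or.inl h2)
    subst hjn
    rw [h1]
    exact ⟨by ring, by ring, rfl⟩
  simp only [frame, List.mem_cons, List.not_mem_nil, or_false] at hb
  rcases hb with rfl | rfl | rfl | rfl | rfl | rfl | rfl <;> simp only at eX eY ⊢
  · obtain ⟨h1, h2, h3⟩ := hlow (by rw [eY, yu, y0]; linarith)
    exact ⟨0, by omega, by omega, h1, h2⟩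
  · obtain ⟨h1, h2, h3⟩ := hlow (by rw [eY, yv, y0]; linarith)
    exact ⟨0, by omega, by omega, h1, h2⟩
  · exfalso
    obtain ⟨h1, h2, h3⟩ := hlow (by rw [eY, yZ, yu]; nlinarith)
    rw [h2, y0, yZ, yu] at eY
    rw [h1, x0, xZ, xu] at eX
    have := mz (x := 1 - t) hz (by linear_combination eY)
    have := mz (x := t) hV (by linear_combination eX)
    linarith
  · obtain ⟨h1, h2, h3⟩ := hlow (by rw [eY, yZ, y0]; nlinarith)
    exact ⟨0, by omega, by omega, h1, h2⟩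
  · exfalso
    obtain ⟨h1, h2, h3⟩ := hlow (by rw [eY, yZ, yv]; nlinarith)
    rw [h2, y0, yZ, yv] at eY
    rw [h1, x0, xZ, xv] at eX
    have := mz (x := 1 - t) hz (by linear_combination eY)
    have := mz (x := t) hV (by linear_combination -eX)
    linarith
  · obtain ⟨h1, h2, h3⟩ := hup2 (by rw [eX, eY, xu, yu, xw, yw]; ring)
    exact ⟨n + 1, by omega, by omega, h1, h2⟩
  · obtain ⟨h1, h2, h3⟩ := hup3 (by rw [eX, eY, xv, yv, xw, yw]; ring)
    exact ⟨n + 1, by omega, by omega, h1, h2⟩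

/-- Sufficient conditions for a configuration. -/
theorem CC_of (g : Geo n al M H D V z a V' z' U b1 b2) (hF : Fr n H D V z X Y)
    (hlen : ∀ j ≤ n, (X j - X (j + 1)) ^ 2 + (Y j - Y (j + 1)) ^ 2 = (M * al j) ^ 2)
    (hY : ∀ j, 1 ≤ j → j ≤ n → 0 < Y j)
    (hG3 : ∀ j ≤ n, 0 < (V - X j) * H - Y j * (V - D))
    (hG2 : ∀ j ≤ n, 0 < (X j + V) * H - Y j * (V + D))
    (hnc : ∀ i j, i < j → j ≤ n → ∀ s t : ℝ, 0 ≤ s → s ≤ 1 → 0 ≤ t → t ≤ 1 →
      X i + s * (X (i + 1) - X i) = X j + t * (X (j + 1) - X j) →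
      Y i + s * (Y (i + 1) - Y i) = Y j + t * (Y (j + 1) - Y j) → j = i + 1 ∧ s = 1) :
    CC (lk n a V' z' U b1 b2) X Y := by
  have hV0 := g.V_pos
  have hz0 := g.z_pos
  have hH0 := g.hH
  constructor
  · have hF' := hF
    obtain ⟨⟨x0, y0⟩, ⟨xw, yw⟩, ⟨xZ, yZ⟩, ⟨xu, yu⟩, ⟨xv, yv⟩⟩ := hF'
    intro b hb
    simp only [lk, List.mem_append, List.mem_map, List.mem_range, frame, List.mem_cons,
      List.not_mem_nil, or_false] at hb
    rcases hb with ⟨j, hj, rfl⟩ | rfl | rfl | rfl | rfl | rfl | rfl | rfl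
    · simp only
      rw [g.ha j (by omega)]
      exact hlen j (by omega)
    · simp only; rw [xu, yu, x0, y0, g.hV']; ring
    · simp only; rw [xv, yv, x0, y0, g.hV']; ring
    · simp only; rw [xu, yu, xZ, yZ, g.hU]; ring
    · simp only; rw [x0, y0, xZ, yZ, g.hz']; ring
    · simp only; rw [xv, yv, xZ, yZ, g.hU]; ring
    · simp only; rw [xu, yu, xw, yw, g.hb1]; ring
    · simp only; rw [xw, yw, xv, yv, g.hb2]; ring
  · have hpw : (lk n a V' z' U b1 b2).2.Pairwise (NC X Y) := by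
      simp only [lk]
      rw [List.pairwise_append]
      refine ⟨?_, frame_nc hV0 hz0 hH0 hF, ?_⟩
      · rw [List.pairwise_map, List.pairwise_iff_getElem]
        intro i j hi hj hij
        rw [List.length_range] at hi hj
        rw [List.getElem_range, List.getElem_range]
        intro s t hs hs' ht ht' eX eY
        simp only at eX eY ⊢
        obtain ⟨h1, h2⟩ := hnc i j hij (by omega) s t hs hs' ht ht' eX eY
        refine ⟨i + 1, by omega, by omega, ?_, ?_⟩
        · rw [h2]; ring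
        · rw [h2]; ring
      · intro b hb b' hb'
        simp only [List.mem_map, List.mem_range] at hb
        obtain ⟨j, hj, rfl⟩ := hb
        exact chain_frame g.hn hV0 hz0 hH0 hF hY hG3 hG2 (by omega) _ hb'
    intro b hb b' hb' hne
    exact hpw.forall hb hb' hne

end Pool.Agent.TH668.Link
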