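import Mathlib

/-!
# Numerical estimates
-/

set_option autoImplicit false

namespace Pool.Agent.TH668.Link

/-- bounds for `ρ - √(ρ² - H²)` with `H = 1 / h` -/
theorem gap {ρ h : ℝ} (hρ : 1 ≤ ρ) (hh : 2 ≤ h) :
    1 / (2 * ρ * h ^ 2) + 1 / (8 * ρ ^ 3 * h ^ 4) ≤ ρ - √(ρ ^ 2 - (1 / h) ^ 2) ∧
      ρ - √(ρ ^ 2 - (1 / h) ^ 2) ≤ 1 / (2 * ρ * h ^ 2) + 1 / (4 * ρ ^ 3 * h ^ 4) := by
  have hρ0 : 0 < ρ := by linarith
  have hh0 : 0 < h := by linarith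
  -- `w = 1 / (ρ h)²`
  obtain ⟨w, hw⟩ : ∃ w, w = 1 / (ρ ^ 2 * h ^ 2) := ⟨_, rfl⟩
  have hw0 : 0 < w := by rw [hw]; positivity
  have hw1 : w ≤ 1 / 4 := by
    rw [hw]
    apply one_div_le_one_div_of_le (by norm_num)
    have h1 : (1 : ℝ) ≤ ρ ^ 2 := one_le_pow₀ hρ
    have h2 : (4 : ℝ) ≤ h ^ 2 := by nlinarith
    nlinarith
  have e1 : (1 / h) ^ 2 = ρ ^ 2 * w := by rw [hw]; field_simp
  have e2 : 1 / (2 * ρ * h ^ 2) = ρ * (w / 2) := by rw [hw]; field_simp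
  have e3 : 1 / (8 * ρ ^ 3 * h ^ 4) = ρ * (w ^ 2 / 8) := by rw [hw]; field_simp
  have e4 : 1 / (4 * ρ ^ 3 * h ^ 4) = ρ * (w ^ 2 / 4) := by rw [hw]; field_simp
  rw [e1, e2, e3, e4]
  clear hw e1 e2 e3 e4
  constructor
  · have : √(ρ ^ 2 - ρ ^ 2 * w) ≤ ρ * (1 - w / 2 - w ^ 2 / 8) := by
      have h0 : 0 ≤ 1 - w / 2 - w ^ 2 / 8 := by nlinarith
      rw [Real.sqrt_le_left (by positivity)]
      have h1 : 1 - w ≤ (1 - w / 2 - w ^ 2 / 8) ^ 2 := by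
        have : (1 - w / 2 - w ^ 2 / 8) ^ 2 = 1 - w + w ^ 3 / 8 + w ^ 4 / 64 := by ring
        rw [this]
        have : 0 ≤ w ^ 3 / 8 + w ^ 4 / 64 := by positivity
        linarith
      have := mul_le_mul_of_nonneg_left h1 (sq_nonneg ρ)
      calc ρ ^ 2 - ρ ^ 2 * w = ρ ^ 2 * (1 - w) := by ring
        _ ≤ ρ ^ 2 * (1 - w / 2 - w ^ 2 / 8) ^ 2 := this
        _ = _ := by ring
    linarith
  · have : ρ * (1 - w / 2 - w ^ 2 / 4) ≤ √(ρ ^ 2 - ρ ^ 2 * w) := by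
      apply Real.le_sqrt_of_sq_le
      have h1 : (1 - w / 2 - w ^ 2 / 4) ^ 2 ≤ 1 - w := by
        have : (1 - w / 2 - w ^ 2 / 4) ^ 2 = 1 - w - w ^ 2 * (1 / 4 - w / 4 - w ^ 2 / 16) := by
          ring
        rw [this]
        have h2 : 0 ≤ 1 / 4 - w / 4 - w ^ 2 / 16 := by nlinarith
        have := mul_nonneg (sq_nonneg w) h2
        linarith
      have := mul_le_mul_of_nonneg_left h1 (sq_nonneg ρ)
      calc (ρ * (1 - w / 2 - w ^ 2 / 4)) ^ 2 = ρ ^ 2 * (1 - w / 2 - w ^ 2 / 4) ^ 2 := by ring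
        _ ≤ ρ ^ 2 * (1 - w) := this
        _ = _ := by ring
    linarith

theorem num_facts {ρ S h τ V : ℝ} {n : ℕ} (hρ : 1 ≤ ρ) (hS : ρ + 1 ≤ S) (hn : (n : ℝ) ≤ S)
    (hh : 8 * S ≤ h) (hτ0 : 0 < τ) (hτ : τ ≤ 1 / (16 * ρ ^ 3 * h ^ 4))
    (hV : 50 * S ^ 3 * h ^ 2 ≤ V) {δ : ℝ}
    (hδ : δ = ρ - √(ρ ^ 2 - (1 / h) ^ 2) - (1 / (2 * ρ * h ^ 2) + τ)) :
    0 < δ ∧ 2 * S * δ ≤ (1 / h / (8 * ρ)) ^ 2 ∧
      (1 / (2 * ρ * h ^ 2) + τ) + (n + 1) * (1 / h) ^ 2 < 1 ∧ 4 * (n + 1) * S ≤ V ∧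
      3 * (1 / h) ^ 2 * S < V * δ * ρ := by
  have hρ0 : 0 < ρ := by linarith
  have hS0 : 0 < S := by linarith
  have hh0 : 0 < h := by linarith
  obtain ⟨g1, g2⟩ := gap hρ (show 2 ≤ h by linarith)
  have e1 : 1 / (8 * ρ ^ 3 * h ^ 4) = 2 * (1 / (16 * ρ ^ 3 * h ^ 4)) := by field_simp; norm_num
  have d1 : 1 / (16 * ρ ^ 3 * h ^ 4) ≤ δ := by rw [hδ]; linarith
  have d2 : δ ≤ 1 / (4 * ρ ^ 3 * h ^ 4) := by rw [hδ]; linarith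
  have d0 : 0 < 1 / (16 * ρ ^ 3 * h ^ 4) := by positivity
  have hh2 : 64 * S ^ 2 ≤ h ^ 2 := by nlinarith
  have hS1 : S ≤ S ^ 2 := by nlinarith
  refine ⟨by linarith, ?_, ?_, ?_, ?_⟩
  · have h1 : 2 * S * δ ≤ 2 * S * (1 / (4 * ρ ^ 3 * h ^ 4)) :=
      mul_le_mul_of_nonneg_left d2 (by positivity)
    refine h1.trans ?_
    have h2 : 2 * S * (1 / (4 * ρ ^ 3 * h ^ 4)) = 32 * S / (ρ * h ^ 2) * (1 / h / (8 * ρ)) ^ 2 := by
      field_simp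
      norm_num
    rw [h2]
    apply mul_le_of_le_one_left (by positivity)
    rw [div_le_one (by positivity)]
    nlinarith
  · have h1 : 1 / (2 * ρ * h ^ 2) ≤ 1 / 2 * (1 / h) ^ 2 := by
      have : 1 / (2 * ρ * h ^ 2) = 1 / ρ * (1 / 2 * (1 / h) ^ 2) := by field_simp
      rw [this]
      apply mul_le_of_le_one_left (by positivity)
      rw [div_le_one hρ0]
      exact hρ
    have h2 : τ ≤ 1 / 2 * (1 / h) ^ 2 := by
      refine hτ.trans ?_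
      have : 1 / (16 * ρ ^ 3 * h ^ 4) = 1 / (8 * ρ ^ 3 * h ^ 2) * (1 / 2 * (1 / h) ^ 2) := by
        field_simp; norm_num
      rw [this]
      apply mul_le_of_le_one_left (by positivity)
      rw [div_le_one (by positivity)]
      have h3 : (1 : ℝ) ≤ ρ ^ 3 := one_le_pow₀ hρ
      have h4 : (1 : ℝ) ≤ h ^ 2 := by nlinarith
      nlinarith [mul_le_mul h3 h4 zero_le_one (by positivity)]
    have h3 : (n + 2 : ℝ) * (1 / h) ^ 2 < 1 := by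
      rw [one_div, inv_pow, ← div_eq_mul_inv, div_lt_one (by positivity)]
      nlinarith
    linarith
  · have h1 : 4 * ((n : ℝ) + 1) * S ≤ 8 * S ^ 2 := by nlinarith
    have h2 : (1 : ℝ) ≤ h ^ 2 := by nlinarith
    have h3 : S ^ 2 ≤ S ^ 3 := by nlinarith
    have h4 : 50 * S ^ 3 * 1 ≤ 50 * S ^ 3 * h ^ 2 := mul_le_mul_of_nonneg_left h2 (by positivity)
    nlinarith
  · have h1 : 50 * S ^ 3 * h ^ 2 * (1 / (16 * ρ ^ 3 * h ^ 4)) * ρ ≤ V * δ * ρ := by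
      apply mul_le_mul_of_nonneg_right _ hρ0.le
      apply mul_le_mul hV d1 d0.le
      exact (by positivity : (0 : ℝ) ≤ 50 * S ^ 3 * h ^ 2).trans hV
    refine lt_of_lt_of_le ?_ h1
    have h2 : 50 * S ^ 3 * h ^ 2 * (1 / (16 * ρ ^ 3 * h ^ 4)) * ρ =
        25 / 8 * (S ^ 2 / ρ ^ 2) * ((1 / h) ^ 2 * S) := by
      field_simp
      norm_num
    rw [h2]
    have h3 : 1 ≤ S ^ 2 / ρ ^ 2 := by
      rw [one_le_div (by positivity)]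
      nlinarith
    have h4 : 0 < (1 / h) ^ 2 * S := by positivity
    nlinarith

end Pool.Agent.TH668.Link
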