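import Pool.Agent.TH668.Link.Iff
import Pool.Agent.TH668.Link.Num

/-!
# The lengths used in the reduction
-/

set_option autoImplicit false

namespace Pool.Agent.TH668.Link

open Finset

/-- auxiliary numbers -/
def hN (S : ℕ) : ℕ := 8 * S
/-- auxiliary numbers -/
def kN (S : ℕ) : ℕ := 200 * (S * S * S) * (hN S * hN S * hN S)
/-- auxiliary numbers -/
def mN (ρ S : ℕ) : ℕ := ρ * hN S * kN S + 4 * ρ * (S - ρ) * (hN S * hN S) + 2
/-- the unit of length of the chain -/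
def LN (ρ S : ℕ) : ℕ := 16 * ρ * (hN S * hN S) * mN ρ S * kN S
/-- a quarter of half the length of the base -/
def vN (ρ S : ℕ) : ℕ := mN ρ S * mN ρ S * kN S + ρ * hN S * mN ρ S * (kN S * kN S) -
  (ρ * ρ * (hN S * hN S) * kN S + ρ * hN S * mN ρ S)
/-- the left upper bar -/
def b1N (ρ S : ℕ) : ℕ := 8 * kN S * (mN ρ S * mN ρ S + ρ * ρ * (hN S * hN S))
/-- the right upper bar -/
def b2N (ρ S : ℕ) : ℕ := 8 * ρ * hN S * mN ρ S * (kN S * kN S + 1)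

theorem vN_sub {ρ S : ℕ} (_hρ : 1 ≤ ρ) (hS : 1 ≤ S) :
    ρ * ρ * (hN S * hN S) * kN S + ρ * hN S * mN ρ S ≤ mN ρ S * mN ρ S * kN S := by
  have hh : 1 ≤ hN S := by unfold hN; omega
  have hk : 2 ≤ kN S := by
    unfold kN
    have h1 : 1 ≤ S * S * S := Nat.one_le_iff_ne_zero.2 (by positivity)
    have h2 : 1 ≤ hN S * hN S * hN S := Nat.one_le_iff_ne_zero.2 (by positivity)
    nlinarith
  have hm : ρ * hN S * kN S ≤ mN ρ S := by unfold mN; omega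
  have hm2 : 2 * (ρ * hN S) ≤ mN ρ S := by
    refine le_trans ?_ hm
    have := Nat.mul_le_mul_left (ρ * hN S) hk
    linarith
  generalize mN ρ S = m at *
  generalize kN S = k at *
  generalize hN S = h at *
  have h1 : ρ * ρ * (h * h) * k ≤ ρ * h * m * k := by
    have : ρ * h ≤ m := by omega
    nlinarith [Nat.mul_le_mul_left (ρ * h * k) this]
  have h2 : ρ * h * m ≤ ρ * h * m * k := by
    apply Nat.le_mul_of_pos_right
    omega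
  have h3 : 2 * (ρ * h) * (m * k) ≤ m * (m * k) := Nat.mul_le_mul_right _ hm2
  nlinarith

/-- the perturbation is small -/
theorem tau_le {ρ s h k m : ℝ} (hρ1 : 1 ≤ ρ) (hs1 : ρ + 1 ≤ s) (hhs : h = 8 * s)
    (hks : k = 200 * s ^ 3 * h ^ 3) (hms : m = ρ * h * k + 4 * ρ * (s - ρ) * h ^ 2 + 2) :
    (m - ρ * h * k) / (4 * h * m * k) ≤ 1 / (16 * ρ ^ 3 * h ^ 4) := by
  have hρ0 : 0 < ρ := by linarith
  have hs0 : 0 < s := by linarith
  have hh0 : 0 < h := by rw [hhs]; linarith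
  have hk0 : 0 < k := by rw [hks]; positivity
  have hT0 : 0 ≤ s - ρ := by linarith
  have hX : 0 ≤ 4 * ρ * (s - ρ) * h ^ 2 := by positivity
  have hm0 : 0 < m := by rw [hms]; positivity
  have hmk : ρ * h * k ≤ m := by rw [hms]; linarith
  have e1 : 0 < m - ρ * h * k := by rw [hms]; linarith
  rw [div_le_div_iff₀ (by positivity) (by positivity)]
  have hs4 : 4 ≤ s ^ 2 := by
    have := pow_le_pow_left₀ (by norm_num : (0 : ℝ) ≤ 2) (show 2 ≤ s by linarith) 2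
    linarith
  have hh4 : 1 ≤ h ^ 2 := one_le_pow₀ (by rw [hhs]; linarith)
  have hsh : 4 * 1 ≤ s ^ 2 * h ^ 2 := mul_le_mul hs4 hh4 zero_le_one (by positivity)
  have e : m - ρ * h * k ≤ 5 * (s ^ 2 * h ^ 2) := by
    have h1 : ρ * (s - ρ) ≤ s * s := mul_le_mul (by linarith) (by linarith) hT0 hs0.le
    have h2 : ρ * (s - ρ) * h ^ 2 ≤ s * s * h ^ 2 :=
      mul_le_mul_of_nonneg_right h1 (by positivity)
    rw [hms]
    linarith
  have e2 : 4 * ρ ^ 2 * h ^ 2 * (m - ρ * h * k) ≤ k ^ 2 := by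
    have h1 : ρ ^ 2 ≤ s ^ 2 := pow_le_pow_left₀ hρ0.le (by linarith) 2
    have h2 : 4 * ρ ^ 2 * h ^ 2 * (m - ρ * h * k) ≤ 4 * s ^ 2 * h ^ 2 * (5 * (s ^ 2 * h ^ 2)) := by
      apply mul_le_mul _ e e1.le (by positivity)
      apply mul_le_mul_of_nonneg_right _ (by positivity)
      linarith
    refine h2.trans ?_
    rw [hks]
    have h4 : (0 : ℝ) ≤ s ^ 4 * h ^ 4 := by positivity
    have h5 : s ^ 4 * h ^ 4 * 1 ≤ s ^ 4 * h ^ 4 * (s ^ 2 * h ^ 2) :=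
      mul_le_mul_of_nonneg_left (by linarith) h4
    calc 4 * s ^ 2 * h ^ 2 * (5 * (s ^ 2 * h ^ 2)) = 20 * (s ^ 4 * h ^ 4) := by ring
      _ ≤ 40000 * (s ^ 4 * h ^ 4 * (s ^ 2 * h ^ 2)) := by linarith
      _ = _ := by ring
  have e3 : (4 * ρ ^ 2 * h ^ 2 * (m - ρ * h * k)) * (4 * ρ * h ^ 2) ≤ k ^ 2 * (4 * ρ * h ^ 2) :=
    mul_le_mul_of_nonneg_right e2 (by positivity)
  have e4 : (ρ * h * k) * (4 * h * k) ≤ m * (4 * h * k) :=
    mul_le_mul_of_nonneg_right hmk (by positivity)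
  calc (m - ρ * h * k) * (16 * ρ ^ 3 * h ^ 4) =
      (4 * ρ ^ 2 * h ^ 2 * (m - ρ * h * k)) * (4 * ρ * h ^ 2) := by ring
    _ ≤ k ^ 2 * (4 * ρ * h ^ 2) := e3
    _ = (ρ * h * k) * (4 * h * k) := by ring
    _ ≤ m * (4 * h * k) := e4
    _ = _ := by ring

/-- **The lengths satisfy the geometric conditions.** -/
theorem geo_of {n : ℕ} {al : ℕ → ℕ} (hn : 1 ≤ n) (hal : ∀ j ≤ n, 1 ≤ al j) {S : ℕ}
    (hSdef : S = ∑ j ∈ range n, al j) (hS : al n < S) :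
    ∃ M H D V z : ℝ, Geo n al M H D V z (fun j => ((LN (al n) S * al j : ℕ) : ℚ))
      ((4 * vN (al n) S : ℕ) : ℚ) ((3 * vN (al n) S : ℕ) : ℚ) ((5 * vN (al n) S : ℕ) : ℚ)
      ((b1N (al n) S : ℕ) : ℚ) ((b2N (al n) S : ℕ) : ℚ) := by
  obtain ⟨ρn, hρn⟩ : ∃ ρn, ρn = al n := ⟨_, rfl⟩
  have hρ1 : 1 ≤ ρn := by rw [hρn]; exact hal n le_rfl
  have hnS : n ≤ S := by
    rw [hSdef]
    calc n = ∑ j ∈ range n, 1 := by simp
      _ ≤ _ := Finset.sum_le_sum fun j hj => hal j (mem_range.1 hj).le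
  rw [← hρn] at hS ⊢
  have hSR : ∑ j ∈ range n, (al j : ℝ) = (S : ℝ) := by rw [hSdef]; push_cast; rfl
  -- real versions
  obtain ⟨ρ, hρ⟩ : ∃ ρ : ℝ, ρ = ρn := ⟨_, rfl⟩
  obtain ⟨s, hs⟩ : ∃ s : ℝ, s = S := ⟨_, rfl⟩
  obtain ⟨h, hh⟩ : ∃ h : ℝ, h = hN S := ⟨_, rfl⟩
  obtain ⟨k, hk⟩ : ∃ k : ℝ, k = kN S := ⟨_, rfl⟩
  obtain ⟨m, hm⟩ : ∃ m : ℝ, m = mN ρn S := ⟨_, rfl⟩
  have hρ1' : 1 ≤ ρ := by rw [hρ]; exact_mod_cast hρ1
  have hs1 : ρ + 1 ≤ s := by rw [hρ, hs]; exact_mod_cast hS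
  have hhs : h = 8 * s := by rw [hh, hs, hN]; push_cast; ring
  have hks : k = 200 * s ^ 3 * h ^ 3 := by rw [hk, hs, hh, kN]; push_cast; ring
  have hms : m = ρ * h * k + 4 * ρ * (s - ρ) * h ^ 2 + 2 := by
    rw [hm, hρ, hs, hh, hk, mN]
    push_cast [Nat.cast_sub hS.le]
    ring
  have hv : ((vN ρn S : ℕ) : ℝ) = m ^ 2 * k + ρ * h * m * k ^ 2 -
      (ρ ^ 2 * h ^ 2 * k + ρ * h * m) := by
    have := vN_sub hρ1 (show 1 ≤ S by omega)
    rw [vN, Nat.cast_sub (this.trans (Nat.le_add_right _ _)), hm, hρ, hh, hk]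
    push_cast
    ring
  have hvsub : ρ ^ 2 * h ^ 2 * k + ρ * h * m ≤ m ^ 2 * k := by
    have := vN_sub hρ1 (show 1 ≤ S by omega)
    rw [hm, hρ, hh, hk]
    have h1 := (Nat.cast_le (α := ℝ)).2 this
    push_cast at h1
    linarith
  have hL : ((LN ρn S : ℕ) : ℝ) = 16 * ρ * h ^ 2 * m * k := by
    rw [LN, hm, hρ, hh, hk]; push_cast; ring
  have hb1 : ((b1N ρn S : ℕ) : ℝ) = 8 * k * (m ^ 2 + ρ ^ 2 * h ^ 2) := by
    rw [b1N, hm, hρ, hh, hk]; push_cast; ring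
  have hb2 : ((b2N ρn S : ℕ) : ℝ) = 8 * ρ * h * m * (k ^ 2 + 1) := by
    rw [b2N, hm, hρ, hh, hk]; push_cast; ring
  have hρ0 : 0 < ρ := by linarith
  have hs0 : 0 < s := by linarith
  have hs2 : 2 ≤ s := by linarith
  have hh0 : 0 < h := by rw [hhs]; linarith
  have hk0 : 0 < k := by rw [hks]; positivity
  have hT0 : 0 ≤ s - ρ := by linarith
  have hm0 : 0 < m := by
    rw [hms]
    positivity
  have hmk : ρ * h * k ≤ m := by
    rw [hms]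
    have : 0 ≤ 4 * ρ * (s - ρ) * h ^ 2 := by positivity
    linarith
  -- the unit
  obtain ⟨Λ, hΛ⟩ : ∃ Λ : ℝ, Λ = 16 * ρ * h ^ 2 * m * k := ⟨_, rfl⟩
  have hΛ0 : 0 < Λ := by rw [hΛ]; positivity
  rw [← hΛ] at hL
  obtain ⟨τ, hτ⟩ : ∃ τ : ℝ, τ = (m - ρ * h * k) / (4 * h * m * k) := ⟨_, rfl⟩
  have hτ0 : 0 < τ := by
    rw [hτ]
    apply div_pos _ (by positivity)
    rw [hms]
    have : 0 ≤ 4 * ρ * (s - ρ) * h ^ 2 := by positivity
    linarith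
  have hτ1 : τ ≤ 1 / (16 * ρ ^ 3 * h ^ 4) := by
    rw [hτ]
    exact tau_le hρ1' hs1 hhs hks hms
  obtain ⟨W, hW⟩ : ∃ W : ℝ, W = 4 * (vN ρn S : ℝ) / Λ := ⟨_, rfl⟩
  have hWΛ : 4 * (vN ρn S : ℝ) = Λ * W := by rw [hW]; field_simp
  have hW1 : 50 * s ^ 3 * h ^ 2 ≤ W := by
    rw [hW, le_div_iff₀ hΛ0, hΛ, hv]
    have : 50 * s ^ 3 * h ^ 2 * (16 * ρ * h ^ 2 * m * k) = 4 * (ρ * h * m * k * k) := by
      conv_rhs => rw [show ρ * h * m * k * k = ρ * h * m * k * (200 * s ^ 3 * h ^ 3) by rw [← hks]]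
      ring
    rw [this]
    have e5 : ρ * h * m * k ^ 2 = ρ * h * m * k * k := by ring
    rw [e5]
    linarith
  obtain ⟨δ, hδ⟩ : ∃ δ : ℝ, δ = ρ - √(ρ ^ 2 - (1 / h) ^ 2) - (1 / (2 * ρ * h ^ 2) + τ) :=
    ⟨_, rfl⟩
  have hnS' : (n : ℝ) ≤ s := by rw [hs]; exact_mod_cast hnS
  obtain ⟨f1, f2, f3, f4, f5⟩ := num_facts hρ1' hs1 hnS' hhs.ge hτ0 hτ1 hW1 hδ
  have hHΛ : 16 * ρ * h * m * k = Λ * (1 / h) := by rw [hΛ]; field_simp
  have hDΛ : 4 * (m - ρ * h * k) * (m * k + ρ * h) =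
      Λ * (s - ρ + (1 / (2 * ρ * h ^ 2) + τ)) := by
    have e1 : Λ * (1 / (2 * ρ * h ^ 2)) = 8 * m * k := by rw [hΛ]; field_simp; norm_num
    have e2 : Λ * τ = 4 * ρ * h * (m - ρ * h * k) := by rw [hΛ, hτ]; field_simp; ring
    have e0 : Λ * (s - ρ + (1 / (2 * ρ * h ^ 2) + τ)) =
      Λ * (s - ρ) + Λ * (1 / (2 * ρ * h ^ 2)) + Λ * τ := by ring
    rw [e0, e1, e2, hΛ]
    have e3 : m - ρ * h * k = 4 * ρ * (s - ρ) * h ^ 2 + 2 := by rw [hms]; ring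
    rw [e3]
    ring
  have hsq : √((Λ * ρ) ^ 2 - (Λ * (1 / h)) ^ 2) = Λ * √(ρ ^ 2 - (1 / h) ^ 2) := by
    rw [mul_pow, mul_pow, ← mul_sub, Real.sqrt_mul (sq_nonneg _), Real.sqrt_sq hΛ0.le]
  have halR : ∀ j ≤ n, (1 : ℝ) ≤ al j := fun j hj => by exact_mod_cast hal j hj
  have hραl : (al n : ℝ) = ρ := by rw [hρ, hρn]
  have hδΛ : Λ * s - Λ * √(ρ ^ 2 - (1 / h) ^ 2) - Λ * (s - ρ + (1 / (2 * ρ * h ^ 2) + τ)) =
      Λ * δ := by rw [hδ]; ring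
  have hvpos : (0 : ℝ) < vN ρn S := by
    have : 0 < W := lt_of_lt_of_le (by positivity) hW1
    have : 0 < Λ * W := by positivity
    linarith
  have hvnat : 0 < vN ρn S := by exact_mod_cast hvpos
  refine ⟨Λ, Λ * (1 / h), Λ * (s - ρ + (1 / (2 * ρ * h ^ 2) + τ)), Λ * W, 3 * (vN ρn S : ℝ), ?_⟩
  refine
    { hn := hn
      hal := hal
      hS := by rw [← hρn, ← hSdef]; exact hS
      hM := hΛ0
      hH := by positivity
      ha := fun j hj => by push_cast; rw [hL]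
      hV' := by push_cast; exact hWΛ
      hz' := by push_cast; rfl
      hU := by push_cast; rw [← hWΛ]; ring
      hb1 := ?_
      hb2 := ?_
      hU0 := by
        have : 0 < 5 * vN ρn S := by omega
        exact_mod_cast this
      hb10 := ?_
      hb20 := ?_
      hσ := ?_
      hδ := ?_
      hY := ?_
      hP := ?_
      hV := ?_
      hz := ?_
      hW := ?_ }
  · push_cast
    rw [hb1, ← hWΛ, ← hDΛ, ← hHΛ, hv]
    ring
  · push_cast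
    rw [hb2, ← hWΛ, ← hDΛ, ← hHΛ, hv]
    ring
  · have : (0 : ℝ) < b1N ρn S := by rw [hb1]; positivity
    exact_mod_cast this
  · have : (0 : ℝ) < b2N ρn S := by rw [hb2]; positivity
    exact_mod_cast this
  · rw [hSR, ← hs, hραl]
    have : 0 < Λ * (1 / (2 * ρ * h ^ 2) + τ) := by positivity
    linarith
  · rw [hSR, ← hs, hραl, hsq]
    have : 0 < Λ * δ := by positivity
    linarith
  · rw [hSR, ← hs, hραl, hsq, hδΛ]
    have := mul_le_mul_of_nonneg_left f2 (sq_nonneg Λ)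
    calc 2 * (Λ * s) * (Λ * δ) = Λ ^ 2 * (2 * s * δ) := by ring
      _ ≤ Λ ^ 2 * (1 / h / (8 * ρ)) ^ 2 := this
      _ = _ := by ring
  · rw [hSR, ← hs, hραl]
    have := mul_lt_mul_of_pos_left f3 (show 0 < Λ ^ 2 by positivity)
    calc (Λ * (s - ρ + (1 / (2 * ρ * h ^ 2) + τ)) - (Λ * s - Λ * ρ)) * Λ +
          (n + 1) * (Λ * (1 / h)) ^ 2 =
        Λ ^ 2 * ((1 / (2 * ρ * h ^ 2) + τ) + (n + 1) * (1 / h) ^ 2) := by ring
      _ < Λ ^ 2 * 1 := this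
      _ = _ := by ring
  · rw [hSR, ← hs]
    have := mul_le_mul_of_nonneg_left f4 hΛ0.le
    linarith
  · -- `3 H ≤ 3 v`
    have h1 : 4 * Λ ≤ Λ * W := by
      have h2 : (4 : ℝ) ≤ W := by
        refine le_trans ?_ f4
        have h5 : (0 : ℝ) ≤ n := Nat.cast_nonneg _
        have h6 : (1 : ℝ) * 1 ≤ (n + 1) * s :=
          mul_le_mul (by linarith) (by linarith) zero_le_one (by linarith)
        linarith
      have := mul_le_mul_of_nonneg_left h2 hΛ0.le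
      linarith
    have h3 : Λ * (1 / h) ≤ Λ := by
      apply mul_le_of_le_one_right hΛ0.le
      rw [div_le_one hh0, hhs]
      linarith
    linarith
  · rw [hSR, ← hs, hραl, hsq, hδΛ]
    have := mul_lt_mul_of_pos_left f5 (show 0 < Λ ^ 3 by positivity)
    calc 3 * (Λ * (1 / h)) ^ 2 * (Λ * s) = Λ ^ 3 * (3 * (1 / h) ^ 2 * s) := by ring
      _ < Λ ^ 3 * (W * δ * ρ) := this
      _ = _ := by ring

end Pool.Agent.TH668.Link
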