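import Pool.Agent.TH668.Link.Frame

/-!
# The chain lies in the triangle
-/

set_option autoImplicit false

namespace Pool.Agent.TH668.Link

open Finset

/-- orientation of the point `(x, y)` with respect to the line from `a` to `b` -/
def gg (ax ay bx byy x y : ℝ) : ℝ := (bx - ax) * (y - ay) - (byy - ay) * (x - ax)

/-- A segment which leaves a triangle meets one of its sides. -/
theorem tri_cross {ax ay bx byy cx cy px py qx qy : ℝ}
    (h1 : 0 < gg ax ay bx byy px py) (h2 : 0 < gg bx byy cx cy px py)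
    (h3 : 0 < gg cx cy ax ay px py)
    (hq : ¬ (0 < gg ax ay bx byy qx qy ∧ 0 < gg bx byy cx cy qx qy ∧ 0 < gg cx cy ax ay qx qy)) :
    ∃ t : ℝ, 0 ≤ t ∧ t ≤ 1 ∧
      ((∃ s : ℝ, 0 ≤ s ∧ s ≤ 1 ∧ px + t * (qx - px) = ax + s * (bx - ax) ∧
        py + t * (qy - py) = ay + s * (byy - ay)) ∨
      (∃ s : ℝ, 0 ≤ s ∧ s ≤ 1 ∧ px + t * (qx - px) = bx + s * (cx - bx) ∧
        py + t * (qy - py) = byy + s * (cy - byy)) ∨
      (∃ s : ℝ, 0 ≤ s ∧ s ≤ 1 ∧ px + t * (qx - px) = cx + s * (ax - cx) ∧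
        py + t * (qy - py) = cy + s * (ay - cy))) := by
  set m : ℝ → ℝ := fun t => min (gg ax ay bx byy (px + t * (qx - px)) (py + t * (qy - py)))
    (min (gg bx byy cx cy (px + t * (qx - px)) (py + t * (qy - py)))
      (gg cx cy ax ay (px + t * (qx - px)) (py + t * (qy - py)))) with hm
  have hcont : Continuous m := by
    simp only [hm, gg]
    fun_prop
  have hm0 : 0 < m 0 := by
    simp only [hm, zero_mul, add_zero]
    exact lt_min h1 (lt_min h2 h3)
  have hm1 : m 1 ≤ 0 := by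
    by_contra hcon
    push Not at hcon
    simp only [hm, one_mul, add_sub_cancel, lt_min_iff] at hcon
    exact hq hcon
  obtain ⟨t, ⟨ht0, ht1⟩, ht⟩ := intermediate_value_Icc' (zero_le_one' ℝ) hcont.continuousOn
    ⟨hm1, hm0.le⟩
  refine ⟨t, ht0, ht1, ?_⟩
  obtain ⟨x, hx⟩ : ∃ x, x = px + t * (qx - px) := ⟨_, rfl⟩
  obtain ⟨y, hy⟩ : ∃ y, y = py + t * (qy - py) := ⟨_, rfl⟩
  simp only [hm] at ht
  rw [← hx, ← hy] at ht ⊢
  have hΔ : 0 < gg ax ay bx byy px py + gg bx byy cx cy px py + gg cx cy ax ay px py := by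
    linarith
  obtain ⟨Δ, hΔ'⟩ : ∃ Δ, Δ = gg ax ay bx byy px py + gg bx byy cx cy px py +
    gg cx cy ax ay px py := ⟨_, rfl⟩
  rw [← hΔ'] at hΔ
  have hsum : gg ax ay bx byy x y + gg bx byy cx cy x y + gg cx cy ax ay x y = Δ := by
    rw [hΔ']
    unfold gg
    ring
  have ix : Δ * x = gg bx byy cx cy x y * ax + gg cx cy ax ay x y * bx +
      gg ax ay bx byy x y * cx := by
    rw [← hsum]
    unfold gg
    ring
  have iy : Δ * y = gg bx byy cx cy x y * ay + gg cx cy ax ay x y * byy +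
      gg ax ay bx byy x y * cy := by
    rw [← hsum]
    unfold gg
    ring
  have hnn : 0 ≤ gg ax ay bx byy x y ∧ 0 ≤ gg bx byy cx cy x y ∧ 0 ≤ gg cx cy ax ay x y := by
    refine ⟨?_, ?_, ?_⟩
    · rw [← ht]; exact min_le_left _ _
    · rw [← ht]; exact (min_le_right _ _).trans (min_le_left _ _)
    · rw [← ht]; exact (min_le_right _ _).trans (min_le_right _ _)
  generalize gg ax ay bx byy x y = A at *
  generalize gg bx byy cx cy x y = B at *
  generalize gg cx cy ax ay x y = C at *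
  obtain ⟨hA, hB, hC⟩ := hnn
  have hz : A = 0 ∨ B = 0 ∨ C = 0 := by
    rcases min_choice A (min B C) with h | h
    · left; rw [← h]; exact ht
    · rw [h] at ht
      rcases min_choice B C with h' | h'
      · right; left; rw [← h']; exact ht
      · right; right; rw [← h']; exact ht
  have hΔ0 := hΔ.ne'
  rcases hz with h | h | h
  · left
    have e : Δ * (C / Δ) = C := by field_simp
    refine ⟨C / Δ, by positivity, by rw [div_le_one hΔ]; linarith, ?_, ?_⟩
    · apply mul_left_cancel₀ hΔ0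
      linear_combination ix - (bx - ax) * e + ax * hsum + (cx - ax) * h
    · apply mul_left_cancel₀ hΔ0
      linear_combination iy - (byy - ay) * e + ay * hsum + (cy - ay) * h
  · right; left
    have e : Δ * (A / Δ) = A := by field_simp
    refine ⟨A / Δ, by positivity, by rw [div_le_one hΔ]; linarith, ?_, ?_⟩
    · apply mul_left_cancel₀ hΔ0
      linear_combination ix - (cx - bx) * e + bx * hsum + (ax - bx) * h
    · apply mul_left_cancel₀ hΔ0
      linear_combination iy - (cy - byy) * e + byy * hsum + (ay - byy) * h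
  · right; right
    have e : Δ * (B / Δ) = B := by field_simp
    refine ⟨B / Δ, by positivity, by rw [div_le_one hΔ]; linarith, ?_, ?_⟩
    · apply mul_left_cancel₀ hΔ0
      linear_combination ix - (ax - cx) * e + cx * hsum + (bx - cx) * h
    · apply mul_left_cancel₀ hΔ0
      linear_combination iy - (ay - cy) * e + cy * hsum + (byy - cy) * h

/-- `f1` and `f2` are joined by a bar of the frame. -/
def FE (n f1 f2 : ℕ) : Prop :=
  (f1 = n + 3 ∧ f2 = 0) ∨ (f1 = 0 ∧ f2 = n + 4) ∨ (f1 = n + 2 ∧ f2 = n + 3) ∨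
    (f1 = n + 2 ∧ f2 = 0) ∨ (f1 = n + 2 ∧ f2 = n + 4) ∨ (f1 = n + 3 ∧ f2 = n + 1) ∨
    (f1 = n + 1 ∧ f2 = n + 4)

variable {n : ℕ} {al : ℕ → ℕ} {M H D V z : ℝ} {a : ℕ → ℚ} {V' z' U b1 b2 : ℚ} {X Y : ℕ → ℝ}

theorem FE.mem {f1 f2 : ℕ} (h : FE n f1 f2) :
    ∃ l : ℚ, ((f1, f2), l) ∈ (lk n a V' z' U b1 b2).2 := by
  rcases h with ⟨rfl, rfl⟩ | ⟨rfl, rfl⟩ | ⟨rfl, rfl⟩ | ⟨rfl, rfl⟩ | ⟨rfl, rfl⟩ | ⟨rfl, rfl⟩ |
    ⟨rfl, rfl⟩
  · exact ⟨_, mem_f1⟩
  · exact ⟨_, mem_f2⟩
  · exact ⟨_, mem_f3⟩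
  · exact ⟨_, mem_f4⟩
  · exact ⟨_, mem_f5⟩
  · exact ⟨_, mem_f6⟩
  · exact ⟨_, mem_f7⟩

/-- the chain bars have positive lengths -/
theorem chain_ne (g : Geo n al M H D V z a V' z' U b1 b2) (hcc : CC (lk n a V' z' U b1 b2) X Y)
    {j : ℕ} (hj : j ≤ n) : (X j - X (j + 1)) ^ 2 + (Y j - Y (j + 1)) ^ 2 = (M * al j) ^ 2 ∧
      0 < M * al j := by
  have h1 := hcc.1 _ (mem_chain hj)
  simp only at h1
  rw [g.ha j hj] at h1
  have h2 : (1 : ℝ) ≤ al j := by exact_mod_cast g.hal j hj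
  exact ⟨h1, mul_pos g.hM (by linarith)⟩

/-- A point of the chain on a bar of the frame is `p` or `w`. -/
theorem no_hit (g : Geo n al M H D V z a V' z' U b1 b2) (hcc : CC (lk n a V' z' U b1 b2) X Y)
    {j : ℕ} (hj : j ≤ n) {f1 f2 : ℕ} (hf : FE n f1 f2) {t s : ℝ} (ht : 0 ≤ t) (ht' : t ≤ 1)
    (hs : 0 ≤ s) (hs' : s ≤ 1)
    (hX : X j + t * (X (j + 1) - X j) = X f1 + s * (X f2 - X f1))
    (hY : Y j + t * (Y (j + 1) - Y j) = Y f1 + s * (Y f2 - Y f1)) :
    (j = 0 ∧ t = 0) ∨ (j = n ∧ t = 1) := by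
  obtain ⟨l, hl⟩ := hf.mem (a := a) (V' := V') (z' := z') (U := U) (b1 := b1) (b2 := b2)
  have hn := g.hn
  obtain ⟨hlen, hpos⟩ := chain_ne g hcc hj
  have hpos2 : 0 < (M * al j : ℝ) ^ 2 := by positivity
  obtain ⟨k, hk, hk', hkX, hkY⟩ := hcc.2 _ (mem_chain hj) _ hl (by
    intro h
    have h1 := congrArg Prod.fst h
    simp only [Prod.mk.injEq] at h1
    unfold FE at hf
    omega) t s ht ht' hs hs' hX hY
  simp only at hk hk' hkX hkY
  have hk2 : (k = j ∧ j = 0) ∨ (k = j + 1 ∧ j = n) := by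
    unfold FE at hf
    omega
  rcases hk2 with ⟨rfl, hj0⟩ | ⟨rfl, hjn⟩
  · left
    refine ⟨hj0, ?_⟩
    by_contra ht0
    have h1 : X (k + 1) - X k = 0 := by
      have : t * (X (k + 1) - X k) = 0 := by linarith
      exact (mul_eq_zero.1 this).resolve_left ht0
    have h2 : Y (k + 1) - Y k = 0 := by
      have : t * (Y (k + 1) - Y k) = 0 := by linarith
      exact (mul_eq_zero.1 this).resolve_left ht0
    nlinarith
  · right
    refine ⟨hjn, ?_⟩
    by_contra ht0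
    have ht1 : t - 1 ≠ 0 := fun h => ht0 (by linarith)
    have h1 : X (j + 1) - X j = 0 := by
      have : (t - 1) * (X (j + 1) - X j) = 0 := by linear_combination hkX
      exact (mul_eq_zero.1 this).resolve_left ht1
    have h2 : Y (j + 1) - Y j = 0 := by
      have : (t - 1) * (Y (j + 1) - Y j) = 0 := by linear_combination hkY
      exact (mul_eq_zero.1 this).resolve_left ht1
    nlinarith

/-- the segment from `f1` to `f2` consists of points of bars of the frame -/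
def Side (n : ℕ) (X Y : ℕ → ℝ) (f1 f2 : ℕ) : Prop :=
  ∀ s : ℝ, 0 ≤ s → s ≤ 1 → ∃ (e1 e2 : ℕ) (s' : ℝ), FE n e1 e2 ∧ 0 ≤ s' ∧ s' ≤ 1 ∧
    X f1 + s * (X f2 - X f1) = X e1 + s' * (X e2 - X e1) ∧
    Y f1 + s * (Y f2 - Y f1) = Y e1 + s' * (Y e2 - Y e1)

theorem FE.side {f1 f2 : ℕ} (h : FE n f1 f2) : Side n X Y f1 f2 :=
  fun s hs hs' => ⟨f1, f2, s, h, hs, hs', rfl, rfl⟩

theorem FE.side' {f1 f2 : ℕ} (h : FE n f2 f1) : Side n X Y f1 f2 :=
  fun s hs hs' => ⟨f2, f1, 1 - s, h, by linarith, by linarith, by ring, by ring⟩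

theorem side_uv (hF : Fr n H D V z X Y) : Side n X Y (n + 3) (n + 4) := by
  obtain ⟨⟨h1, h2⟩, -, -, ⟨h3, h4⟩, ⟨h5, h6⟩⟩ := hF
  intro s hs hs'
  rcases le_total s (1 / 2) with h | h
  · refine ⟨n + 3, 0, 2 * s, Or.inl ⟨rfl, rfl⟩, by linarith, by linarith, ?_, ?_⟩
    · rw [h1, h3, h5]; ring
    · rw [h2, h4, h6]; ring
  · refine ⟨0, n + 4, 2 * s - 1, Or.inr (Or.inl ⟨rfl, rfl⟩), by linarith, by linarith, ?_, ?_⟩
    · rw [h1, h3, h5]; ring
    · rw [h2, h4, h6]; ring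

/-- The chain does not cross the boundary of a triangle formed by bars of the frame. -/
theorem stay (g : Geo n al M H D V z a V' z' U b1 b2) (hcc : CC (lk n a V' z' U b1 b2) X Y)
    {f1 f2 f3 : ℕ} (h12 : Side n X Y f1 f2) (h23 : Side n X Y f2 f3)
    (h31 : Side n X Y f3 f1) {j : ℕ} (hj : j ≤ n) {t0 t1 : ℝ} (ht0 : 0 ≤ t0)
    (ht01 : t0 ≤ t1) (ht1 : t1 ≤ 1) (hj0 : j ≠ 0 ∨ 0 < t0) (hjn : j ≠ n ∨ t1 < 1)
    (hin : 0 < gg (X f1) (Y f1) (X f2) (Y f2) (X j + t0 * (X (j + 1) - X j))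
        (Y j + t0 * (Y (j + 1) - Y j)) ∧
      0 < gg (X f2) (Y f2) (X f3) (Y f3) (X j + t0 * (X (j + 1) - X j))
        (Y j + t0 * (Y (j + 1) - Y j)) ∧
      0 < gg (X f3) (Y f3) (X f1) (Y f1) (X j + t0 * (X (j + 1) - X j))
        (Y j + t0 * (Y (j + 1) - Y j))) :
    0 < gg (X f1) (Y f1) (X f2) (Y f2) (X j + t1 * (X (j + 1) - X j))
        (Y j + t1 * (Y (j + 1) - Y j)) ∧
      0 < gg (X f2) (Y f2) (X f3) (Y f3) (X j + t1 * (X (j + 1) - X j))
        (Y j + t1 * (Y (j + 1) - Y j)) ∧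
      0 < gg (X f3) (Y f3) (X f1) (Y f1) (X j + t1 * (X (j + 1) - X j))
        (Y j + t1 * (Y (j + 1) - Y j)) := by
  by_contra hcon
  obtain ⟨t, ht, ht', hh⟩ := tri_cross hin.1 hin.2.1 hin.2.2 hcon
  have hT0 : 0 ≤ t0 + t * (t1 - t0) := by nlinarith
  have hT1 : t0 + t * (t1 - t0) ≤ t1 := by nlinarith
  have key : ∀ {f f' : ℕ} (_ : Side n X Y f f') (s : ℝ) (_ : 0 ≤ s) (_ : s ≤ 1)
      (_ : X j + t0 * (X (j + 1) - X j) + t * (X j + t1 * (X (j + 1) - X j) -
        (X j + t0 * (X (j + 1) - X j))) = X f + s * (X f' - X f))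
      (_ : Y j + t0 * (Y (j + 1) - Y j) + t * (Y j + t1 * (Y (j + 1) - Y j) -
        (Y j + t0 * (Y (j + 1) - Y j))) = Y f + s * (Y f' - Y f)), False := by
    intro f f' hff s hs hs' hX hY
    obtain ⟨e1, e2, s', he, hs1, hs2, hX', hY'⟩ := hff s hs hs'
    rcases no_hit g hcc hj he hT0 (hT1.trans ht1) hs1 hs2 (by rw [← hX', ← hX]; ring)
      (by rw [← hY', ← hY]; ring) with ⟨h1, h2⟩ | ⟨h1, h2⟩
    · rcases hj0 with hj0 | hj0
      · exact hj0 h1
      · nlinarith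
    · rcases hjn with hjn | hjn
      · exact hjn h1
      · linarith
  rcases hh with ⟨s, hs, hs', hX, hY⟩ | ⟨s, hs, hs', hX, hY⟩ | ⟨s, hs, hs', hX, hY⟩
  · exact key h12 s hs hs' hX hY
  · exact key h23 s hs hs' hX hY
  · exact key h31 s hs hs' hX hY

theorem small {α1 β1 α2 β2 : ℝ} (h1 : 0 < α1) (h2 : 0 < α2) :
    ∃ t : ℝ, 0 < t ∧ t < 1 ∧ 0 < α1 + t * β1 ∧ 0 < α2 + t * β2 := by
  have e1 : ∀ᶠ t in nhdsWithin (0 : ℝ) (Set.Ioi 0), 0 < α1 + t * β1 := by
    have : Continuous fun t : ℝ => α1 + t * β1 := by fun_prop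
    exact (this.tendsto' 0 α1 (by simp)).eventually (lt_mem_nhds h1) |>.filter_mono
      nhdsWithin_le_nhds
  have e2 : ∀ᶠ t in nhdsWithin (0 : ℝ) (Set.Ioi 0), 0 < α2 + t * β2 := by
    have : Continuous fun t : ℝ => α2 + t * β2 := by fun_prop
    exact (this.tendsto' 0 α2 (by simp)).eventually (lt_mem_nhds h2) |>.filter_mono
      nhdsWithin_le_nhds
  have e3 : ∀ᶠ t in nhdsWithin (0 : ℝ) (Set.Ioi 0), t < 1 :=
    (gt_mem_nhds (zero_lt_one' ℝ)).filter_mono nhdsWithin_le_nhds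
  have e4 : ∀ᶠ t in nhdsWithin (0 : ℝ) (Set.Ioi 0), 0 < t := self_mem_nhdsWithin
  obtain ⟨t, h⟩ := (e1.and (e2.and (e3.and e4))).exists
  exact ⟨t, h.2.2.2, h.2.2.1, h.1, h.2.1⟩

/-- The chain cannot go through one of the lower triangles. -/
theorem lower_false (g : Geo n al M H D V z a V' z' U b1 b2)
    (hcc : CC (lk n a V' z' U b1 b2) X Y) (hF : Fr n H D V z X Y) {f1 f2 f3 : ℕ}
    (h12 : Side n X Y f1 f2) (h23 : Side n X Y f2 f3) (h31 : Side n X Y f3 f1)
    (hneg : ∀ x y, 0 < gg (X f1) (Y f1) (X f2) (Y f2) x y → 0 < gg (X f2) (Y f2) (X f3) (Y f3) x y →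
      0 < gg (X f3) (Y f3) (X f1) (Y f1) x y → y < 0)
    (hin : 0 < gg (X f1) (Y f1) (X f2) (Y f2) (X 1) (Y 1) ∧
      0 < gg (X f2) (Y f2) (X f3) (Y f3) (X 1) (Y 1) ∧
      0 < gg (X f3) (Y f3) (X f1) (Y f1) (X 1) (Y 1)) : False := by
  have hn := g.hn
  have hall : ∀ j, 1 ≤ j → j ≤ n → 0 < gg (X f1) (Y f1) (X f2) (Y f2) (X j) (Y j) ∧
      0 < gg (X f2) (Y f2) (X f3) (Y f3) (X j) (Y j) ∧
      0 < gg (X f3) (Y f3) (X f1) (Y f1) (X j) (Y j) := by
    intro j hj
    induction j, hj using Nat.le_induction with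
    | base => intro _; exact hin
    | succ j hj ih =>
      intro hj'
      have := stay g hcc h12 h23 h31 (j := j) (by omega) (t0 := 0) (t1 := 1) le_rfl zero_le_one
        le_rfl (Or.inl (by omega)) (Or.inl (by omega)) (by simpa using ih (by omega))
      simpa using this
  have h1 := hall n hn le_rfl
  have hYn := hneg _ _ h1.1 h1.2.1 h1.2.2
  have hYw := hF.2.1.2
  have hH := g.hH
  have hd : 0 < H - Y n := by linarith
  obtain ⟨t, ht0, ht1, hty⟩ : ∃ t : ℝ, 0 ≤ t ∧ t < 1 ∧ 0 < Y n + t * (H - Y n) := by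
    refine ⟨(-Y n + H / 2) / (H - Y n), by apply div_nonneg <;> linarith, ?_, ?_⟩
    · rw [div_lt_one hd]; linarith
    · rw [div_mul_cancel₀ _ hd.ne']; linarith
  have h2 := stay g hcc h12 h23 h31 (j := n) le_rfl (t0 := 0) (t1 := t) le_rfl ht0
    ht1.le (Or.inl (by omega)) (Or.inr ht1) (by simpa using h1)
  have h3 := hneg _ _ h2.1 h2.2.1 h2.2.2
  rw [hYw] at h3
  linarith

/-- **The chain lies in the triangle `u v w`.** -/
theorem confined (g : Geo n al M H D V z a V' z' U b1 b2) (hcc : CC (lk n a V' z' U b1 b2) X Y)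
    (hF : Fr n H D V z X Y) {j : ℕ} (hj : 1 ≤ j) (hjn : j ≤ n) :
    0 < Y j ∧ 0 < (V - X j) * H - Y j * (V - D) ∧ 0 < (X j + V) * H - Y j * (V + D) := by
  have hn := g.hn
  have hV := g.V_pos
  have hz := g.z_pos
  have hH := g.hH
  have hF' := hF
  obtain ⟨⟨x0, y0⟩, ⟨xw, yw⟩, ⟨xZ, yZ⟩, ⟨xu, yu⟩, ⟨xv, yv⟩⟩ := hF'
  obtain ⟨hlen, hpos⟩ := chain_ne g hcc (Nat.zero_le n)
  rw [x0, y0, zero_add] at hlen
  have s1 : Side n X Y (n + 2) 0 := FE.side (Or.inr (Or.inr (Or.inr (Or.inl ⟨rfl, rfl⟩))))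
  have s2 : Side n X Y 0 (n + 3) := FE.side' (Or.inl ⟨rfl, rfl⟩)
  have s3 : Side n X Y (n + 3) (n + 2) := FE.side' (Or.inr (Or.inr (Or.inl ⟨rfl, rfl⟩)))
  have s4 : Side n X Y (n + 2) (n + 4) :=
    FE.side (Or.inr (Or.inr (Or.inr (Or.inr (Or.inl ⟨rfl, rfl⟩)))))
  have s5 : Side n X Y (n + 4) 0 := FE.side' (Or.inr (Or.inl ⟨rfl, rfl⟩))
  have s6 : Side n X Y 0 (n + 2) := FE.side' (Or.inr (Or.inr (Or.inr (Or.inl ⟨rfl, rfl⟩))))
  have s7 : Side n X Y (n + 4) (n + 1) :=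
    FE.side' (Or.inr (Or.inr (Or.inr (Or.inr (Or.inr (Or.inr ⟨rfl, rfl⟩))))))
  have s8 : Side n X Y (n + 1) (n + 3) :=
    FE.side' (Or.inr (Or.inr (Or.inr (Or.inr (Or.inr (Or.inl ⟨rfl, rfl⟩))))))
  rcases lt_trichotomy (Y 1) 0 with hY | hY | hY
  · exfalso
    rcases lt_trichotomy (X 1) 0 with hX | hX | hX
    · -- left lower triangle
      obtain ⟨t, ht0, ht1, ha1, -⟩ := small (α1 := V * z) (β1 := V * Y 1 + z * X 1) (α2 := 1)
        (β2 := 0) (by positivity) one_pos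
      have h1 := stay g hcc s1 s2 s3 (j := 0) (Nat.zero_le n) (t0 := t) (t1 := 1) ht0.le ht1.le
        le_rfl (Or.inr ht0) (Or.inl (by omega)) (by
          rw [x0, y0, xZ, yZ, xu, yu, zero_add]
          refine ⟨?_, ?_, ?_⟩
          · unfold gg
            nlinarith [mul_pos ht0 (mul_pos hz (neg_pos.2 hX))]
          · unfold gg
            nlinarith [mul_pos ht0 (mul_pos hV (neg_pos.2 hY))]
          · unfold gg
            nlinarith)
      refine lower_false g hcc hF s1 s2 s3 ?_ (by simpa using h1)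
      intro x y _ h _
      rw [x0, y0, xu, yu] at h
      unfold gg at h
      nlinarith
    · -- the bar `Z p`
      have hzY : 0 < z - Y 1 := by linarith
      rcases no_hit g hcc (Nat.zero_le n) (f1 := n + 2) (f2 := 0)
        (Or.inr (Or.inr (Or.inr (Or.inl ⟨rfl, rfl⟩)))) (t := z / (z - Y 1)) (s := z / (z - Y 1))
        (by positivity) (by rw [div_le_one hzY]; linarith) (by positivity)
        (by rw [div_le_one hzY]; linarith) (by rw [x0, xZ, zero_add, hX]; ring)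
        (by
          rw [y0, yZ, zero_add]
          field_simp
          ring) with ⟨-, h2⟩ | ⟨h1, -⟩
      · have : 0 < z / (z - Y 1) := by positivity
        linarith
      · omega
    · -- right lower triangle
      obtain ⟨t, ht0, ht1, ha1, -⟩ := small (α1 := V * z) (β1 := V * Y 1 - z * X 1) (α2 := 1)
        (β2 := 0) (by positivity) one_pos
      have h1 := stay g hcc s4 s5 s6 (j := 0) (Nat.zero_le n) (t0 := t) (t1 := 1) ht0.le ht1.le
        le_rfl (Or.inr ht0) (Or.inl (by omega)) (by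
          rw [x0, y0, xZ, yZ, xv, yv, zero_add]
          refine ⟨?_, ?_, ?_⟩
          · unfold gg
            nlinarith
          · unfold gg
            nlinarith [mul_pos ht0 (mul_pos hV (neg_pos.2 hY))]
          · unfold gg
            nlinarith [mul_pos ht0 (mul_pos hz hX)])
      refine lower_false g hcc hF s4 s5 s6 ?_ (by simpa using h1)
      intro x y _ h _
      rw [x0, y0, xv, yv] at h
      unfold gg at h
      nlinarith
  · exfalso
    rcases lt_trichotomy (X 1) 0 with hX | hX | hX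
    · have hzY : 0 < V - X 1 := by linarith
      rcases no_hit g hcc (Nat.zero_le n) (f1 := n + 3) (f2 := 0)
        (Or.inl ⟨rfl, rfl⟩) (t := V / (V - X 1)) (s := V / (V - X 1))
        (by positivity) (by rw [div_le_one hzY]; linarith) (by positivity)
        (by rw [div_le_one hzY]; linarith)
        (by
          rw [x0, xu, zero_add]
          field_simp
          ring) (by rw [y0, yu, zero_add, hY]; ring) with ⟨-, h2⟩ | ⟨h1, -⟩
      · have : 0 < V / (V - X 1) := by positivity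
        linarith
      · omega
    · rw [hX, hY] at hlen
      nlinarith
    · have hzY : 0 < V + X 1 := by linarith
      rcases no_hit g hcc (Nat.zero_le n) (f1 := 0) (f2 := n + 4)
        (Or.inr (Or.inl ⟨rfl, rfl⟩)) (t := V / (V + X 1)) (s := X 1 / (V + X 1))
        (by positivity) (by rw [div_le_one hzY]; linarith) (by positivity)
        (by rw [div_le_one hzY]; linarith)
        (by
          rw [x0, xv, zero_add]
          field_simp
          ring) (by rw [y0, yv, zero_add, hY]; ring) with ⟨-, h2⟩ | ⟨h1, -⟩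
      · have : 0 < V / (V + X 1) := by positivity
        linarith
      · omega
  · obtain ⟨t, ht0, ht1, ha1, ha2⟩ := small (α1 := V * H) (β1 := -(H * X 1) - (V - D) * Y 1)
      (α2 := V * H) (β2 := H * X 1 - (V + D) * Y 1) (by positivity) (by positivity)
    have h1 := stay g hcc (side_uv hF) s7 s8 (j := 0) (Nat.zero_le n) (t0 := t) (t1 := 1) ht0.le
      ht1.le le_rfl (Or.inr ht0) (Or.inl (by omega)) (by
        rw [x0, y0, xw, yw, xv, yv, xu, yu, zero_add]
        refine ⟨?_, ?_, ?_⟩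
        · unfold gg
          nlinarith [mul_pos ht0 (mul_pos hV hY)]
        · unfold gg
          nlinarith
        · unfold gg
          nlinarith)
    have hall : 0 < gg (X (n + 3)) (Y (n + 3)) (X (n + 4)) (Y (n + 4)) (X j) (Y j) ∧
        0 < gg (X (n + 4)) (Y (n + 4)) (X (n + 1)) (Y (n + 1)) (X j) (Y j) ∧
        0 < gg (X (n + 1)) (Y (n + 1)) (X (n + 3)) (Y (n + 3)) (X j) (Y j) := by
      induction j, hj using Nat.le_induction with
      | base => simpa using h1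
      | succ j hj ih =>
        have := stay g hcc (side_uv hF) s7 s8 (j := j) (by omega) (t0 := 0) (t1 := 1) le_rfl
          zero_le_one le_rfl (Or.inl (by omega)) (Or.inl (by omega)) (by simpa using ih (by omega))
        simpa using this
    rw [xw, yw, xv, yv, xu, yu] at hall
    unfold gg at hall
    obtain ⟨h2, h3, h4⟩ := hall
    refine ⟨?_, by nlinarith, by nlinarith⟩
    nlinarith

/-- heights of the chain -/
theorem height (g : Geo n al M H D V z a V' z' U b1 b2) (hcc : CC (lk n a V' z' U b1 b2) X Y)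
    (hF : Fr n H D V z X Y) {j : ℕ} (hj : 1 ≤ j) (hjn : j ≤ n) : 0 < Y j ∧ Y j < H := by
  obtain ⟨h1, h2, h3⟩ := confined g hcc hF hj hjn
  refine ⟨h1, ?_⟩
  have hV := g.V_pos
  have : V * Y j < V * H := by nlinarith
  exact lt_of_mul_lt_mul_left this hV.le

end Pool.Agent.TH668.Link
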