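import Pool.Agent.TH668.Link.Defs

/-!
# Configurations in coordinates
-/

set_option autoImplicit false

namespace Pool.Agent.TH668.Link

open Finset

/-- the plane -/
abbrev E2 := EuclideanSpace ℝ (Fin 2)

/-- Coordinate version of a configuration. -/
def CC (L : Linkage) (X Y : ℕ → ℝ) : Prop :=
  (∀ b ∈ L.2, (X b.1.1 - X b.1.2) ^ 2 + (Y b.1.1 - Y b.1.2) ^ 2 = (b.2 : ℝ) ^ 2) ∧
  ∀ b ∈ L.2, ∀ b' ∈ L.2, b ≠ b' → ∀ s t : ℝ, 0 ≤ s → s ≤ 1 → 0 ≤ t → t ≤ 1 →
    X b.1.1 + s * (X b.1.2 - X b.1.1) = X b'.1.1 + t * (X b'.1.2 - X b'.1.1) →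
    Y b.1.1 + s * (Y b.1.2 - Y b.1.1) = Y b'.1.1 + t * (Y b'.1.2 - Y b'.1.1) →
    ∃ k, (k = b.1.1 ∨ k = b.1.2) ∧ (k = b'.1.1 ∨ k = b'.1.2) ∧
      X b.1.1 + s * (X b.1.2 - X b.1.1) = X k ∧ Y b.1.1 + s * (Y b.1.2 - Y b.1.1) = Y k

/-- The image of the points `(X i, Y i)` under an isometry of the plane. -/
noncomputable def place (N : ℕ) (c s p p' η : ℝ) (X Y : ℕ → ℝ) : ℕ → E2 := fun i =>
  if i < N then !₂[p + c * X i - η * s * Y i, p' + s * X i + η * c * Y i] else 0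

variable {N : ℕ} {c s p p' η : ℝ} {X Y : ℕ → ℝ}

theorem place_0 {i : ℕ} (hi : i < N) :
    place N c s p p' η X Y i 0 = p + c * X i - η * s * Y i := by
  simp [place, hi]

theorem place_1 {i : ℕ} (hi : i < N) :
    place N c s p p' η X Y i 1 = p' + s * X i + η * c * Y i := by
  simp [place, hi]

theorem place_ge {i : ℕ} (hi : N ≤ i) : place N c s p p' η X Y i = 0 := by
  simp [place, not_lt.2 hi]

theorem E2_ext {x y : E2} (h0 : x 0 = y 0) (h1 : x 1 = y 1) : x = y := by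
  ext i
  fin_cases i
  · exact h0
  · exact h1

theorem inj_aux {u v : ℝ} (hcs : c ^ 2 + s ^ 2 = 1) (hη : η ^ 2 = 1)
    (h0 : c * u - η * s * v = 0) (h1 : s * u + η * c * v = 0) : u = 0 ∧ v = 0 := by
  constructor
  · linear_combination c * h0 + s * h1 - u * hcs
  · linear_combination (-(η * s)) * h0 + (η * c) * h1 - v * hcs - v * (c ^ 2 + s ^ 2) * hη

theorem eq_place {q : ℕ → E2} (hq : ∀ i, N ≤ i → q i = 0) (hcs : c ^ 2 + s ^ 2 = 1)
    (hη : η ^ 2 = 1) : place N c s p p' η (fun i => c * (q i 0 - p) + s * (q i 1 - p'))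
      (fun i => η * (-s * (q i 0 - p) + c * (q i 1 - p'))) = q := by
  funext i
  rcases lt_or_ge i N with hi | hi
  · apply E2_ext
    · rw [place_0 hi]
      linear_combination (q i 0 - p) * hcs +
        (s ^ 2 * (q i 0 - p) - c * s * (q i 1 - p')) * hη
    · rw [place_1 hi]
      linear_combination (q i 1 - p') * hcs +
        (-(c * s) * (q i 0 - p) + c ^ 2 * (q i 1 - p')) * hη
  · rw [place_ge hi, hq i hi]

theorem dist_E2 (x y : E2) : dist x y = √((x 0 - y 0) ^ 2 + (x 1 - y 1) ^ 2) := by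
  rw [EuclideanSpace.dist_eq, Fin.sum_univ_two, Real.dist_eq, Real.dist_eq, sq_abs, sq_abs]

theorem dist_eq_iff {x y : E2} {l : ℝ} (hl : 0 < l) :
    dist x y = l ↔ (x 0 - y 0) ^ 2 + (x 1 - y 1) ^ 2 = l ^ 2 := by
  rw [dist_E2]
  constructor
  · intro h
    rw [← h, Real.sq_sqrt (by positivity)]
  · intro h
    rw [h, Real.sqrt_sq hl.le]

theorem mem_segment_E2 {x a b : E2} : x ∈ segment ℝ a b ↔
    ∃ t : ℝ, (0 ≤ t ∧ t ≤ 1) ∧ x 0 = a 0 + t * (b 0 - a 0) ∧ x 1 = a 1 + t * (b 1 - a 1) := by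
  rw [segment_eq_image']
  constructor
  · rintro ⟨t, ht, rfl⟩
    exact ⟨t, ht, by simp, by simp⟩
  · rintro ⟨t, ht, h0, h1⟩
    exact ⟨t, ht, E2_ext (by simp [h0]) (by simp [h1])⟩

theorem place_iff {L : Linkage} (hL : Valid L) (hcs : c ^ 2 + s ^ 2 = 1) (hη : η ^ 2 = 1) :
    IsConfig 2 L (place L.1 c s p p' η X Y) ↔ CC L X Y := by
  constructor
  · rintro ⟨-, h2, h3⟩
    refine ⟨fun b hb => ?_, fun b hb b' hb' hne u t hu hu' ht ht' hX hY => ?_⟩
    · obtain ⟨hb1, hb2, -, hb3⟩ := hL.1 b hb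
      have hb3' : (0 : ℝ) < b.2 := by exact_mod_cast hb3
      have := (dist_eq_iff hb3').1 (h2 b hb)
      rw [place_0 hb1, place_0 hb2, place_1 hb1, place_1 hb2] at this
      rw [← this]
      linear_combination (-((X b.1.1 - X b.1.2) ^ 2 + (Y b.1.1 - Y b.1.2) ^ 2)) * hcs -
        (c ^ 2 + s ^ 2) * (Y b.1.1 - Y b.1.2) ^ 2 * hη
    · obtain ⟨hb1, hb2, -, -⟩ := hL.1 b hb
      obtain ⟨hb1', hb2', -, -⟩ := hL.1 b' hb'
      obtain ⟨k, hk, hk', hx⟩ := h3 b hb b' hb' hne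
        (place L.1 c s p p' η X Y b.1.1 + u • (place L.1 c s p p' η X Y b.1.2 -
          place L.1 c s p p' η X Y b.1.1))
        (mem_segment_E2.2 ⟨u, ⟨hu, hu'⟩, by simp, by simp⟩)
        (mem_segment_E2.2 ⟨t, ⟨ht, ht'⟩, by
          simp only [PiLp.add_apply, PiLp.smul_apply, PiLp.sub_apply, smul_eq_mul]
          rw [place_0 hb1, place_0 hb2, place_0 hb1', place_0 hb2']
          linear_combination c * hX - η * s * hY, by
          simp only [PiLp.add_apply, PiLp.smul_apply, PiLp.sub_apply, smul_eq_mul]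
          rw [place_1 hb1, place_1 hb2, place_1 hb1', place_1 hb2']
          linear_combination s * hX + η * c * hY⟩)
      have hkN : k < L.1 := by rcases hk with rfl | rfl <;> assumption
      have h0 := congrArg (fun x : E2 => x 0) hx
      have h1 := congrArg (fun x : E2 => x 1) hx
      simp only [PiLp.add_apply, PiLp.smul_apply, PiLp.sub_apply, smul_eq_mul] at h0 h1
      rw [place_0 hb1, place_0 hb2, place_0 hkN] at h0
      rw [place_1 hb1, place_1 hb2, place_1 hkN] at h1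
      have := inj_aux (u := X b.1.1 + u * (X b.1.2 - X b.1.1) - X k)
        (v := Y b.1.1 + u * (Y b.1.2 - Y b.1.1) - Y k) hcs hη
        (by linear_combination h0) (by linear_combination h1)
      exact ⟨k, hk, hk', by linarith [this.1], by linarith [this.2]⟩
  · rintro ⟨h2, h3⟩
    refine ⟨fun i hi => place_ge hi, fun b hb => ?_, fun b hb b' hb' hne x hx hx' => ?_⟩
    · obtain ⟨hb1, hb2, -, hb3⟩ := hL.1 b hb
      have hb3' : (0 : ℝ) < b.2 := by exact_mod_cast hb3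
      rw [dist_eq_iff hb3', place_0 hb1, place_0 hb2, place_1 hb1, place_1 hb2, ← h2 b hb]
      linear_combination ((X b.1.1 - X b.1.2) ^ 2 + (Y b.1.1 - Y b.1.2) ^ 2) * hcs +
        (c ^ 2 + s ^ 2) * (Y b.1.1 - Y b.1.2) ^ 2 * hη
    · obtain ⟨hb1, hb2, -, -⟩ := hL.1 b hb
      obtain ⟨hb1', hb2', -, -⟩ := hL.1 b' hb'
      obtain ⟨u, ⟨hu, hu'⟩, h0, h1⟩ := mem_segment_E2.1 hx
      obtain ⟨t, ⟨ht, ht'⟩, h0', h1'⟩ := mem_segment_E2.1 hx'
      rw [place_0 hb1, place_0 hb2] at h0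
      rw [place_1 hb1, place_1 hb2] at h1
      rw [place_0 hb1', place_0 hb2'] at h0'
      rw [place_1 hb1', place_1 hb2'] at h1'
      have := inj_aux (u := X b.1.1 + u * (X b.1.2 - X b.1.1) -
          (X b'.1.1 + t * (X b'.1.2 - X b'.1.1)))
        (v := Y b.1.1 + u * (Y b.1.2 - Y b.1.1) - (Y b'.1.1 + t * (Y b'.1.2 - Y b'.1.1))) hcs hη
        (by linear_combination h0' - h0) (by linear_combination h1' - h1)
      obtain ⟨k, hk, hk', hX, hY⟩ := h3 b hb b' hb' hne u t hu hu' ht ht' (by linarith [this.1])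
        (by linarith [this.2])
      have hkN : k < L.1 := by rcases hk with rfl | rfl <;> assumption
      refine ⟨k, hk, hk', E2_ext ?_ ?_⟩
      · rw [h0, place_0 hkN]
        linear_combination c * hX - η * s * hY
      · rw [h1, place_1 hkN]
        linear_combination s * hX + η * c * hY

end Pool.Agent.TH668.Link
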