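import Pool.Agent.NPC.Hard

/-!
# Linkages, configurations, lockedness
-/

set_option autoImplicit false

namespace Pool.Agent.TH668.Link

open Finset

/-- A linkage: the number of vertices, and the list of bars; a bar is a pair of vertices together
with its length. -/
abbrev Linkage := ℕ × List ((ℕ × ℕ) × ℚ)

/-- The bars form a finite simple graph on the vertices `0, ..., N-1`; lengths are positive. -/
def Valid (L : Linkage) : Prop :=
  (∀ b ∈ L.2, b.1.1 < L.1 ∧ b.1.2 < L.1 ∧ b.1.1 ≠ b.1.2 ∧ 0 < b.2) ∧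
    L.2.Pairwise fun b b' => b.1 ≠ b'.1 ∧ b.1 ≠ (b'.1.2, b'.1.1)

/-- `q` is a configuration of the linkage `L` in `ℝ^d`: the bars have the right lengths, and two
different bars meet only at shared endpoints. (The coordinates `q i` for `i ≥ N`, which do not
belong to vertices of `L`, are set to `0`.) -/
def IsConfig (d : ℕ) (L : Linkage) (q : ℕ → EuclideanSpace ℝ (Fin d)) : Prop :=
  (∀ i, L.1 ≤ i → q i = 0) ∧ (∀ b ∈ L.2, dist (q b.1.1) (q b.1.2) = (b.2 : ℝ)) ∧
    ∀ b ∈ L.2, ∀ b' ∈ L.2, b ≠ b' → ∀ x, x ∈ segment ℝ (q b.1.1) (q b.1.2) →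
      x ∈ segment ℝ (q b'.1.1) (q b'.1.2) →
      ∃ k, (k = b.1.1 ∨ k = b.1.2) ∧ (k = b'.1.1 ∨ k = b'.1.2) ∧ x = q k

/-- The configuration space. -/
def Space (d : ℕ) (L : Linkage) : Set (ℕ → EuclideanSpace ℝ (Fin d)) := {q | IsConfig d L q}

/-- `a` and `b` are joined by a bar. -/
def Adj (L : Linkage) (a b : ℕ) : Prop := ∃ l : ℚ, ((a, b), l) ∈ L.2 ∨ ((b, a), l) ∈ L.2

/-- `c 0, c 1, ..., c (k-1)` (continued periodically) is a cycle of the graph of `L`. -/
def IsCycle (L : Linkage) (k : ℕ) (c : ℕ → ℕ) : Prop :=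
  3 ≤ k ∧ (∀ i, c (i + k) = c i) ∧ (∀ i < k, ∀ j < k, c i = c j → i = j) ∧ ∀ i, Adj L (c i) (c (i + 1))

/-- Twice the signed area enclosed by the cycle in the configuration `q`. -/
noncomputable def area (q : ℕ → EuclideanSpace ℝ (Fin 2)) (k : ℕ) (c : ℕ → ℕ) : ℝ :=
  ∑ i ∈ range k, (q (c i) 0 * q (c (i + 1)) 1 - q (c (i + 1)) 0 * q (c i) 1)

/-- The two configurations give every cycle the same orientation. -/
def SameOrientation (L : Linkage) (q q' : ℕ → EuclideanSpace ℝ (Fin 2)) : Prop :=
  ∀ k c, IsCycle L k c → (0 < area q k c ↔ 0 < area q' k c)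

/-- A linkage is locked in the plane: some two configurations that give every cycle the same
orientation cannot be joined by a motion. -/
def LockedPlane (L : Linkage) : Prop :=
  ∃ q q', IsConfig 2 L q ∧ IsConfig 2 L q' ∧ SameOrientation L q q' ∧ ¬ JoinedIn (Space 2 L) q q'

/-- A linkage is locked in three-dimensional space: the configuration space is disconnected. -/
def LockedSpace (L : Linkage) : Prop := ¬ IsPreconnected (Space 3 L)

/-- The decision problem: given `d ∈ {2,3}` and a linkage, is it locked in `ℝ^d`? -/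
def Locked (x : ℕ × Linkage) : Prop :=
  Valid x.2 ∧ ((x.1 = 2 ∧ LockedPlane x.2) ∨ (x.1 = 3 ∧ LockedSpace x.2))

/-- Cross product of the vectors from `q v` to `q x` and to `q y`. -/
noncomputable def det (q : ℕ → EuclideanSpace ℝ (Fin 2)) (v x y : ℕ) : ℝ :=
  (q x 0 - q v 0) * (q y 1 - q v 1) - (q y 0 - q v 0) * (q x 1 - q v 1)

/-- The directions from `q v` to `q a`, `q b`, `q c` are in counterclockwise order (for three
different directions this means that at least two of the cross products are positive). -/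
def Ccw (q : ℕ → EuclideanSpace ℝ (Fin 2)) (v a b c : ℕ) : Prop :=
  (0 < det q v a b ∧ 0 < det q v b c) ∨ (0 < det q v b c ∧ 0 < det q v c a) ∨
    (0 < det q v c a ∧ 0 < det q v a b)

/-- The two configurations have the same cyclic order of the bars around every vertex. -/
def SameRotation (L : Linkage) (q q' : ℕ → EuclideanSpace ℝ (Fin 2)) : Prop :=
  ∀ v a b c, Adj L v a → Adj L v b → Adj L v c → a ≠ b → b ≠ c → a ≠ c →
    (Ccw q v a b c ↔ Ccw q' v a b c)

/-- Locked in the plane, with the plane embedding fixed: two configurations with the same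
orientation of every cycle and the same cyclic order of the bars around every vertex cannot be
joined by a motion. -/
def LockedEmb (L : Linkage) : Prop :=
  ∃ q q', IsConfig 2 L q ∧ IsConfig 2 L q' ∧ SameOrientation L q q' ∧ SameRotation L q q' ∧
    ¬ JoinedIn (Space 2 L) q q'

/-- The bars of the frame used in the hardness proof. Its vertices are `p = 0`, `w = n + 1`,
`Z = n + 2`, `u = n + 3`, `v = n + 4`; its bars are `u p`, `p v` (length `V`), `Z u`, `Z v`
(length `U`), `Z p` (length `z`), `u w` (length `b₁`) and `w v` (length `b₂`). -/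
def frame (n : ℕ) (V z U b₁ b₂ : ℚ) : List ((ℕ × ℕ) × ℚ) :=
  [((n + 3, 0), V), ((0, n + 4), V), ((n + 2, n + 3), U), ((n + 2, 0), z), ((n + 2, n + 4), U),
    ((n + 3, n + 1), b₁), ((n + 1, n + 4), b₂)]

/-- The linkages of the hardness proof: the frame (seven bars), together with a chain of `n + 1`
bars with vertices `0, 1, ..., n + 1` (and lengths `a 0, ..., a n`) from `p` to `w`. -/
def lk (n : ℕ) (a : ℕ → ℚ) (V z U b₁ b₂ : ℚ) : Linkage :=
  (n + 5, ((List.range (n + 1)).map fun j => ((j, j + 1), a j)) ++ frame n V z U b₁ b₂)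

end Pool.Agent.TH668.Link
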