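import Pool.Agent.TH668.Link.Inst

/-!
# The frame is rigid
-/

set_option autoImplicit false

namespace Pool.Agent.TH668.Link

open Finset

variable {n : ℕ} {al : ℕ → ℕ} {M H D V z : ℝ} {a : ℕ → ℚ} {V' z' U b1 b2 : ℚ}

theorem mem_chain {j : ℕ} (hj : j ≤ n) : ((j, j + 1), a j) ∈ (lk n a V' z' U b1 b2).2 := by
  simp only [lk, List.mem_append, List.mem_map, List.mem_range]
  exact Or.inl ⟨j, by omega, rfl⟩

theorem mem_f1 : ((n + 3, 0), V') ∈ (lk n a V' z' U b1 b2).2 := by simp [lk, frame]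
theorem mem_f2 : ((0, n + 4), V') ∈ (lk n a V' z' U b1 b2).2 := by simp [lk, frame]
theorem mem_f3 : ((n + 2, n + 3), U) ∈ (lk n a V' z' U b1 b2).2 := by simp [lk, frame]
theorem mem_f4 : ((n + 2, 0), z') ∈ (lk n a V' z' U b1 b2).2 := by simp [lk, frame]
theorem mem_f5 : ((n + 2, n + 4), U) ∈ (lk n a V' z' U b1 b2).2 := by simp [lk, frame]
theorem mem_f6 : ((n + 3, n + 1), b1) ∈ (lk n a V' z' U b1 b2).2 := by simp [lk, frame]
theorem mem_f7 : ((n + 1, n + 4), b2) ∈ (lk n a V' z' U b1 b2).2 := by simp [lk, frame]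

theorem sq_add_sq_zero {x y : ℝ} (h : x ^ 2 + y ^ 2 = 0) : x = 0 ∧ y = 0 := by
  have hx := sq_nonneg x
  have hy := sq_nonneg y
  exact ⟨pow_eq_zero_iff two_ne_zero |>.1 (by linarith),
    pow_eq_zero_iff two_ne_zero |>.1 (by linarith)⟩

theorem alg1 {V z u0 u1 v0 v1 Z0 Z1 : ℝ} (hz : 0 < z) (f1 : u0 ^ 2 + u1 ^ 2 = V ^ 2)
    (f2 : v0 ^ 2 + v1 ^ 2 = V ^ 2) (f4 : Z0 ^ 2 + Z1 ^ 2 = z ^ 2) (f3 : Z0 * u0 + Z1 * u1 = 0)
    (f5 : Z0 * v0 + Z1 * v1 = 0) : (u0 = v0 ∧ u1 = v1) ∨ (u0 = -v0 ∧ u1 = -v1) := by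
  have hcr : u0 * v1 - u1 * v0 = 0 := by
    have h1 : (u0 * v1 - u1 * v0) * Z0 = 0 := by linear_combination v1 * f3 - u1 * f5
    have h2 : (u0 * v1 - u1 * v0) * Z1 = 0 := by linear_combination u0 * f5 - v0 * f3
    by_contra hne
    have h3 := (mul_eq_zero.1 h1).resolve_left hne
    have h4 := (mul_eq_zero.1 h2).resolve_left hne
    have h5 : z ^ 2 = 0 := by rw [← f4, h3, h4]; ring
    exact absurd h5 (by positivity)
  have h5 : (u0 * v0 + u1 * v1) ^ 2 = V ^ 2 * V ^ 2 := by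
    have : (u0 * v0 + u1 * v1) ^ 2 + (u0 * v1 - u1 * v0) ^ 2 =
      (u0 ^ 2 + u1 ^ 2) * (v0 ^ 2 + v1 ^ 2) := by ring
    rw [f1, f2, hcr] at this
    linarith
  have h6 : (u0 * v0 + u1 * v1 - V ^ 2) * (u0 * v0 + u1 * v1 + V ^ 2) = 0 := by
    linear_combination h5
  rcases mul_eq_zero.1 h6 with h | h
  · left
    have h7 : (u0 - v0) ^ 2 + (u1 - v1) ^ 2 = 0 := by linear_combination f1 + f2 - 2 * h
    obtain ⟨h8, h9⟩ := sq_add_sq_zero h7
    exact ⟨by linarith, by linarith⟩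
  · right
    have h7 : (u0 + v0) ^ 2 + (u1 + v1) ^ 2 = 0 := by linear_combination f1 + f2 + 2 * h
    obtain ⟨h8, h9⟩ := sq_add_sq_zero h7
    exact ⟨by linarith, by linarith⟩

theorem alg2 {V z v0 v1 Z0 Z1 : ℝ} (hV : 0 < V) (hz : 0 < z) (f2 : v0 ^ 2 + v1 ^ 2 = V ^ 2)
    (f4 : Z0 ^ 2 + Z1 ^ 2 = z ^ 2) (f5 : Z0 * v0 + Z1 * v1 = 0) :
    ∃ c s η : ℝ, c ^ 2 + s ^ 2 = 1 ∧ (η = 1 ∨ η = -1) ∧ v0 = c * V ∧ v1 = s * V ∧
      Z0 = η * s * z ∧ Z1 = -(η * c * z) := by
  obtain ⟨c, hc⟩ : ∃ c, c = v0 / V := ⟨_, rfl⟩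
  obtain ⟨s, hs⟩ : ∃ s, s = v1 / V := ⟨_, rfl⟩
  have hcV : v0 = c * V := by rw [hc]; field_simp
  have hsV : v1 = s * V := by rw [hs]; field_simp
  have hcs : c ^ 2 + s ^ 2 = 1 := by
    rw [hcV, hsV] at f2
    have : (c ^ 2 + s ^ 2 - 1) * V ^ 2 = 0 := by linear_combination f2
    rcases mul_eq_zero.1 this with h | h
    · linarith
    · exact absurd h (by positivity)
  obtain ⟨η, hη⟩ : ∃ η, η = (s * Z0 - c * Z1) / z := ⟨_, rfl⟩
  have hηz : s * Z0 - c * Z1 = η * z := by rw [hη]; field_simp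
  have hort : c * Z0 + s * Z1 = 0 := by
    rw [hcV, hsV] at f5
    have : (c * Z0 + s * Z1) * V = 0 := by linear_combination f5
    rcases mul_eq_zero.1 this with h | h
    · exact h
    · exact absurd h hV.ne'
  have hη2 : η ^ 2 = 1 := by
    have h1 : (η * z) ^ 2 = z ^ 2 := by
      rw [← hηz, ← f4]
      linear_combination (-(c * Z0 + s * Z1)) * hort + (Z0 ^ 2 + Z1 ^ 2) * hcs
    have : (η ^ 2 - 1) * z ^ 2 = 0 := by linear_combination h1
    rcases mul_eq_zero.1 this with h | h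
    · linarith
    · exact absurd h (by positivity)
  have hη1 : η = 1 ∨ η = -1 := by
    have : (η - 1) * (η + 1) = 0 := by linear_combination hη2
    rcases mul_eq_zero.1 this with h | h
    · left; linarith
    · right; linarith
  refine ⟨c, s, η, hcs, hη1, hcV, hsV, ?_, ?_⟩
  · linear_combination s * hηz + c * hort - Z0 * hcs
  · linear_combination (-c) * hηz + s * hort - Z1 * hcs

/-- Every configuration is congruent to one whose frame is in standard position. -/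
theorem normal_form (g : Geo n al M H D V z a V' z' U b1 b2) {q : ℕ → E2}
    (hq : IsConfig 2 (lk n a V' z' U b1 b2) q) :
    ∃ (c s p p' η : ℝ) (X Y : ℕ → ℝ), c ^ 2 + s ^ 2 = 1 ∧ (η = 1 ∨ η = -1) ∧
      q = place (n + 5) c s p p' η X Y ∧ CC (lk n a V' z' U b1 b2) X Y ∧ Fr n H D V z X Y := by
  obtain ⟨hq0, hq1, hq2⟩ := hq
  have hV := g.V_pos
  have hz := g.z_pos
  have hH := g.hH
  have hV0 : (0 : ℝ) < V' := by rw [g.hV']; exact hV
  have hz0 : (0 : ℝ) < z' := by rw [g.hz']; exact hz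
  have hU0 : (0 : ℝ) < U := by exact_mod_cast g.hU0
  have hb10 : (0 : ℝ) < b1 := by exact_mod_cast g.hb10
  have hb20 : (0 : ℝ) < b2 := by exact_mod_cast g.hb20
  have e1 := (dist_eq_iff hV0).1 (hq1 _ mem_f1)
  have e2 := (dist_eq_iff hV0).1 (hq1 _ mem_f2)
  have e3 := (dist_eq_iff hU0).1 (hq1 _ mem_f3)
  have e4 := (dist_eq_iff hz0).1 (hq1 _ mem_f4)
  have e5 := (dist_eq_iff hU0).1 (hq1 _ mem_f5)
  simp only at e1 e2 e3 e4 e5
  rw [g.hV'] at e1 e2
  rw [g.hz'] at e4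
  rw [g.hU] at e3 e5
  have f2 : (q (n + 4) 0 - q 0 0) ^ 2 + (q (n + 4) 1 - q 0 1) ^ 2 = V ^ 2 := by
    rw [← e2]; ring
  have f5 : (q (n + 2) 0 - q 0 0) * (q (n + 4) 0 - q 0 0) +
      (q (n + 2) 1 - q 0 1) * (q (n + 4) 1 - q 0 1) = 0 := by
    linear_combination (f2 + e4 - e5) / 2
  have f3 : (q (n + 2) 0 - q 0 0) * (q (n + 3) 0 - q 0 0) +
      (q (n + 2) 1 - q 0 1) * (q (n + 3) 1 - q 0 1) = 0 := by
    linear_combination (e1 + e4 - e3) / 2
  -- `u - p = -(v - p)`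
  have huv : q (n + 3) 0 - q 0 0 = -(q (n + 4) 0 - q 0 0) ∧
      q (n + 3) 1 - q 0 1 = -(q (n + 4) 1 - q 0 1) := by
    rcases alg1 hz e1 f2 e4 f3 f5 with ⟨h8, h9⟩ | h
    · -- `u = v` is impossible
      exfalso
      obtain ⟨k, hk, hk', hx⟩ := hq2 _ (mem_f1 (n := n) (a := a)) _ mem_f2
        (by simp) (q (n + 3))
        (left_mem_segment ℝ _ _) (by
          have : q (n + 3) = q (n + 4) := E2_ext (by linarith) (by linarith)
          rw [this]
          exact right_mem_segment ℝ _ _)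
      simp only at hk hk'
      have hk0 : k = 0 := by omega
      rw [hk0] at hx
      rw [hx] at e1
      have h10 : V ^ 2 = 0 := by rw [← e1]; ring
      exact absurd h10 (by positivity)
    · exact h
  -- the rotation
  obtain ⟨c, s, η, hcs, hη1, hcV, hsV, hZ0, hZ1⟩ := alg2 hV hz f2 e4 f5
  have hη2 : η ^ 2 = 1 := by rcases hη1 with rfl | rfl <;> norm_num
  have hqp := eq_place (N := n + 5) (p := q 0 0) (p' := q 0 1) hq0 hcs hη2
  have hcc : CC (lk n a V' z' U b1 b2) (fun i => c * (q i 0 - q 0 0) + s * (q i 1 - q 0 1))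
      (fun i => η * (-s * (q i 0 - q 0 0) + c * (q i 1 - q 0 1))) := by
    rw [← place_iff (p := q 0 0) (p' := q 0 1) g.valid hcs hη2]
    have : (lk n a V' z' U b1 b2).1 = n + 5 := rfl
    rw [this, hqp]
    exact ⟨hq0, hq1, hq2⟩
  refine ⟨c, s, q 0 0, q 0 1, η, _, _, hcs, hη1, hqp.symm, hcc, ?_⟩
  have hF0 : (fun i => c * (q i 0 - q 0 0) + s * (q i 1 - q 0 1)) 0 = 0 ∧
      (fun i => η * (-s * (q i 0 - q 0 0) + c * (q i 1 - q 0 1))) 0 = 0 := by
    constructor <;> simp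
  have hF4 : (fun i => c * (q i 0 - q 0 0) + s * (q i 1 - q 0 1)) (n + 4) = V ∧
      (fun i => η * (-s * (q i 0 - q 0 0) + c * (q i 1 - q 0 1))) (n + 4) = 0 := by
    simp only
    rw [hcV, hsV]
    constructor
    · linear_combination V * hcs
    · ring
  have hF3 : (fun i => c * (q i 0 - q 0 0) + s * (q i 1 - q 0 1)) (n + 3) = -V ∧
      (fun i => η * (-s * (q i 0 - q 0 0) + c * (q i 1 - q 0 1))) (n + 3) = 0 := by
    simp only
    rw [huv.1, huv.2, hcV, hsV]
    constructor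
    · linear_combination -V * hcs
    · ring
  have hF2 : (fun i => c * (q i 0 - q 0 0) + s * (q i 1 - q 0 1)) (n + 2) = 0 ∧
      (fun i => η * (-s * (q i 0 - q 0 0) + c * (q i 1 - q 0 1))) (n + 2) = -z := by
    simp only
    rw [hZ0, hZ1]
    constructor
    · ring
    · linear_combination (-(η ^ 2 * z)) * hcs - z * hη2
  generalize (fun i => c * (q i 0 - q 0 0) + s * (q i 1 - q 0 1)) = X at *
  generalize (fun i => η * (-s * (q i 0 - q 0 0) + c * (q i 1 - q 0 1))) = Y at *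
  have hF1 : X (n + 1) = D ∧ Y (n + 1) = H := by
    have e6' := hcc.1 _ mem_f6
    have e7' := hcc.1 _ mem_f7
    simp only at e6' e7'
    rw [g.hb1, hF3.1, hF3.2] at e6'
    rw [g.hb2, hF4.1, hF4.2] at e7'
    have hXw : X (n + 1) = D := by
      have : V * (X (n + 1) - D) = 0 := by linear_combination (e6' - e7') / 4
      rcases mul_eq_zero.1 this with h | h
      · exact absurd h hV.ne'
      · linarith
    refine ⟨hXw, ?_⟩
    rw [hXw] at e6'
    have hYw : (Y (n + 1) - H) * (Y (n + 1) + H) = 0 := by linear_combination e6'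
    rcases mul_eq_zero.1 hYw with h | h
    · linarith
    · -- the bar `u w` would cross the bar `Z p`
      exfalso
      have hYw' : Y (n + 1) = -H := by linarith
      have hD := g.D_pos
      have hz3 := g.hz
      have hVD : 0 < V + D := by linarith
      have ht : H * V / (V + D) ≤ z := by
        rw [div_le_iff₀ hVD]
        have h1 : H * V ≤ z * V := mul_le_mul_of_nonneg_right (by linarith) hV.le
        have h2 : 0 ≤ z * D := mul_nonneg hz.le hD.le
        linarith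
      obtain ⟨k, hk, hk', -, -⟩ := hcc.2 _ mem_f6 _ mem_f4 (by simp) (V / (V + D))
        (1 - H * V / (V + D) / z) (by positivity) (by rw [div_le_one hVD]; linarith)
        (by
          have : H * V / (V + D) / z ≤ 1 := by rw [div_le_one hz]; exact ht
          linarith)
        (by
          have : 0 ≤ H * V / (V + D) / z := by positivity
          linarith)
        (by
          simp only
          rw [hF3.1, hXw, hF2.1, hF0.1]
          field_simp
          ring)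
        (by
          simp only
          rw [hF3.2, hYw', hF2.2, hF0.2]
          field_simp
          ring)
      simp only at hk hk'
      omega
  exact ⟨hF0, hF1, hF2, hF3, hF4⟩

end Pool.Agent.TH668.Link
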