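import Pool.Agent.TH668.Link.Pattern

/-!
# Building configurations
-/

set_option autoImplicit false
set_option linter.unusedSimpArgs false
set_option linter.unusedVariables false

namespace Pool.Agent.TH668.Link

open Finset

variable {n : ℕ} {al : ℕ → ℕ} {M H D V z : ℝ} {a : ℕ → ℚ} {V' z' U b1 b2 : ℚ} {X Y : ℕ → ℝ}

/-- two bars meet only at shared endpoints -/
def NC (X Y : ℕ → ℝ) (b b' : (ℕ × ℕ) × ℚ) : Prop :=
  ∀ s t : ℝ, 0 ≤ s → s ≤ 1 → 0 ≤ t → t ≤ 1 →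
    X b.1.1 + s * (X b.1.2 - X b.1.1) = X b'.1.1 + t * (X b'.1.2 - X b'.1.1) →
    Y b.1.1 + s * (Y b.1.2 - Y b.1.1) = Y b'.1.1 + t * (Y b'.1.2 - Y b'.1.1) →
    ∃ k, (k = b.1.1 ∨ k = b.1.2) ∧ (k = b'.1.1 ∨ k = b'.1.2) ∧
      X b.1.1 + s * (X b.1.2 - X b.1.1) = X k ∧ Y b.1.1 + s * (Y b.1.2 - Y b.1.1) = Y k

instance NC.symm : Std.Symm (NC X Y) := by
  constructor
  intro b b' h s t hs hs' ht ht' hX hY
  obtain ⟨k, hk, hk', h1, h2⟩ := h t s ht ht' hs hs' hX.symm hY.symm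
  exact ⟨k, hk', hk, hX.trans h1, hY.trans h2⟩

theorem mz {c x : ℝ} (hc : 0 < c) (h : c * x = 0) : x = 0 :=
  (mul_eq_zero.1 h).resolve_left hc.ne'

theorem mz2 {c x d y : ℝ} (hc : 0 < c) (hx : 0 ≤ x) (hd : 0 < d) (hy : 0 ≤ y)
    (h : c * x + d * y = 0) : x = 0 ∧ y = 0 := by
  have h1 : 0 ≤ c * x := mul_nonneg hc.le hx
  have h2 : 0 ≤ d * y := mul_nonneg hd.le hy
  exact ⟨mz hc (by linarith), mz hd (by linarith)⟩

theorem nc12 (hV : 0 < V) (hz : 0 < z) (hH : 0 < H) (hF : Fr n H D V z X Y) (l l' : ℚ) :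
    NC X Y ((n + 3, 0), l) ((0, n + 4), l') := by
  obtain ⟨⟨x0, y0⟩, ⟨xw, yw⟩, ⟨xZ, yZ⟩, ⟨xu, yu⟩, ⟨xv, yv⟩⟩ := hF
  intro s t hs hs' ht ht' hX hY
  simp only [x0, y0, xw, yw, xZ, yZ, xu, yu, xv, yv] at hX hY
  have e1 := mz (x := s - 1 - t) hV (by linear_combination hX)
  have e2 : s = 1 := by linarith
  have e3 : t = 0 := by linarith
  refine ⟨0, by simp, by simp, ?_, ?_⟩
  · simp only [x0, y0, xw, yw, xZ, yZ, xu, yu, xv, yv]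
    rw [e2]; ring
  · simp only [x0, y0, xw, yw, xZ, yZ, xu, yu, xv, yv]
    rw [e2]; ring

theorem nc13 (hV : 0 < V) (hz : 0 < z) (hH : 0 < H) (hF : Fr n H D V z X Y) (l l' : ℚ) :
    NC X Y ((n + 3, 0), l) ((n + 2, n + 3), l') := by
  obtain ⟨⟨x0, y0⟩, ⟨xw, yw⟩, ⟨xZ, yZ⟩, ⟨xu, yu⟩, ⟨xv, yv⟩⟩ := hF
  intro s t hs hs' ht ht' hX hY
  simp only [x0, y0, xw, yw, xZ, yZ, xu, yu, xv, yv] at hX hY
  have e1 := mz (x := 1 - t) hz (by linear_combination hY)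
  have e3 : t = 1 := by linarith
  have e2 := mz (x := s) hV (by linear_combination hX + V * e1)
  refine ⟨n + 3, by simp, by simp, ?_, ?_⟩
  · simp only [x0, y0, xw, yw, xZ, yZ, xu, yu, xv, yv]
    rw [e2]; ring
  · simp only [x0, y0, xw, yw, xZ, yZ, xu, yu, xv, yv]
    rw [e2]; ring

theorem nc14 (hV : 0 < V) (hz : 0 < z) (hH : 0 < H) (hF : Fr n H D V z X Y) (l l' : ℚ) :
    NC X Y ((n + 3, 0), l) ((n + 2, 0), l') := by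
  obtain ⟨⟨x0, y0⟩, ⟨xw, yw⟩, ⟨xZ, yZ⟩, ⟨xu, yu⟩, ⟨xv, yv⟩⟩ := hF
  intro s t hs hs' ht ht' hX hY
  simp only [x0, y0, xw, yw, xZ, yZ, xu, yu, xv, yv] at hX hY
  have e1 := mz (x := 1 - t) hz (by linear_combination hY)
  have e2' := mz (x := 1 - s) hV (by linear_combination -hX)
  have e2 : s = 1 := by linarith
  refine ⟨0, by simp, by simp, ?_, ?_⟩
  · simp only [x0, y0, xw, yw, xZ, yZ, xu, yu, xv, yv]
    rw [e2]; ring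
  · simp only [x0, y0, xw, yw, xZ, yZ, xu, yu, xv, yv]
    rw [e2]; ring

theorem nc15 (hV : 0 < V) (hz : 0 < z) (hH : 0 < H) (hF : Fr n H D V z X Y) (l l' : ℚ) :
    NC X Y ((n + 3, 0), l) ((n + 2, n + 4), l') := by
  obtain ⟨⟨x0, y0⟩, ⟨xw, yw⟩, ⟨xZ, yZ⟩, ⟨xu, yu⟩, ⟨xv, yv⟩⟩ := hF
  intro s t hs hs' ht ht' hX hY
  simp only [x0, y0, xw, yw, xZ, yZ, xu, yu, xv, yv] at hX hY
  have e1 := mz (x := 1 - t) hz (by linear_combination hY)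
  have e2 := mz (x := s - 1 - t) hV (by linear_combination hX)
  exfalso
  linarith

theorem nc16 (hV : 0 < V) (hz : 0 < z) (hH : 0 < H) (hF : Fr n H D V z X Y) (l l' : ℚ) :
    NC X Y ((n + 3, 0), l) ((n + 3, n + 1), l') := by
  obtain ⟨⟨x0, y0⟩, ⟨xw, yw⟩, ⟨xZ, yZ⟩, ⟨xu, yu⟩, ⟨xv, yv⟩⟩ := hF
  intro s t hs hs' ht ht' hX hY
  simp only [x0, y0, xw, yw, xZ, yZ, xu, yu, xv, yv] at hX hY
  have e1 := mz (x := t) hH (by linear_combination -hY)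
  have e2 := mz (x := s) hV (by linear_combination hX + (D + V) * e1)
  refine ⟨n + 3, by simp, by simp, ?_, ?_⟩
  · simp only [x0, y0, xw, yw, xZ, yZ, xu, yu, xv, yv]
    rw [e2]; ring
  · simp only [x0, y0, xw, yw, xZ, yZ, xu, yu, xv, yv]
    rw [e2]; ring

theorem nc17 (hV : 0 < V) (hz : 0 < z) (hH : 0 < H) (hF : Fr n H D V z X Y) (l l' : ℚ) :
    NC X Y ((n + 3, 0), l) ((n + 1, n + 4), l') := by
  obtain ⟨⟨x0, y0⟩, ⟨xw, yw⟩, ⟨xZ, yZ⟩, ⟨xu, yu⟩, ⟨xv, yv⟩⟩ := hF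
  intro s t hs hs' ht ht' hX hY
  simp only [x0, y0, xw, yw, xZ, yZ, xu, yu, xv, yv] at hX hY
  have e1 := mz (x := 1 - t) hH (by linear_combination -hY)
  have e2 := mz (x := s - 2) hV (by linear_combination hX - (V - D) * e1)
  exfalso
  linarith

theorem nc23 (hV : 0 < V) (hz : 0 < z) (hH : 0 < H) (hF : Fr n H D V z X Y) (l l' : ℚ) :
    NC X Y ((0, n + 4), l) ((n + 2, n + 3), l') := by
  obtain ⟨⟨x0, y0⟩, ⟨xw, yw⟩, ⟨xZ, yZ⟩, ⟨xu, yu⟩, ⟨xv, yv⟩⟩ := hF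
  intro s t hs hs' ht ht' hX hY
  simp only [x0, y0, xw, yw, xZ, yZ, xu, yu, xv, yv] at hX hY
  have e1 := mz (x := 1 - t) hz (by linear_combination hY)
  have e2 := mz (x := s + t) hV (by linear_combination hX)
  exfalso
  linarith

theorem nc24 (hV : 0 < V) (hz : 0 < z) (hH : 0 < H) (hF : Fr n H D V z X Y) (l l' : ℚ) :
    NC X Y ((0, n + 4), l) ((n + 2, 0), l') := by
  obtain ⟨⟨x0, y0⟩, ⟨xw, yw⟩, ⟨xZ, yZ⟩, ⟨xu, yu⟩, ⟨xv, yv⟩⟩ := hF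
  intro s t hs hs' ht ht' hX hY
  simp only [x0, y0, xw, yw, xZ, yZ, xu, yu, xv, yv] at hX hY
  have e1 := mz (x := s) hV (by linear_combination hX)
  refine ⟨0, by simp, by simp, ?_, ?_⟩
  · simp only [x0, y0, xw, yw, xZ, yZ, xu, yu, xv, yv]
    rw [e1]; ring
  · simp only [x0, y0, xw, yw, xZ, yZ, xu, yu, xv, yv]
    rw [e1]; ring

theorem nc25 (hV : 0 < V) (hz : 0 < z) (hH : 0 < H) (hF : Fr n H D V z X Y) (l l' : ℚ) :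
    NC X Y ((0, n + 4), l) ((n + 2, n + 4), l') := by
  obtain ⟨⟨x0, y0⟩, ⟨xw, yw⟩, ⟨xZ, yZ⟩, ⟨xu, yu⟩, ⟨xv, yv⟩⟩ := hF
  intro s t hs hs' ht ht' hX hY
  simp only [x0, y0, xw, yw, xZ, yZ, xu, yu, xv, yv] at hX hY
  have e1 := mz (x := 1 - t) hz (by linear_combination hY)
  have e2' := mz (x := s - t) hV (by linear_combination hX)
  have e2 : s = 1 := by linarith
  refine ⟨n + 4, by simp, by simp, ?_, ?_⟩
  · simp only [x0, y0, xw, yw, xZ, yZ, xu, yu, xv, yv]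
    rw [e2]; ring
  · simp only [x0, y0, xw, yw, xZ, yZ, xu, yu, xv, yv]
    rw [e2]; ring

theorem nc26 (hV : 0 < V) (hz : 0 < z) (hH : 0 < H) (hF : Fr n H D V z X Y) (l l' : ℚ) :
    NC X Y ((0, n + 4), l) ((n + 3, n + 1), l') := by
  obtain ⟨⟨x0, y0⟩, ⟨xw, yw⟩, ⟨xZ, yZ⟩, ⟨xu, yu⟩, ⟨xv, yv⟩⟩ := hF
  intro s t hs hs' ht ht' hX hY
  simp only [x0, y0, xw, yw, xZ, yZ, xu, yu, xv, yv] at hX hY
  have e1 := mz (x := t) hH (by linear_combination -hY)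
  have e2 := mz (x := s + 1) hV (by linear_combination hX + (D + V) * e1)
  exfalso
  linarith

theorem nc27 (hV : 0 < V) (hz : 0 < z) (hH : 0 < H) (hF : Fr n H D V z X Y) (l l' : ℚ) :
    NC X Y ((0, n + 4), l) ((n + 1, n + 4), l') := by
  obtain ⟨⟨x0, y0⟩, ⟨xw, yw⟩, ⟨xZ, yZ⟩, ⟨xu, yu⟩, ⟨xv, yv⟩⟩ := hF
  intro s t hs hs' ht ht' hX hY
  simp only [x0, y0, xw, yw, xZ, yZ, xu, yu, xv, yv] at hX hY
  have e1 := mz (x := 1 - t) hH (by linear_combination -hY)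
  have e2' := mz (x := s - 1) hV (by linear_combination hX - (V - D) * e1)
  have e2 : s = 1 := by linarith
  refine ⟨n + 4, by simp, by simp, ?_, ?_⟩
  · simp only [x0, y0, xw, yw, xZ, yZ, xu, yu, xv, yv]
    rw [e2]; ring
  · simp only [x0, y0, xw, yw, xZ, yZ, xu, yu, xv, yv]
    rw [e2]; ring

theorem nc34 (hV : 0 < V) (hz : 0 < z) (hH : 0 < H) (hF : Fr n H D V z X Y) (l l' : ℚ) :
    NC X Y ((n + 2, n + 3), l) ((n + 2, 0), l') := by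
  obtain ⟨⟨x0, y0⟩, ⟨xw, yw⟩, ⟨xZ, yZ⟩, ⟨xu, yu⟩, ⟨xv, yv⟩⟩ := hF
  intro s t hs hs' ht ht' hX hY
  simp only [x0, y0, xw, yw, xZ, yZ, xu, yu, xv, yv] at hX hY
  have e1 := mz (x := s) hV (by linear_combination -hX)
  refine ⟨n + 2, by simp, by simp, ?_, ?_⟩
  · simp only [x0, y0, xw, yw, xZ, yZ, xu, yu, xv, yv]
    rw [e1]; ring
  · simp only [x0, y0, xw, yw, xZ, yZ, xu, yu, xv, yv]
    rw [e1]; ring

theorem nc35 (hV : 0 < V) (hz : 0 < z) (hH : 0 < H) (hF : Fr n H D V z X Y) (l l' : ℚ) :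
    NC X Y ((n + 2, n + 3), l) ((n + 2, n + 4), l') := by
  obtain ⟨⟨x0, y0⟩, ⟨xw, yw⟩, ⟨xZ, yZ⟩, ⟨xu, yu⟩, ⟨xv, yv⟩⟩ := hF
  intro s t hs hs' ht ht' hX hY
  simp only [x0, y0, xw, yw, xZ, yZ, xu, yu, xv, yv] at hX hY
  have e1 := mz (x := s + t) hV (by linear_combination -hX)
  have e2 : s = 0 := by linarith
  refine ⟨n + 2, by simp, by simp, ?_, ?_⟩
  · simp only [x0, y0, xw, yw, xZ, yZ, xu, yu, xv, yv]
    rw [e2]; ring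
  · simp only [x0, y0, xw, yw, xZ, yZ, xu, yu, xv, yv]
    rw [e2]; ring

theorem nc36 (hV : 0 < V) (hz : 0 < z) (hH : 0 < H) (hF : Fr n H D V z X Y) (l l' : ℚ) :
    NC X Y ((n + 2, n + 3), l) ((n + 3, n + 1), l') := by
  obtain ⟨⟨x0, y0⟩, ⟨xw, yw⟩, ⟨xZ, yZ⟩, ⟨xu, yu⟩, ⟨xv, yv⟩⟩ := hF
  intro s t hs hs' ht ht' hX hY
  simp only [x0, y0, xw, yw, xZ, yZ, xu, yu, xv, yv] at hX hY
  obtain ⟨e1, e3⟩ := mz2 hz (x := 1 - s) (by linarith) hH ht (by linear_combination -hY)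
  have e2 : s = 1 := by linarith
  refine ⟨n + 3, by simp, by simp, ?_, ?_⟩
  · simp only [x0, y0, xw, yw, xZ, yZ, xu, yu, xv, yv]
    rw [e2]; ring
  · simp only [x0, y0, xw, yw, xZ, yZ, xu, yu, xv, yv]
    rw [e2]; ring

theorem nc37 (hV : 0 < V) (hz : 0 < z) (hH : 0 < H) (hF : Fr n H D V z X Y) (l l' : ℚ) :
    NC X Y ((n + 2, n + 3), l) ((n + 1, n + 4), l') := by
  obtain ⟨⟨x0, y0⟩, ⟨xw, yw⟩, ⟨xZ, yZ⟩, ⟨xu, yu⟩, ⟨xv, yv⟩⟩ := hF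
  intro s t hs hs' ht ht' hX hY
  simp only [x0, y0, xw, yw, xZ, yZ, xu, yu, xv, yv] at hX hY
  obtain ⟨e1, e3⟩ := mz2 hz (x := 1 - s) (by linarith) hH (y := 1 - t) (by linarith) (by linear_combination -hY)
  exfalso
  have e2 : s = 1 := by linarith
  have e4 : t = 1 := by linarith
  rw [e2, e4] at hX
  linarith

theorem nc45 (hV : 0 < V) (hz : 0 < z) (hH : 0 < H) (hF : Fr n H D V z X Y) (l l' : ℚ) :
    NC X Y ((n + 2, 0), l) ((n + 2, n + 4), l') := by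
  obtain ⟨⟨x0, y0⟩, ⟨xw, yw⟩, ⟨xZ, yZ⟩, ⟨xu, yu⟩, ⟨xv, yv⟩⟩ := hF
  intro s t hs hs' ht ht' hX hY
  simp only [x0, y0, xw, yw, xZ, yZ, xu, yu, xv, yv] at hX hY
  have e1 := mz (x := t) hV (by linear_combination -hX)
  have e2 := mz (x := s) hz (by linear_combination hY + z * e1)
  refine ⟨n + 2, by simp, by simp, ?_, ?_⟩
  · simp only [x0, y0, xw, yw, xZ, yZ, xu, yu, xv, yv]
    rw [e2]; ring
  · simp only [x0, y0, xw, yw, xZ, yZ, xu, yu, xv, yv]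
    rw [e2]; ring

theorem nc46 (hV : 0 < V) (hz : 0 < z) (hH : 0 < H) (hF : Fr n H D V z X Y) (l l' : ℚ) :
    NC X Y ((n + 2, 0), l) ((n + 3, n + 1), l') := by
  obtain ⟨⟨x0, y0⟩, ⟨xw, yw⟩, ⟨xZ, yZ⟩, ⟨xu, yu⟩, ⟨xv, yv⟩⟩ := hF
  intro s t hs hs' ht ht' hX hY
  simp only [x0, y0, xw, yw, xZ, yZ, xu, yu, xv, yv] at hX hY
  obtain ⟨e1, e3⟩ := mz2 hz (x := 1 - s) (by linarith) hH ht (by linear_combination -hY)
  exfalso
  rw [e3] at hX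
  linarith

theorem nc47 (hV : 0 < V) (hz : 0 < z) (hH : 0 < H) (hF : Fr n H D V z X Y) (l l' : ℚ) :
    NC X Y ((n + 2, 0), l) ((n + 1, n + 4), l') := by
  obtain ⟨⟨x0, y0⟩, ⟨xw, yw⟩, ⟨xZ, yZ⟩, ⟨xu, yu⟩, ⟨xv, yv⟩⟩ := hF
  intro s t hs hs' ht ht' hX hY
  simp only [x0, y0, xw, yw, xZ, yZ, xu, yu, xv, yv] at hX hY
  obtain ⟨e1, e3⟩ := mz2 hz (x := 1 - s) (by linarith) hH (y := 1 - t) (by linarith) (by linear_combination -hY)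
  exfalso
  have e4 : t = 1 := by linarith
  rw [e4] at hX
  linarith

theorem nc56 (hV : 0 < V) (hz : 0 < z) (hH : 0 < H) (hF : Fr n H D V z X Y) (l l' : ℚ) :
    NC X Y ((n + 2, n + 4), l) ((n + 3, n + 1), l') := by
  obtain ⟨⟨x0, y0⟩, ⟨xw, yw⟩, ⟨xZ, yZ⟩, ⟨xu, yu⟩, ⟨xv, yv⟩⟩ := hF
  intro s t hs hs' ht ht' hX hY
  simp only [x0, y0, xw, yw, xZ, yZ, xu, yu, xv, yv] at hX hY
  obtain ⟨e1, e3⟩ := mz2 hz (x := 1 - s) (by linarith) hH ht (by linear_combination -hY)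
  exfalso
  have e2 : s = 1 := by linarith
  rw [e2, e3] at hX
  linarith

theorem nc57 (hV : 0 < V) (hz : 0 < z) (hH : 0 < H) (hF : Fr n H D V z X Y) (l l' : ℚ) :
    NC X Y ((n + 2, n + 4), l) ((n + 1, n + 4), l') := by
  obtain ⟨⟨x0, y0⟩, ⟨xw, yw⟩, ⟨xZ, yZ⟩, ⟨xu, yu⟩, ⟨xv, yv⟩⟩ := hF
  intro s t hs hs' ht ht' hX hY
  simp only [x0, y0, xw, yw, xZ, yZ, xu, yu, xv, yv] at hX hY
  obtain ⟨e1, e3⟩ := mz2 hz (x := 1 - s) (by linarith) hH (y := 1 - t) (by linarith) (by linear_combination -hY)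
  have e2 : s = 1 := by linarith
  refine ⟨n + 4, by simp, by simp, ?_, ?_⟩
  · simp only [x0, y0, xw, yw, xZ, yZ, xu, yu, xv, yv]
    rw [e2]; ring
  · simp only [x0, y0, xw, yw, xZ, yZ, xu, yu, xv, yv]
    rw [e2]; ring

theorem nc67 (hV : 0 < V) (hz : 0 < z) (hH : 0 < H) (hF : Fr n H D V z X Y) (l l' : ℚ) :
    NC X Y ((n + 3, n + 1), l) ((n + 1, n + 4), l') := by
  obtain ⟨⟨x0, y0⟩, ⟨xw, yw⟩, ⟨xZ, yZ⟩, ⟨xu, yu⟩, ⟨xv, yv⟩⟩ := hF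
  intro s t hs hs' ht ht' hX hY
  simp only [x0, y0, xw, yw, xZ, yZ, xu, yu, xv, yv] at hX hY
  have e1 := mz (x := s + t - 1) hH (by linear_combination hY)
  have e3 := mz (x := t) hV (by linear_combination (-(1/2)) * hX + (1/2) * (D + V) * e1)
  have e2 : s = 1 := by linarith
  refine ⟨n + 1, by simp, by simp, ?_, ?_⟩
  · simp only [x0, y0, xw, yw, xZ, yZ, xu, yu, xv, yv]
    rw [e2]; ring
  · simp only [x0, y0, xw, yw, xZ, yZ, xu, yu, xv, yv]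
    rw [e2]; ring


theorem frame_nc (hV : 0 < V) (hz : 0 < z) (hH : 0 < H) (hF : Fr n H D V z X Y) :
    (frame n V' z' U b1 b2).Pairwise (NC X Y) := by
  simp only [frame, List.pairwise_cons, List.mem_cons, List.not_mem_nil, or_false,
    forall_eq_or_imp, forall_eq, IsEmpty.forall_iff, implies_true, and_true, List.Pairwise.nil]
  exact ⟨⟨nc12 hV hz hH hF _ _, nc13 hV hz hH hF _ _, nc14 hV hz hH hF _ _, nc15 hV hz hH hF _ _,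
    nc16 hV hz hH hF _ _, nc17 hV hz hH hF _ _⟩,
    ⟨nc23 hV hz hH hF _ _, nc24 hV hz hH hF _ _, nc25 hV hz hH hF _ _, nc26 hV hz hH hF _ _,
    nc27 hV hz hH hF _ _⟩,
    ⟨nc34 hV hz hH hF _ _, nc35 hV hz hH hF _ _, nc36 hV hz hH hF _ _, nc37 hV hz hH hF _ _⟩,
    ⟨nc45 hV hz hH hF _ _, nc46 hV hz hH hF _ _, nc47 hV hz hH hF _ _⟩,
    ⟨nc56 hV hz hH hF _ _, nc57 hV hz hH hF _ _⟩, nc67 hV hz hH hF _ _⟩

end Pool.Agent.TH668.Link
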