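import Pool.Agent.TH668.Link.Orient

/-!
# The linkage is locked iff there is a subset with the right sum
-/

set_option autoImplicit false

namespace Pool.Agent.TH668.Link

open Finset

variable {n : ℕ} {al : ℕ → ℕ} {M H D V z : ℝ} {a : ℕ → ℚ} {V' z' U b1 b2 : ℚ} {X Y : ℕ → ℝ}

/-- scalar product which tells the direction of the last bar -/
noncomputable def sp (n : ℕ) (q : ℕ → E2) : ℝ :=
  (q (n + 1) 0 - q n 0) * (q (n + 4) 0 - q (n + 3) 0) +
    (q (n + 1) 1 - q n 1) * (q (n + 4) 1 - q (n + 3) 1)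

theorem sp_place (hF : Fr n H D V z X Y) {c s p p' η : ℝ} (hcs : c ^ 2 + s ^ 2 = 1) :
    sp n (place (n + 5) c s p p' η X Y) = (X (n + 1) - X n) * (2 * V) := by
  unfold sp
  rw [place_0 (by omega), place_0 (by omega), place_0 (by omega), place_0 (by omega),
    place_1 (by omega), place_1 (by omega), place_1 (by omega), place_1 (by omega),
    hF.2.2.2.1.1, hF.2.2.2.1.2, hF.2.2.2.2.1, hF.2.2.2.2.2]
  linear_combination (X (n + 1) - X n) * (2 * V) * hcs

theorem sp_cont : Continuous (sp n) := by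
  unfold sp
  have h : ∀ (i : ℕ) (j : Fin 2), Continuous fun q : ℕ → E2 => q i j := by
    intro i j
    exact (EuclideanSpace.proj (𝕜 := ℝ) j).continuous.comp (continuous_apply i)
  have h1 := h (n + 1) 0
  have h2 := h n 0
  have h3 := h (n + 4) 0
  have h4 := h (n + 3) 0
  have h5 := h (n + 1) 1
  have h6 := h n 1
  have h7 := h (n + 4) 1
  have h8 := h (n + 3) 1
  exact ((h1.sub h2).mul (h3.sub h4)).add ((h5.sub h6).mul (h7.sub h8))

theorem sp_ne (g : Geo n al M H D V z a V' z' U b1 b2) {q : ℕ → E2}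
    (hq : IsConfig 2 (lk n a V' z' U b1 b2) q) : sp n q ≠ 0 := by
  obtain ⟨c, s, p, p', η, X, Y, hcs, hη, rfl, hcc, hF⟩ := normal_form g hq
  rw [sp_place hF hcs]
  have h1 := (bar_x g hcc hF le_rfl).1
  have h2 := g.V_pos
  intro h
  rcases mul_eq_zero.1 h with h | h
  · exact h1 (by linarith)
  · linarith

/-- the 3-cycle `Z u p` -/
theorem tri_cycle (g : Geo n al M H D V z a V' z' U b1 b2) :
    IsCycle (lk n a V' z' U b1 b2) 3
      (fun i => if i % 3 = 0 then n + 2 else if i % 3 = 1 then n + 3 else 0) := by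
  refine ⟨le_rfl, fun i => ?_, fun i hi j hj h => ?_, fun i => ?_⟩
  · simp [Nat.add_mod_right]
  · have hn := g.hn
    interval_cases i <;> interval_cases j <;> simp at h ⊢
  · have h3 : i % 3 = 0 ∨ i % 3 = 1 ∨ i % 3 = 2 := by omega
    rcases h3 with h | h | h
    · have h' : (i + 1) % 3 = 1 := by omega
      simp only [h, h', if_true, if_false, one_ne_zero]
      exact ⟨_, Or.inl mem_f3⟩
    · have h' : (i + 1) % 3 = 2 := by omega
      simp only [h, h', if_true, if_false, one_ne_zero, OfNat.ofNat_ne_zero, OfNat.ofNat_ne_one]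
      exact ⟨_, Or.inl mem_f1⟩
    · have h' : (i + 1) % 3 = 0 := by omega
      simp only [h, h', if_true, if_false, OfNat.ofNat_ne_zero, OfNat.ofNat_ne_one]
      exact ⟨_, Or.inr mem_f4⟩

theorem ar_tri (hF : Fr n H D V z X Y) :
    ar X Y 3 (fun i => if i % 3 = 0 then n + 2 else if i % 3 = 1 then n + 3 else 0) = -(V * z) := by
  unfold ar
  rw [Finset.sum_range_succ, Finset.sum_range_succ, Finset.sum_range_one]
  simp [hF.1.1, hF.1.2, hF.2.2.1.1, hF.2.2.1.2, hF.2.2.2.1.1, hF.2.2.2.1.2]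

/-- **The linkage has a configuration.** -/
theorem exists_config (g : Geo n al M H D V z a V' z' U b1 b2) :
    ∃ q, IsConfig 2 (lk n a V' z' U b1 b2) q := by
  obtain ⟨X, Y, hF, hcc, -, -⟩ := zigzag g (fun i => i = n) (by simp)
  exact ⟨place (n + 5) 1 0 0 0 1 X Y, (place_iff g.valid (by norm_num) (by norm_num)).2 hcc⟩

/-- If there is no subset with the right sum, the linkage is not locked. -/
theorem not_locked (g : Geo n al M H D V z a V' z' U b1 b2)
    (h : ¬ ∃ J ⊆ range n, ∑ j ∈ J, al j = al n) : ¬ LockedPlane (lk n a V' z' U b1 b2) := by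
  rintro ⟨q, q', hq, hq', hor, hnj⟩
  apply hnj
  obtain ⟨c, s, p, p', η, X, Y, hcs, hη, rfl, hcc, hF⟩ := normal_form g hq
  obtain ⟨c', s', r, r', η', X', Y', hcs', hη', rfl, hcc', hF'⟩ := normal_form g hq'
  obtain ⟨h1, h2⟩ := pattern_neg g hcc hF fun h' => h (pattern_pos g hcc hF h')
  obtain ⟨h1', h2'⟩ := pattern_neg g hcc' hF' fun h' => h (pattern_pos g hcc' hF' h')
  have hVz : 0 < V * z := mul_pos g.V_pos g.z_pos
  have hηη : η = η' := by
    have h3 := hor 3 _ (tri_cycle g)
    have hN : ∀ i, (fun i => if i % 3 = 0 then n + 2 else if i % 3 = 1 then n + 3 else 0) i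
        < n + 5 := by
      intro i
      simp only
      split_ifs <;> omega
    rw [area_place hN (by simp) hcs, area_place hN (by simp) hcs', ar_tri hF, ar_tri hF'] at h3
    rcases hη with rfl | rfl <;> rcases hη' with rfl | rfl
    · rfl
    · exfalso
      have := h3.2 (by linarith)
      linarith
    · exfalso
      have := h3.1 (by linarith)
      linarith
    · rfl
  subst hηη
  have hη2 : η ^ 2 = 1 := by rcases hη with rfl | rfl <;> norm_num
  exact ((join_iso g hη2 hcs hcc).symm.trans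
    (join_std g hη2 hcc hF h1 h2 hcc' hF' h1' h2')).trans (join_iso g hη2 hcs' hcc')

/-- If there is a subset with the right sum, the linkage is locked. -/
theorem locked_of (g : Geo n al M H D V z a V' z' U b1 b2)
    (h : ∃ J ⊆ range n, ∑ j ∈ J, al j = al n) : ∃ X Y X' Y' : ℕ → ℝ,
      CC (lk n a V' z' U b1 b2) X Y ∧ Fr n H D V z X Y ∧
      CC (lk n a V' z' U b1 b2) X' Y' ∧ Fr n H D V z X' Y' ∧
      IsConfig 2 (lk n a V' z' U b1 b2) (place (n + 5) 1 0 0 0 1 X Y) ∧
      IsConfig 2 (lk n a V' z' U b1 b2) (place (n + 5) 1 0 0 0 1 X' Y') ∧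
      SameOrientation (lk n a V' z' U b1 b2) (place (n + 5) 1 0 0 0 1 X Y)
        (place (n + 5) 1 0 0 0 1 X' Y') ∧
      ¬ JoinedIn (Space 2 (lk n a V' z' U b1 b2)) (place (n + 5) 1 0 0 0 1 X Y)
        (place (n + 5) 1 0 0 0 1 X' Y') := by
  obtain ⟨J, hJ, hJs⟩ := h
  have hn := g.hn
  have hJn : n ∉ J := fun h => by have := mem_range.1 (hJ h); omega
  obtain ⟨X, Y, hF, hcc, hX, -⟩ := zigzag g (fun i => i = n) (by simp)
  obtain ⟨X', Y', hF', hcc', -, hX'⟩ := zigzag g (fun i => i ∈ J) (by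
    rw [← Finset.sum_filter, ← hJs]
    congr 1
    ext i
    simp only [Finset.mem_filter, Finset.mem_range]
    constructor
    · exact fun h => h.2
    · exact fun h => ⟨by have := mem_range.1 (hJ h); omega, h⟩)
  have hX := hX rfl
  have hX' := hX' hJn
  have c10 : (1 : ℝ) ^ 2 + (0 : ℝ) ^ 2 = 1 := by norm_num
  refine ⟨X, Y, X', Y', hcc, hF, hcc', hF', (place_iff g.valid c10 (by norm_num)).2 hcc,
    (place_iff g.valid c10 (by norm_num)).2 hcc', ?_, ?_⟩
  · intro k c hc
    have hN : ∀ i, c i < n + 5 := cycle_mem g.valid hc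
    have h0 : c k = c 0 := by simpa using hc.2.1 0
    rw [area_place hN h0 c10, area_place hN h0 c10, one_mul, one_mul]
    exact ar_pos_iff g hcc hF hcc' hF' hc
  · rintro ⟨γ, hγ⟩
    have hc : Continuous fun t => sp n (γ t) := sp_cont.comp γ.continuous
    have hV := g.V_pos
    have h0 : sp n (γ 0) ≤ 0 := by
      rw [γ.source, sp_place hF c10]
      nlinarith
    have h1 : 0 ≤ sp n (γ 1) := by
      rw [γ.target, sp_place hF' c10]
      apply mul_nonneg <;> linarith
    obtain ⟨t, ht⟩ := mem_range_of_exists_le_of_exists_ge hc ⟨0, h0⟩ ⟨1, h1⟩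
    exact sp_ne g (hγ t) ht

/-- **The linkage is locked if and only if there is a subset with the right sum.** -/
theorem locked_iff (g : Geo n al M H D V z a V' z' U b1 b2) :
    LockedPlane (lk n a V' z' U b1 b2) ↔ ∃ J ⊆ range n, ∑ j ∈ J, al j = al n := by
  constructor
  · intro h
    by_contra hcon
    exact not_locked g hcon h
  · intro h
    obtain ⟨X, Y, X', Y', -, -, -, -, h1, h2, h3, h4⟩ := locked_of g h
    exact ⟨_, _, h1, h2, h3, h4⟩

end Pool.Agent.TH668.Link
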