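import Pool.Agent.TH668.Link.Coord

/-!
# The linkages of the reduction
-/

set_option autoImplicit false

namespace Pool.Agent.TH668.Link

open Finset

/-- The geometric conditions on the lengths. -/
structure Geo (n : ℕ) (al : ℕ → ℕ) (M H D V z : ℝ) (a : ℕ → ℚ) (V' z' U b1 b2 : ℚ) : Prop where
  hn : 1 ≤ n
  hal : ∀ j ≤ n, 1 ≤ al j
  hS : al n < ∑ j ∈ range n, al j
  hM : 0 < M
  hH : 0 < H
  ha : ∀ j ≤ n, (a j : ℝ) = M * al j
  hV' : (V' : ℝ) = V
  hz' : (z' : ℝ) = z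
  hU : (U : ℝ) ^ 2 = V ^ 2 + z ^ 2
  hb1 : (b1 : ℝ) ^ 2 = (V + D) ^ 2 + H ^ 2
  hb2 : (b2 : ℝ) ^ 2 = (V - D) ^ 2 + H ^ 2
  hU0 : 0 < U
  hb10 : 0 < b1
  hb20 : 0 < b2
  hσ : M * ∑ j ∈ range n, (al j : ℝ) - M * al n < D
  hδ : D < M * ∑ j ∈ range n, (al j : ℝ) - √((M * al n) ^ 2 - H ^ 2)
  hY : 2 * (M * ∑ j ∈ range n, (al j : ℝ)) *
    (M * ∑ j ∈ range n, (al j : ℝ) - √((M * al n) ^ 2 - H ^ 2) - D) ≤ (H / (8 * al n)) ^ 2
  hP : (D - (M * ∑ j ∈ range n, (al j : ℝ) - M * al n)) * M + (n + 1) * H ^ 2 < M ^ 2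
  hV : 4 * (n + 1) * (M * ∑ j ∈ range n, (al j : ℝ)) ≤ V
  hz : 3 * H ≤ z
  hW : 3 * H ^ 2 * (M * ∑ j ∈ range n, (al j : ℝ)) <
    V * (M * ∑ j ∈ range n, (al j : ℝ) - √((M * al n) ^ 2 - H ^ 2) - D) * (M * al n)

/-- the frame is in standard position -/
def Fr (n : ℕ) (H D V z : ℝ) (X Y : ℕ → ℝ) : Prop :=
  (X 0 = 0 ∧ Y 0 = 0) ∧ (X (n + 1) = D ∧ Y (n + 1) = H) ∧ (X (n + 2) = 0 ∧ Y (n + 2) = -z) ∧
    (X (n + 3) = -V ∧ Y (n + 3) = 0) ∧ (X (n + 4) = V ∧ Y (n + 4) = 0)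

namespace Geo

variable {n : ℕ} {al : ℕ → ℕ} {M H D V z : ℝ} {a : ℕ → ℚ} {V' z' U b1 b2 : ℚ}
  (g : Geo n al M H D V z a V' z' U b1 b2)

include g

theorem S_pos : (2 : ℝ) ≤ ∑ j ∈ range n, (al j : ℝ) := by
  have h1 := g.hS
  have h2 := g.hal n le_rfl
  have : 2 ≤ ∑ j ∈ range n, al j := by omega
  exact_mod_cast this

theorem ρ_lt : (al n : ℝ) < ∑ j ∈ range n, (al j : ℝ) := by exact_mod_cast g.hS

theorem ρ_pos : (1 : ℝ) ≤ al n := by exact_mod_cast g.hal n le_rfl

theorem A_pos : 0 < M * ∑ j ∈ range n, (al j : ℝ) :=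
  mul_pos g.hM (by linarith [g.S_pos])

theorem M_le_R : M ≤ M * al n := by
  have := g.ρ_pos
  have := g.hM
  nlinarith

theorem R_lt_A : M * (al n : ℝ) < M * ∑ j ∈ range n, (al j : ℝ) :=
  mul_lt_mul_of_pos_left g.ρ_lt g.hM

theorem two_H_sq : 2 * H ^ 2 < M ^ 2 := by
  have h1 := g.hP
  have h2 : 0 < (D - (M * ∑ j ∈ range n, (al j : ℝ) - M * al n)) * M :=
    mul_pos (by linarith [g.hσ]) g.hM
  have h3 : (1 : ℝ) ≤ n := by exact_mod_cast g.hn
  nlinarith [sq_nonneg H]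

theorem H_lt_M : H < M := by
  have := g.two_H_sq
  nlinarith [g.hM, g.hH]

theorem z_pos : 0 < z := by linarith [g.hz, g.hH]

theorem hV8 : 8 * (M * ∑ j ∈ range n, (al j : ℝ)) ≤ V := by
  have h1 := g.hV
  have h2 := g.A_pos
  have h3 : (1 : ℝ) ≤ n := by exact_mod_cast g.hn
  nlinarith

theorem V_pos : 0 < V := by linarith [g.hV8, g.A_pos]

theorem D_pos : 0 < D := by linarith [g.hσ, g.R_lt_A]

theorem D_lt_A : D < M * ∑ j ∈ range n, (al j : ℝ) := by
  linarith [g.hδ, Real.sqrt_nonneg ((M * al n) ^ 2 - H ^ 2)]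

theorem valid : Valid (lk n a V' z' U b1 b2) := by
  have hV0 : 0 < V' := by
    have := g.V_pos
    rw [← g.hV'] at this
    exact_mod_cast this
  have hz0 : 0 < z' := by
    have := g.z_pos
    rw [← g.hz'] at this
    exact_mod_cast this
  constructor
  · intro b hb
    simp only [lk, List.mem_append, List.mem_map, List.mem_range, frame, List.mem_cons,
      List.not_mem_nil, or_false] at hb
    rcases hb with ⟨j, hj, rfl⟩ | rfl | rfl | rfl | rfl | rfl | rfl | rfl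
    · refine ⟨by simp only [lk]; omega, by simp only [lk]; omega, by simp, ?_⟩
      have h1 := g.ha j (by omega)
      have h2 : (1 : ℝ) ≤ al j := by exact_mod_cast g.hal j (by omega)
      have h3 : (0 : ℝ) < a j := by rw [h1]; exact mul_pos g.hM (by linarith)
      exact_mod_cast h3
    · exact ⟨by simp only [lk]; omega, by simp only [lk]; omega, by simp, hV0⟩
    · exact ⟨by simp only [lk]; omega, by simp only [lk]; omega, by simp, hV0⟩
    · exact ⟨by simp only [lk]; omega, by simp only [lk]; omega, by simp, g.hU0⟩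
    · exact ⟨by simp only [lk]; omega, by simp only [lk]; omega, by simp, hz0⟩
    · exact ⟨by simp only [lk]; omega, by simp only [lk]; omega, by simp, g.hU0⟩
    · exact ⟨by simp only [lk]; omega, by simp only [lk]; omega, by simp, g.hb10⟩
    · exact ⟨by simp only [lk]; omega, by simp only [lk]; omega, by simp, g.hb20⟩
  · simp only [lk, frame]
    rw [List.pairwise_append]
    refine ⟨?_, ?_, ?_⟩
    · rw [List.pairwise_map]
      refine List.nodup_range.imp ?_
      intro i j hij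
      simp only [ne_eq, Prod.mk.injEq]
      omega
    · simp only [List.pairwise_cons, List.mem_cons, List.not_mem_nil, or_false, forall_eq_or_imp,
        forall_eq, IsEmpty.forall_iff, implies_true, and_true, List.Pairwise.nil, ne_eq,
        Prod.mk.injEq]
      omega
    · intro b hb b' hb'
      simp only [List.mem_map, List.mem_range] at hb
      obtain ⟨j, hj, rfl⟩ := hb
      simp only [List.mem_cons, List.not_mem_nil, or_false] at hb'
      have h1 := g.hn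
      rcases hb' with rfl | rfl | rfl | rfl | rfl | rfl | rfl <;>
        · simp only [ne_eq, Prod.mk.injEq]
          omega

end Geo

end Pool.Agent.TH668.Link
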