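import Pool.Agent.TH668.Link.Iff

/-!
# The plane embedding
-/

set_option autoImplicit false
set_option linter.unusedSimpArgs false

namespace Pool.Agent.TH668.Link

open Finset

variable {n : ℕ} {al : ℕ → ℕ} {M H D V z : ℝ} {a : ℕ → ℚ} {V' z' U b1 b2 : ℚ} {X Y : ℕ → ℝ}

theorem nbr {v x : ℕ} (h : Adj (lk n a V' z' U b1 b2) v x) (hn : 1 ≤ n) :
    (v = 0 ∧ (x = 1 ∨ x = n + 2 ∨ x = n + 3 ∨ x = n + 4)) ∨
    (v = n + 1 ∧ (x = n ∨ x = n + 3 ∨ x = n + 4)) ∨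
    (n + 2 ≤ v ∧ v ≤ n + 4 ∧ (x = 0 ∨ x = n + 1 ∨ x = n + 2 ∨ x = n + 3 ∨ x = n + 4)) ∨
    (1 ≤ v ∧ v ≤ n ∧ (x + 1 = v ∨ x = v + 1)) := by
  obtain ⟨l, h | h⟩ := h
  · simp only [lk, List.mem_append, List.mem_map, List.mem_range, frame, List.mem_cons,
      List.not_mem_nil, or_false, Prod.mk.injEq] at h
    rcases h with ⟨j, hj, ⟨h1, h2⟩, -⟩ | ⟨⟨h1, h2⟩, -⟩ | ⟨⟨h1, h2⟩, -⟩ | ⟨⟨h1, h2⟩, -⟩ |
      ⟨⟨h1, h2⟩, -⟩ | ⟨⟨h1, h2⟩, -⟩ | ⟨⟨h1, h2⟩, -⟩ | ⟨⟨h1, h2⟩, -⟩ <;> omega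
  · simp only [lk, List.mem_append, List.mem_map, List.mem_range, frame, List.mem_cons,
      List.not_mem_nil, or_false, Prod.mk.injEq] at h
    rcases h with ⟨j, hj, ⟨h1, h2⟩, -⟩ | ⟨⟨h1, h2⟩, -⟩ | ⟨⟨h1, h2⟩, -⟩ | ⟨⟨h1, h2⟩, -⟩ |
      ⟨⟨h1, h2⟩, -⟩ | ⟨⟨h1, h2⟩, -⟩ | ⟨⟨h1, h2⟩, -⟩ | ⟨⟨h1, h2⟩, -⟩ <;> omega

theorem ccw_true {q q' : ℕ → E2} {v a b c : ℕ}
    (h : (0 < det q v a b ∧ 0 < det q v b c ∧ 0 < det q' v a b ∧ 0 < det q' v b c) ∨
      (0 < det q v b c ∧ 0 < det q v c a ∧ 0 < det q' v b c ∧ 0 < det q' v c a) ∨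
      (0 < det q v c a ∧ 0 < det q v a b ∧ 0 < det q' v c a ∧ 0 < det q' v a b) ∨
      (det q v a b < 0 ∧ det q v b c < 0 ∧ det q' v a b < 0 ∧ det q' v b c < 0) ∨
      (det q v b c < 0 ∧ det q v c a < 0 ∧ det q' v b c < 0 ∧ det q' v c a < 0) ∨
      (det q v c a < 0 ∧ det q v a b < 0 ∧ det q' v c a < 0 ∧ det q' v a b < 0)) :
    Ccw q v a b c ↔ Ccw q' v a b c := by
  unfold Ccw
  rcases h with ⟨h1, h2, h3, h4⟩ | ⟨h1, h2, h3, h4⟩ | ⟨h1, h2, h3, h4⟩ | ⟨h1, h2, h3, h4⟩ |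
    ⟨h1, h2, h3, h4⟩ | ⟨h1, h2, h3, h4⟩
  · simp [h1, h2, h3, h4]
  · simp [h1, h2, h3, h4]
  · simp [h1, h2, h3, h4]
  · simp [h1.not_gt, h2.not_gt, h3.not_gt, h4.not_gt]
  · simp [h1.not_gt, h2.not_gt, h3.not_gt, h4.not_gt]
  · simp [h1.not_gt, h2.not_gt, h3.not_gt, h4.not_gt]

theorem det_place {v x y : ℕ} (hv : v < n + 5) (hx : x < n + 5) (hy : y < n + 5) :
    det (place (n + 5) 1 0 0 0 1 X Y) v x y =
      (X x - X v) * (Y y - Y v) - (X y - X v) * (Y x - Y v) := by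
  unfold det
  rw [place_0 hv, place_0 hx, place_0 hy, place_1 hv, place_1 hx, place_1 hy]
  ring

/-- Any two configurations in standard position define the same plane embedding. -/
theorem same_rotation (g : Geo n al M H D V z a V' z' U b1 b2)
    (hcc : CC (lk n a V' z' U b1 b2) X Y) (hF : Fr n H D V z X Y) {X' Y' : ℕ → ℝ}
    (hcc' : CC (lk n a V' z' U b1 b2) X' Y') (hF' : Fr n H D V z X' Y') :
    SameRotation (lk n a V' z' U b1 b2) (place (n + 5) 1 0 0 0 1 X Y)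
      (place (n + 5) 1 0 0 0 1 X' Y') := by
  intro v x y w hx hy hw hxy hyw hxw
  have hn := g.hn
  have c1 := confined g hcc hF le_rfl hn
  have c1' := confined g hcc' hF' le_rfl hn
  have cn := confined g hcc hF hn le_rfl
  have cn' := confined g hcc' hF' hn le_rfl
  have hV := g.V_pos
  have hz := g.z_pos
  have hH := g.hH
  obtain ⟨⟨x0, y0⟩, ⟨xw, yw⟩, ⟨xZ, yZ⟩, ⟨xu, yu⟩, ⟨xv, yv⟩⟩ := hF
  obtain ⟨⟨x0', y0'⟩, ⟨xw', yw'⟩, ⟨xZ', yZ'⟩, ⟨xu', yu'⟩, ⟨xv', yv'⟩⟩ := hF'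
  have hVz : 0 < V * z := mul_pos hV hz
  have hVH : 0 < V * H := mul_pos hV hH
  have hV1 : 0 < V * Y 1 := mul_pos hV c1.1
  have hV1' : 0 < V * Y' 1 := mul_pos hV c1'.1
  obtain ⟨-, cn2, cn3⟩ := cn
  obtain ⟨-, cn2', cn3'⟩ := cn'
  have b1 : (1 : ℕ) < n + 5 := by omega
  have bn : n < n + 5 := by omega
  have b0 : (0 : ℕ) < n + 5 := by omega
  have bw : n + 1 < n + 5 := by omega
  have bZ : n + 2 < n + 5 := by omega
  have bu : n + 3 < n + 5 := by omega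
  have bv : n + 4 < n + 5 := by omega
  -- vertices of the frame
  have hagree : ∀ i, (i = 0 ∨ i = n + 1 ∨ i = n + 2 ∨ i = n + 3 ∨ i = n + 4) →
      i < n + 5 ∧ X i = X' i ∧ Y i = Y' i := by
    rintro i (rfl | rfl | rfl | rfl | rfl)
    · exact ⟨b0, by rw [x0, x0'], by rw [y0, y0']⟩
    · exact ⟨bw, by rw [xw, xw'], by rw [yw, yw']⟩
    · exact ⟨bZ, by rw [xZ, xZ'], by rw [yZ, yZ']⟩
    · exact ⟨bu, by rw [xu, xu'], by rw [yu, yu']⟩
    · exact ⟨bv, by rw [xv, xv'], by rw [yv, yv']⟩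
  have hframe : ∀ v x y w, (v = 0 ∨ v = n + 1 ∨ v = n + 2 ∨ v = n + 3 ∨ v = n + 4) →
      (x = 0 ∨ x = n + 1 ∨ x = n + 2 ∨ x = n + 3 ∨ x = n + 4) →
      (y = 0 ∨ y = n + 1 ∨ y = n + 2 ∨ y = n + 3 ∨ y = n + 4) →
      (w = 0 ∨ w = n + 1 ∨ w = n + 2 ∨ w = n + 3 ∨ w = n + 4) →
      (Ccw (place (n + 5) 1 0 0 0 1 X Y) v x y w ↔ Ccw (place (n + 5) 1 0 0 0 1 X' Y') v x y w) := by
    intro v x y w h1 h2 h3 h4
    obtain ⟨e1, e2, e3⟩ := hagree v h1
    obtain ⟨e4, e5, e6⟩ := hagree x h2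
    obtain ⟨e7, e8, e9⟩ := hagree y h3
    obtain ⟨e10, e11, e12⟩ := hagree w h4
    unfold Ccw
    rw [det_place e1 e4 e7, det_place e1 e7 e10, det_place e1 e10 e4, det_place e1 e4 e7,
      det_place e1 e7 e10, det_place e1 e10 e4, e2, e3, e5, e6, e8, e9, e11, e12]
  -- the cross products at `p`
  have p1 : det (place (n + 5) 1 0 0 0 1 X Y) 0 (n + 3) 1 = -(V * Y 1) := by
    rw [det_place b0 bu b1, x0, y0, xu, yu]; ring
  have p2 : det (place (n + 5) 1 0 0 0 1 X Y) 0 1 (n + 3) = V * Y 1 := by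
    rw [det_place b0 b1 bu, x0, y0, xu, yu]; ring
  have p3 : det (place (n + 5) 1 0 0 0 1 X Y) 0 (n + 4) 1 = V * Y 1 := by
    rw [det_place b0 bv b1, x0, y0, xv, yv]; ring
  have p4 : det (place (n + 5) 1 0 0 0 1 X Y) 0 1 (n + 4) = -(V * Y 1) := by
    rw [det_place b0 b1 bv, x0, y0, xv, yv]; ring
  have p5 : det (place (n + 5) 1 0 0 0 1 X Y) 0 (n + 3) (n + 2) = V * z := by
    rw [det_place b0 bu bZ, x0, y0, xu, yu, xZ, yZ]; ring
  have p6 : det (place (n + 5) 1 0 0 0 1 X Y) 0 (n + 2) (n + 3) = -(V * z) := by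
    rw [det_place b0 bZ bu, x0, y0, xu, yu, xZ, yZ]; ring
  have p7 : det (place (n + 5) 1 0 0 0 1 X Y) 0 (n + 4) (n + 2) = -(V * z) := by
    rw [det_place b0 bv bZ, x0, y0, xv, yv, xZ, yZ]; ring
  have p8 : det (place (n + 5) 1 0 0 0 1 X Y) 0 (n + 2) (n + 4) = V * z := by
    rw [det_place b0 bZ bv, x0, y0, xv, yv, xZ, yZ]; ring
  have p1' : det (place (n + 5) 1 0 0 0 1 X' Y') 0 (n + 3) 1 = -(V * Y' 1) := by
    rw [det_place b0 bu b1, x0', y0', xu', yu']; ring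
  have p2' : det (place (n + 5) 1 0 0 0 1 X' Y') 0 1 (n + 3) = V * Y' 1 := by
    rw [det_place b0 b1 bu, x0', y0', xu', yu']; ring
  have p3' : det (place (n + 5) 1 0 0 0 1 X' Y') 0 (n + 4) 1 = V * Y' 1 := by
    rw [det_place b0 bv b1, x0', y0', xv', yv']; ring
  have p4' : det (place (n + 5) 1 0 0 0 1 X' Y') 0 1 (n + 4) = -(V * Y' 1) := by
    rw [det_place b0 b1 bv, x0', y0', xv', yv']; ring
  have p5' : det (place (n + 5) 1 0 0 0 1 X' Y') 0 (n + 3) (n + 2) = V * z := by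
    rw [det_place b0 bu bZ, x0', y0', xu', yu', xZ', yZ']; ring
  have p6' : det (place (n + 5) 1 0 0 0 1 X' Y') 0 (n + 2) (n + 3) = -(V * z) := by
    rw [det_place b0 bZ bu, x0', y0', xu', yu', xZ', yZ']; ring
  have p7' : det (place (n + 5) 1 0 0 0 1 X' Y') 0 (n + 4) (n + 2) = -(V * z) := by
    rw [det_place b0 bv bZ, x0', y0', xv', yv', xZ', yZ']; ring
  have p8' : det (place (n + 5) 1 0 0 0 1 X' Y') 0 (n + 2) (n + 4) = V * z := by
    rw [det_place b0 bZ bv, x0', y0', xv', yv', xZ', yZ']; ring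
  -- the cross products at `w`
  have w1 : det (place (n + 5) 1 0 0 0 1 X Y) (n + 1) (n + 3) n =
      (X n + V) * H - Y n * (V + D) := by
    rw [det_place bw bu bn, xw, yw, xu, yu]; ring
  have w2 : det (place (n + 5) 1 0 0 0 1 X Y) (n + 1) n (n + 3) =
      -((X n + V) * H - Y n * (V + D)) := by
    rw [det_place bw bn bu, xw, yw, xu, yu]; ring
  have w3 : det (place (n + 5) 1 0 0 0 1 X Y) (n + 1) n (n + 4) =
      (V - X n) * H - Y n * (V - D) := by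
    rw [det_place bw bn bv, xw, yw, xv, yv]; ring
  have w4 : det (place (n + 5) 1 0 0 0 1 X Y) (n + 1) (n + 4) n =
      -((V - X n) * H - Y n * (V - D)) := by
    rw [det_place bw bv bn, xw, yw, xv, yv]; ring
  have w1' : det (place (n + 5) 1 0 0 0 1 X' Y') (n + 1) (n + 3) n =
      (X' n + V) * H - Y' n * (V + D) := by
    rw [det_place bw bu bn, xw', yw', xu', yu']; ring
  have w2' : det (place (n + 5) 1 0 0 0 1 X' Y') (n + 1) n (n + 3) =
      -((X' n + V) * H - Y' n * (V + D)) := by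
    rw [det_place bw bn bu, xw', yw', xu', yu']; ring
  have w3' : det (place (n + 5) 1 0 0 0 1 X' Y') (n + 1) n (n + 4) =
      (V - X' n) * H - Y' n * (V - D) := by
    rw [det_place bw bn bv, xw', yw', xv', yv']; ring
  have w4' : det (place (n + 5) 1 0 0 0 1 X' Y') (n + 1) (n + 4) n =
      -((V - X' n) * H - Y' n * (V - D)) := by
    rw [det_place bw bv bn, xw', yw', xv', yv']; ring
  have hx' := nbr hx hn
  have hy' := nbr hy hn
  have hw' := nbr hw hn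
  by_cases hv0 : v = 0
  · subst hv0
    have ax : x = 1 ∨ x = n + 2 ∨ x = n + 3 ∨ x = n + 4 := by omega
    have ay : y = 1 ∨ y = n + 2 ∨ y = n + 3 ∨ y = n + 4 := by omega
    have aw : w = 1 ∨ w = n + 2 ∨ w = n + 3 ∨ w = n + 4 := by omega
    by_cases h1 : x = 1 ∨ y = 1 ∨ w = 1
    · apply ccw_true
      clear hframe hagree hx hy hw hx' hy' hw'
      rcases ax with rfl | rfl | rfl | rfl <;> rcases ay with rfl | rfl | rfl | rfl <;>
        rcases aw with rfl | rfl | rfl | rfl <;>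
        first
          | exact absurd rfl hxy
          | exact absurd rfl hyw
          | exact absurd rfl hxw
          | (exfalso; omega)
          | (simp only [p1, p2, p3, p4, p5, p6, p7, p8, p1', p2', p3', p4', p5', p6', p7', p8',
              neg_lt_zero, neg_pos, hV1, hV1', hVz, hV1.not_gt, hV1'.not_gt, hVz.not_gt, true_and,
              and_true, false_and, and_false, or_false, false_or, true_or, or_true])
    · push Not at h1
      exact hframe 0 x y w (Or.inl rfl) (by omega) (by omega) (by omega)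
  · by_cases hvw : v = n + 1
    · subst hvw
      have ax : x = n ∨ x = n + 3 ∨ x = n + 4 := by omega
      have ay : y = n ∨ y = n + 3 ∨ y = n + 4 := by omega
      have aw : w = n ∨ w = n + 3 ∨ w = n + 4 := by omega
      apply ccw_true
      clear hframe hagree hx hy hw hx' hy' hw' p1 p2 p3 p4 p5 p6 p7 p8 p1' p2' p3' p4' p5' p6' p7'
        p8'
      rcases ax with rfl | rfl | rfl <;> rcases ay with rfl | rfl | rfl <;>
        rcases aw with rfl | rfl | rfl <;>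
        first
          | exact absurd rfl hxy
          | exact absurd rfl hyw
          | exact absurd rfl hxw
          | (simp only [w1, w2, w3, w4, w1', w2', w3', w4', neg_lt_zero, neg_pos, cn2, cn2', cn3,
              cn3', cn2.not_gt, cn3.not_gt, cn2'.not_gt, cn3'.not_gt, true_and,
              and_true, false_and, and_false, or_false, false_or, true_or, or_true])
    · by_cases hvf : n + 2 ≤ v
      · exact hframe v x y w (by omega) (by omega) (by omega) (by omega)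
      · exfalso
        omega

end Pool.Agent.TH668.Link
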