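import Pool.Agent.TH668.Link.Conc
import Pool.Agent.TH668.Link.Rot
import Pool.Agent.H671R2.SubsetSum

/-!
# The reduction from subset sum
-/

set_option autoImplicit false

namespace Pool.Agent.TH668.Link

open Finset Pool.Agent.NPC Pool.Agent.NPC.R671.SS

theorem sublist_iff (l : List ℕ) (t : ℕ) : (∃ s : List ℕ, s.Sublist l ∧ s.sum = t) ↔
    ∃ ε : ℕ → Bool, ∑ j ∈ range l.length, (if ε j then l.getD j 0 else 0) = t := by
  induction l generalizing t with
  | nil =>
    constructor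
    · rintro ⟨s, hs, rfl⟩
      rw [List.sublist_nil] at hs
      subst hs
      exact ⟨fun _ => false, by simp⟩
    · rintro ⟨ε, h⟩
      exact ⟨[], List.Sublist.refl _, by simpa using h⟩
  | cons b l ih =>
    constructor
    · rintro ⟨s, hs, rfl⟩
      rw [List.sublist_cons_iff] at hs
      rcases hs with hs | ⟨r, rfl, hr⟩
      · obtain ⟨ε, hε⟩ := (ih _).1 ⟨s, hs, rfl⟩
        refine ⟨fun j => Nat.casesOn j false ε, ?_⟩
        rw [List.length_cons, Finset.sum_range_succ', ← hε]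
        simp
      · obtain ⟨ε, hε⟩ := (ih _).1 ⟨r, hr, rfl⟩
        refine ⟨fun j => Nat.casesOn j true ε, ?_⟩
        rw [List.length_cons, Finset.sum_range_succ', List.sum_cons, ← hε]
        simp [add_comm]
    · rintro ⟨ε, hε⟩
      rw [List.length_cons, Finset.sum_range_succ'] at hε
      simp only [List.getD_cons_succ, List.getD_cons_zero] at hε
      obtain ⟨r, hr, hrs⟩ := (ih _).2 ⟨fun j => ε (j + 1), rfl⟩
      by_cases h0 : ε 0 = true
      · refine ⟨b :: r, hr.cons_cons b, ?_⟩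
        rw [List.sum_cons, hrs, ← hε, if_pos h0]
        ring
      · refine ⟨r, hr.cons b, ?_⟩
        rw [hrs, ← hε, if_neg h0]
        ring

/-- lengths of the chain before scaling -/
def alx (x : List ℕ × ℕ) (j : ℕ) : ℕ := (x.1 ++ [x.2]).getD j 0

theorem alx_last (x : List ℕ × ℕ) : alx x x.1.length = x.2 := by
  simp [alx, List.getD_eq_getElem?_getD]

theorem alx_lt (x : List ℕ × ℕ) {j : ℕ} (hj : j < x.1.length) : alx x j = x.1.getD j 0 := by
  simp [alx, List.getD_eq_getElem?_getD, List.getElem?_append_left hj]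

theorem sum_alx (x : List ℕ × ℕ) : ∑ j ∈ range x.1.length, alx x j = x.1.sum := by
  rw [Finset.sum_congr rfl fun j hj => alx_lt x (mem_range.1 hj)]
  rw [Finset.sum_range fun j => x.1.getD j 0]
  simp [List.getD_eq_getElem?_getD]

theorem subset_iff (x : List ℕ × ℕ) :
    (∃ J ⊆ range x.1.length, ∑ j ∈ J, alx x j = alx x x.1.length) ↔ SubsetSum x := by
  rw [alx_last]
  unfold SubsetSum
  rw [sublist_iff]
  constructor
  · rintro ⟨J, hJ, h⟩
    refine ⟨fun j => decide (j ∈ J), ?_⟩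
    rw [← h]
    simp only [decide_eq_true_eq]
    rw [← Finset.sum_filter]
    have e : (range x.1.length).filter (fun j => j ∈ J) = J := by
      ext j
      simp only [Finset.mem_filter, Finset.mem_range]
      exact ⟨fun h => h.2, fun h => ⟨mem_range.1 (hJ h), h⟩⟩
    rw [e]
    exact Finset.sum_congr rfl fun j hj => (alx_lt x (mem_range.1 (hJ hj))).symm
  · rintro ⟨ε, h⟩
    refine ⟨(range x.1.length).filter fun j => ε j = true, Finset.filter_subset _ _, ?_⟩
    rw [Finset.sum_filter, ← h]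
    exact Finset.sum_congr rfl fun j hj => by rw [alx_lt x (mem_range.1 hj)]

/-- The reduction. -/
def red (x : List ℕ × ℕ) : Linkage :=
  lk x.1.length (fun j => ((LN x.2 x.1.sum * alx x j : ℕ) : ℚ)) ((4 * vN x.2 x.1.sum : ℕ) : ℚ)
    ((3 * vN x.2 x.1.sum : ℕ) : ℚ) ((5 * vN x.2 x.1.sum : ℕ) : ℚ) ((b1N x.2 x.1.sum : ℕ) : ℚ)
    ((b2N x.2 x.1.sum : ℕ) : ℚ)

theorem red_geo (x : List ℕ × ℕ) (hx : Nice x) : ∃ M H D V z : ℝ,
    Geo x.1.length (alx x) M H D V z (fun j => ((LN x.2 x.1.sum * alx x j : ℕ) : ℚ))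
      ((4 * vN x.2 x.1.sum : ℕ) : ℚ) ((3 * vN x.2 x.1.sum : ℕ) : ℚ)
      ((5 * vN x.2 x.1.sum : ℕ) : ℚ) ((b1N x.2 x.1.sum : ℕ) : ℚ) ((b2N x.2 x.1.sum : ℕ) : ℚ) := by
  obtain ⟨h1, h2⟩ := hx
  have hlen : 1 ≤ x.1.length := by
    rcases hx1 : x.1 with - | ⟨b, l⟩
    · rw [hx1] at h2
      simp at h2
    · simp
  have hitems : ∀ j < x.1.length, 0 < x.1.getD j 0 ∧ x.1.getD j 0 < x.2 := by
    intro j hj
    have : x.1.getD j 0 ∈ x.1 := by
      rw [List.getD_eq_getElem _ _ hj]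
      exact List.getElem_mem hj
    exact h1 _ this
  have hρ : 1 ≤ x.2 := by
    have := hitems 0 hlen
    omega
  have hgeo := geo_of (n := x.1.length) (al := alx x) hlen (by
    intro j hj
    rcases eq_or_lt_of_le hj with rfl | hj'
    · rw [alx_last]; exact hρ
    · rw [alx_lt x hj']; exact (hitems j hj').1) (sum_alx x).symm (by rw [alx_last]; exact h2)
  rw [alx_last] at hgeo
  exact hgeo

theorem natCast_rat_poly {α : Type} [TEnc α] {f : α → ℕ} (hf : Poly f) :
    Poly (fun a => ((f a : ℕ) : ℚ)) :=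
  NPC.Poly.of_toT ((NPC.Poly.toT' (NPC.Poly.pair (NPC.Poly.natCast_int hf) (NPC.Poly.const (1 : ℕ)))).congr fun a => by
    change toT (((f a : ℕ) : ℤ), (1 : ℕ)) = toT (((f a : ℕ) : ℚ).num, ((f a : ℕ) : ℚ).den)
    rw [Rat.num_natCast, Rat.den_natCast])

attribute [fun_prop] natCast_rat_poly

theorem hN_poly {α : Type} [TEnc α] {f : α → ℕ} (hf : Poly f) : Poly (fun a => hN (f a)) := by
  unfold hN
  fun_prop

theorem kN_poly {α : Type} [TEnc α] {f : α → ℕ} (hf : Poly f) : Poly (fun a => kN (f a)) := by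
  unfold kN
  have := hN_poly hf
  fun_prop

theorem mN_poly {α : Type} [TEnc α] {f g : α → ℕ} (hf : Poly f) (hg : Poly g) :
    Poly (fun a => mN (f a) (g a)) := by
  unfold mN
  have := hN_poly hg
  have := kN_poly hg
  fun_prop

theorem LN_poly {α : Type} [TEnc α] {f g : α → ℕ} (hf : Poly f) (hg : Poly g) :
    Poly (fun a => LN (f a) (g a)) := by
  unfold LN
  have := hN_poly hg
  have := kN_poly hg
  have := mN_poly hf hg
  fun_prop

theorem vN_poly {α : Type} [TEnc α] {f g : α → ℕ} (hf : Poly f) (hg : Poly g) :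
    Poly (fun a => vN (f a) (g a)) := by
  unfold vN
  have := hN_poly hg
  have := kN_poly hg
  have := mN_poly hf hg
  fun_prop

theorem b1N_poly {α : Type} [TEnc α] {f g : α → ℕ} (hf : Poly f) (hg : Poly g) :
    Poly (fun a => b1N (f a) (g a)) := by
  unfold b1N
  have := hN_poly hg
  have := kN_poly hg
  have := mN_poly hf hg
  fun_prop

theorem b2N_poly {α : Type} [TEnc α] {f g : α → ℕ} (hf : Poly f) (hg : Poly g) :
    Poly (fun a => b2N (f a) (g a)) := by
  unfold b2N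
  have := hN_poly hg
  have := kN_poly hg
  have := mN_poly hf hg
  fun_prop

theorem lk_poly {α : Type} [TEnc α] {l : α → List ℕ} {c V z U b1 b2 : α → ℕ} (hl : Poly l)
    (hc : Poly c) (hV : Poly V) (hz : Poly z) (hU : Poly U) (hb1 : Poly b1) (hb2 : Poly b2) :
    Poly (fun x => (((l x).length + 4,
      ((List.range (l x).length).map fun j => ((j, j + 1), ((c x * (l x).getD j 0 : ℕ) : ℚ))) ++
      frame ((l x).length - 1) (V x : ℚ) (z x : ℚ) (U x : ℚ) (b1 x : ℚ) (b2 x : ℚ)) : Linkage)) := by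
  have hrange : Poly (fun x => List.range (l x).length) := NPC.Poly.range_length hl
  have hf : Poly (fun x => frame ((l x).length - 1) (V x : ℚ) (z x : ℚ) (U x : ℚ) (b1 x : ℚ)
      (b2 x : ℚ)) := by
    unfold frame
    fun_prop
  have hF : Poly (fun p : α × ℕ => (((p.2, p.2 + 1), ((c p.1 * (l p.1).getD p.2 0 : ℕ) : ℚ)) :
      (ℕ × ℕ) × ℚ)) := by
    fun_prop
  have hmap : Poly (fun x => (List.range (l x).length).map fun j =>
      (((j, j + 1), ((c x * (l x).getD j 0 : ℕ) : ℚ)) : (ℕ × ℕ) × ℚ)) :=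
    NPC.Poly.map hrange hF
  fun_prop

theorem red_eq (x : List ℕ × ℕ) : (((x.1 ++ [x.2]).length + 4,
      ((List.range (x.1 ++ [x.2]).length).map fun j =>
        ((j, j + 1), ((LN x.2 x.1.sum * (x.1 ++ [x.2]).getD j 0 : ℕ) : ℚ))) ++
      frame ((x.1 ++ [x.2]).length - 1) ((4 * vN x.2 x.1.sum : ℕ) : ℚ)
        ((3 * vN x.2 x.1.sum : ℕ) : ℚ) ((5 * vN x.2 x.1.sum : ℕ) : ℚ) ((b1N x.2 x.1.sum : ℕ) : ℚ)
        ((b2N x.2 x.1.sum : ℕ) : ℚ)) : Linkage) = red x := by
  have h1 : (x.1 ++ [x.2]).length = x.1.length + 1 := by simp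
  rw [h1]
  rfl

theorem red_poly : Poly red := by
  have hs : Poly (fun x : List ℕ × ℕ => x.1.sum) := by fun_prop
  have h2 : Poly (fun x : List ℕ × ℕ => x.2) := by fun_prop
  have hL := LN_poly h2 hs
  have hv := vN_poly h2 hs
  have hb1 := b1N_poly h2 hs
  have hb2 := b2N_poly h2 hs
  refine (lk_poly (l := fun x : List ℕ × ℕ => x.1 ++ [x.2]) (by fun_prop) hL
    (NPC.Poly.mul (NPC.Poly.const 4) hv) (NPC.Poly.mul (NPC.Poly.const 3) hv)
    (NPC.Poly.mul (NPC.Poly.const 5) hv) hb1 hb2).congr ?_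
  intro x
  exact red_eq x

/-- The promise satisfied by all the instances produced by the reduction. -/
def Promise (y : ℕ × Linkage) : Prop :=
  y.1 = 2 ∧ Valid y.2 ∧ (∃ q, IsConfig 2 y.2 q) ∧
    (∃ (n : ℕ) (a : ℕ → ℚ) (V z U b₁ b₂ : ℚ), y.2 = lk n a V z U b₁ b₂) ∧
    (LockedPlane y.2 ↔ LockedEmb y.2)

theorem red_promise (x : List ℕ × ℕ) (hx : Nice x) : Promise (2, red x) := by
  obtain ⟨M, H, D, V, z, g⟩ := red_geo x hx
  refine ⟨rfl, g.valid, exists_config g, ⟨_, _, _, _, _, _, _, rfl⟩, ?_⟩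
  · constructor
    · intro h
      obtain ⟨X, Y, X', Y', hcc, hF, hcc', hF', h1, h2, h3, h4⟩ :=
        locked_of g ((locked_iff g).1 h)
      exact ⟨_, _, h1, h2, h3, same_rotation g hcc hF hcc' hF', h4⟩
    · rintro ⟨q, q', h1, h2, h3, -, h4⟩
      exact ⟨q, q', h1, h2, h3, h4⟩

theorem red_iff (x : List ℕ × ℕ) (hx : Nice x) : SubsetSum x ↔ Locked (2, red x) := by
  obtain ⟨M, H, D, V, z, g⟩ := red_geo x hx
  rw [← subset_iff, ← locked_iff g]
  constructor
  · intro h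
    exact ⟨g.valid, Or.inl ⟨rfl, h⟩⟩
  · rintro ⟨-, ⟨-, h⟩ | ⟨h, -⟩⟩
    · exact h
    · norm_num at h

/-- **Hardness with the promise.** -/
theorem hardPr_locked : HardPr Promise Locked :=
  hardPr_SubsetSum.trans (f := fun x => ((2 : ℕ), red x)) (NPC.Poly.pair (NPC.Poly.const 2) red_poly)
    red_promise red_iff

/-- Final form. -/
theorem main : NPHardP Locked ∧
    ∀ A : Set (List Bool), InNP A → ∃ f : List Bool → Linkage,
      PolyTime (fun w => bits ((2 : ℕ), f w)) ∧ ∀ w, Valid (f w) ∧ (∃ q, IsConfig 2 (f w) q) ∧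
        (∃ (n : ℕ) (a : ℕ → ℚ) (V z U b₁ b₂ : ℚ), f w = lk n a V z U b₁ b₂) ∧
        (LockedPlane (f w) ↔ LockedEmb (f w)) ∧
        (w ∈ A ↔ LockedPlane (f w)) := by
  refine ⟨hardPr_locked.toHardI.toNPHardP, fun A hA => ?_⟩
  obtain ⟨g, hg, hp, hiff⟩ := hardPr_locked A hA
  refine ⟨fun w => (g w).2, ?_, fun w => ?_⟩
  · have e : (fun w => bits ((2 : ℕ), (g w).2)) = fun w => bits (g w) := by
      funext w
      have := (hp w).1
      rw [← this]
    rw [e]
    exact PC.toPolyTime hg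
  · obtain ⟨h1, h2, h3, h4, h5⟩ := hp w
    refine ⟨h2, h3, h4, h5, (hiff w).trans ?_⟩
    unfold Locked
    rw [h1]
    constructor
    · rintro ⟨-, ⟨-, h⟩ | ⟨h, -⟩⟩
      · exact h
      · norm_num at h
    · exact fun h => ⟨h2, Or.inl ⟨rfl, h⟩⟩

end Pool.Agent.TH668.Link
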