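import Pool.Agent.TH668.Link.Straight

/-!
# Motions
-/

set_option autoImplicit false

namespace Pool.Agent.TH668.Link

open Finset Filter Topology

variable {n : ℕ} {al : ℕ → ℕ} {M H D V z : ℝ} {a : ℕ → ℚ} {V' z' U b1 b2 : ℚ} {X Y : ℕ → ℝ}

theorem Phi_lt (g : Geo n al M H D V z a V' z' U b1 b2) (y : ℕ → ℝ) {κ κ' : ℝ} (h0 : 0 ≤ κ)
    (h : κ < κ') (hH' : κ' ≤ H) : Phi n al M H D κ' y < Phi n al M H D κ y := by
  have h1 : ∑ i ∈ range n, st al M κ' y i ≤ ∑ i ∈ range n, st al M κ y i := by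
    refine Finset.sum_le_sum fun i _ => ?_
    unfold st
    apply Real.sqrt_le_sqrt
    have : κ ^ 2 ≤ κ' ^ 2 := by nlinarith
    have := mul_le_mul_of_nonneg_right this (sq_nonneg (y (i + 1) - y i))
    rw [mul_pow, mul_pow]
    linarith
  have h2 : √((M * al n) ^ 2 - (H - κ) ^ 2) < √((M * al n) ^ 2 - (H - κ') ^ 2) := by
    have h3 := g.H_lt_M
    have h4 := g.M_le_R
    have h5 := g.hH
    apply Real.sqrt_lt_sqrt
    · have : (H - κ) ^ 2 ≤ (M * al n) ^ 2 := by
        apply pow_le_pow_left₀ <;> linarith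
      linarith
    · nlinarith
  unfold Phi
  linarith

theorem Phi_le (g : Geo n al M H D V z a V' z' U b1 b2) (y : ℕ → ℝ) {κ κ' : ℝ} (h0 : 0 ≤ κ)
    (h : κ ≤ κ') (hH' : κ' ≤ H) : Phi n al M H D κ' y ≤ Phi n al M H D κ y := by
  rcases eq_or_lt_of_le h with rfl | h
  · exact le_rfl
  · exact (Phi_lt g y h0 h hH').le

theorem Phi_zero (g : Geo n al M H D V z a V' z' U b1 b2) (y : ℕ → ℝ) :
    0 < Phi n al M H D 0 y := by
  have h1 : ∑ i ∈ range n, st al M 0 y i = M * ∑ j ∈ range n, (al j : ℝ) := by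
    rw [Finset.mul_sum]
    refine Finset.sum_congr rfl fun i _ => ?_
    unfold st
    have := g.hM
    rw [zero_mul, zero_pow two_ne_zero, sub_zero, Real.sqrt_sq (by positivity)]
  unfold Phi
  rw [h1, sub_zero]
  linarith [g.hδ]

theorem Phi_H (g : Geo n al M H D V z a V' z' U b1 b2) (y : ℕ → ℝ) :
    Phi n al M H D H y < 0 := by
  have hM := g.hM
  have h1 : ∑ i ∈ range n, st al M H y i ≤ M * ∑ j ∈ range n, (al j : ℝ) := by
    rw [Finset.mul_sum]
    exact Finset.sum_le_sum fun i _ => st_le hM H y i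
  unfold Phi
  rw [sub_self, zero_pow two_ne_zero, sub_zero, Real.sqrt_sq (by positivity)]
  linarith [g.hσ]

theorem Phi_cont_κ (y : ℕ → ℝ) : Continuous fun κ => Phi n al M H D κ y := by
  unfold Phi st
  fun_prop

theorem exists_kappa (g : Geo n al M H D V z a V' z' U b1 b2) (y : ℕ → ℝ) :
    ∃ κ, 0 < κ ∧ κ < H ∧ Phi n al M H D κ y = 0 := by
  obtain ⟨κ, ⟨h0, h1⟩, h2⟩ := intermediate_value_Icc' g.hH.le (Phi_cont_κ y).continuousOn
    (show (0 : ℝ) ∈ _ from ⟨(Phi_H g y).le, (Phi_zero g y).le⟩)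
  simp only at h2
  refine ⟨κ, lt_of_le_of_ne h0 ?_, lt_of_le_of_ne h1 ?_, h2⟩
  · rintro rfl
    exact (Phi_zero g y).ne' h2
  · rintro rfl
    exact (Phi_H g y).ne h2

theorem kappa_unique (g : Geo n al M H D V z a V' z' U b1 b2) (y : ℕ → ℝ) {κ κ' : ℝ}
    (h0 : 0 ≤ κ) (h1 : κ ≤ H) (h0' : 0 ≤ κ') (h1' : κ' ≤ H) (h : Phi n al M H D κ y = 0)
    (h' : Phi n al M H D κ' y = 0) : κ = κ' := by
  rcases lt_trichotomy κ κ' with hlt | heq | hgt
  · have := Phi_lt g y h0 hlt h1'
    linarith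
  · exact heq
  · have := Phi_lt g y h0' hgt h1
    linarith

theorem kappa_cont (g : Geo n al M H D V z a V' z' U b1 b2) {y : ℝ → ℕ → ℝ}
    (hy : ∀ i, Continuous fun t => y t i) {K : ℝ → ℝ}
    (hK : ∀ t, 0 < K t ∧ K t < H ∧ Phi n al M H D (K t) (y t) = 0) : Continuous K := by
  have hc : ∀ κ, Continuous fun t => Phi n al M H D κ (y t) := by
    intro κ
    unfold Phi st
    have : ∀ i, Continuous fun t => y t i := hy
    fun_prop
  rw [continuous_iff_continuousAt]
  intro t0
  refine tendsto_order.2 ⟨fun b hb => ?_, fun b hb => ?_⟩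
  · rcases lt_or_ge b 0 with h | h
    · exact Eventually.of_forall fun t => h.trans (hK t).1
    · have h1 : 0 < Phi n al M H D b (y t0) := by
        rw [← (hK t0).2.2]
        exact Phi_lt g _ h hb (hK t0).2.1.le
      filter_upwards [(hc b).continuousAt.eventually (lt_mem_nhds h1)] with t ht
      by_contra hcon
      push Not at hcon
      have := Phi_le g (y t) (hK t).1.le hcon (hb.trans (hK t0).2.1).le
      rw [(hK t).2.2] at this
      linarith
  · rcases le_or_gt b H with h | h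
    · have h1 : Phi n al M H D b (y t0) < 0 := by
        rw [← (hK t0).2.2]
        exact Phi_lt g _ (hK t0).1.le hb h
      filter_upwards [(hc b).continuousAt.eventually (gt_mem_nhds h1)] with t ht
      by_contra hcon
      push Not at hcon
      have := Phi_le g (y t) ((hK t0).1.trans hb).le hcon (hK t).2.1.le
      rw [(hK t).2.2] at this
      linarith
    · exact Eventually.of_forall fun t => (hK t).2.1.trans h

theorem cont_E2 {f h : ℝ → ℝ} (hf : Continuous f) (hh : Continuous h) :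
    Continuous fun t => (!₂[f t, h t] : E2) := by
  refine (PiLp.continuous_toLp 2 _).comp (continuous_pi fun i => ?_)
  fin_cases i
  · exact hf
  · exact hh

theorem place_cont {N : ℕ} {c s p p' : ℝ → ℝ} {η : ℝ} {X Y : ℝ → ℕ → ℝ} (hc : Continuous c)
    (hs : Continuous s) (hp : Continuous p) (hp' : Continuous p')
    (hX : ∀ i, Continuous fun t => X t i) (hY : ∀ i, Continuous fun t => Y t i) :
    Continuous fun t => place N (c t) (s t) (p t) (p' t) η (X t) (Y t) := by
  refine continuous_pi fun i => ?_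
  unfold place
  split_ifs
  · have h1 := hX i
    have h2 := hY i
    exact cont_E2 (by fun_prop) (by fun_prop)
  · exact continuous_const

theorem ext_cont {f : ℝ → ℕ → ℝ} {Z u v : ℝ} (hf : ∀ i, Continuous fun t => f t i) (i : ℕ) :
    Continuous fun t => ext n (f t) Z u v i := by
  unfold ext
  split_ifs
  · exact hf i
  all_goals exact continuous_const

/-- the converse of `straight` -/
theorem of_straight (g : Geo n al M H D V z a V' z' U b1 b2)
    (hcc : CC (lk n a V' z' U b1 b2) X Y) (hF : Fr n H D V z X Y)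
    (h1 : X (n + 1) < X n) (h2 : ∀ j < n, X j < X (j + 1)) :
    ∃ (κ : ℝ) (y : ℕ → ℝ), 0 < κ ∧ κ < H ∧ Adm n y ∧ Phi n al M H D κ y = 0 ∧
      (∀ i < n + 5, X i = ext n (fX n al M D κ y) 0 (-V) V i) ∧
      ∀ i < n + 5, Y i = ext n (fY n H κ y) (-z) 0 0 i := by
  have hn := g.hn
  have hYn := height g hcc hF hn le_rfl
  have hκ := hYn.1
  have hY : ∀ j, Y n * (Y j / Y n) = Y j := fun j => by field_simp
  have hst : ∀ j < n, st al M (Y n) (fun j => Y j / Y n) j = X (j + 1) - X j := by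
    intro j hj
    have h3 := (chain_ne g hcc hj.le).1
    unfold st
    rw [mul_sub, hY, hY]
    have h4 : (M * (al j : ℝ)) ^ 2 - (Y (j + 1) - Y j) ^ 2 = (X (j + 1) - X j) ^ 2 := by
      rw [← h3]; ring
    rw [h4, Real.sqrt_sq (by linarith [h2 j hj])]
  have hsum : ∀ j ≤ n, ∑ i ∈ range j, st al M (Y n) (fun j => Y j / Y n) i = X j := by
    intro j hj
    rw [Finset.sum_congr rfl fun i hi => hst i (by have := mem_range.1 hi; omega),
      Finset.sum_range_sub, hF.1.1, sub_zero]
  refine ⟨Y n, fun j => Y j / Y n, hκ, hYn.2, ⟨?_, ?_, ?_⟩, ?_, ?_, ?_⟩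
  · simp [hF.1.2]
  · exact div_self hκ.ne'
  · intro j hj hj'
    exact div_pos (height g hcc hF hj hj').1 hκ
  · unfold Phi
    rw [hsum n le_rfl]
    have h3 := (chain_ne g hcc le_rfl).1
    rw [hF.2.1.1, hF.2.1.2] at h3
    have h4 : (M * (al n : ℝ)) ^ 2 - (H - Y n) ^ 2 = (X n - D) ^ 2 := by
      rw [← h3]; ring
    rw [h4, Real.sqrt_sq (by rw [← hF.2.1.1]; linarith)]
    ring
  · intro i hi
    rcases Nat.lt_or_ge i (n + 1) with h | h
    · rw [ext_le (by omega), fX, if_pos (by omega), hsum i (by omega)]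
    · obtain rfl | rfl | rfl | rfl : i = n + 1 ∨ i = n + 2 ∨ i = n + 3 ∨ i = n + 4 := by omega
      · rw [ext_le le_rfl, fX, if_neg (by omega), hF.2.1.1]
      · rw [ext_Z, hF.2.2.1.1]
      · rw [ext_u, hF.2.2.2.1.1]
      · rw [ext_v, hF.2.2.2.2.1]
  · intro i hi
    rcases Nat.lt_or_ge i (n + 1) with h | h
    · rw [ext_le (by omega), fY, if_pos (by omega), hY]
    · obtain rfl | rfl | rfl | rfl : i = n + 1 ∨ i = n + 2 ∨ i = n + 3 ∨ i = n + 4 := by omega
      · rw [ext_le le_rfl, fY, if_neg (by omega), hF.2.1.2]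
      · rw [ext_Z, hF.2.2.1.2]
      · rw [ext_u, hF.2.2.2.1.2]
      · rw [ext_v, hF.2.2.2.2.2]

theorem place_congr {N : ℕ} {c s p p' η : ℝ} {X Y X' Y' : ℕ → ℝ} (hX : ∀ i < N, X i = X' i)
    (hY : ∀ i < N, Y i = Y' i) : place N c s p p' η X Y = place N c s p p' η X' Y' := by
  funext i
  unfold place
  split_ifs with h
  · rw [hX i h, hY i h]
  · rfl

/-- Two configurations in standard position with all bars but the last pointing to the right are
joined by a motion. -/
theorem join_std (g : Geo n al M H D V z a V' z' U b1 b2) {X' Y' : ℕ → ℝ} {η : ℝ}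
    (hη : η ^ 2 = 1)
    (hcc : CC (lk n a V' z' U b1 b2) X Y) (hF : Fr n H D V z X Y)
    (h1 : X (n + 1) < X n) (h2 : ∀ j < n, X j < X (j + 1))
    (hcc' : CC (lk n a V' z' U b1 b2) X' Y') (hF' : Fr n H D V z X' Y')
    (h1' : X' (n + 1) < X' n) (h2' : ∀ j < n, X' j < X' (j + 1)) :
    JoinedIn (Space 2 (lk n a V' z' U b1 b2)) (place (n + 5) 1 0 0 0 η X Y)
      (place (n + 5) 1 0 0 0 η X' Y') := by
  obtain ⟨κ, y, hκ, hκH, hy, hΦ, hX, hY⟩ := of_straight g hcc hF h1 h2
  obtain ⟨κ', y', hκ', hκH', hy', hΦ', hX', hY'⟩ := of_straight g hcc' hF' h1' h2'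
  rw [place_congr hX hY, place_congr hX' hY']
  obtain ⟨yy, hyy⟩ : ∃ yy : ℝ → ℕ → ℝ, yy = fun t j => (1 - t) * y j + t * y' j := ⟨_, rfl⟩
  have hyc : ∀ i, Continuous fun t => yy t i := fun i => by rw [hyy]; fun_prop
  choose K hK using fun t => exists_kappa g (yy t)
  have hKc := kappa_cont g hyc hK
  have hadm : ∀ t : ℝ, 0 ≤ t → t ≤ 1 → Adm n (yy t) := by
    intro t ht ht'
    rw [hyy]
    refine ⟨?_, ?_, ?_⟩
    · simp [hy.1, hy'.1]
    · simp [hy.2.1, hy'.2.1]
    · intro j hj hj'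
      have e1 := hy.2.2 j hj hj'
      have e2 := hy'.2.2 j hj hj'
      rcases eq_or_lt_of_le ht with h | h
      · rw [← h]; simpa using e1
      · have := mul_pos h e2
        have := mul_nonneg (show 0 ≤ 1 - t by linarith) e1.le
        simp only
        linarith
  have hK0 : K 0 = κ := by
    apply kappa_unique g (yy 0) (hK 0).1.le (hK 0).2.1.le hκ.le hκH.le (hK 0).2.2
    have : yy 0 = y := by rw [hyy]; funext j; simp
    rw [this, hΦ]
  have hK1 : K 1 = κ' := by
    apply kappa_unique g (yy 1) (hK 1).1.le (hK 1).2.1.le hκ'.le hκH'.le (hK 1).2.2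
    have : yy 1 = y' := by rw [hyy]; funext j; simp
    rw [this, hΦ']
  refine JoinedIn.ofLine (f := fun t => place (n + 5) 1 0 0 0 η
    (ext n (fX n al M D (K t) (yy t)) 0 (-V) V) (ext n (fY n H (K t) (yy t)) (-z) 0 0)) ?_ ?_ ?_ ?_
  · apply Continuous.continuousOn
    refine place_cont continuous_const continuous_const continuous_const continuous_const ?_ ?_
    · apply ext_cont
      intro i
      unfold fX st
      split_ifs
      · fun_prop
      · exact continuous_const
    · apply ext_cont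
      intro i
      unfold fY
      have := hyc i
      split_ifs
      · fun_prop
      · exact continuous_const
  · have : yy 0 = y := by rw [hyy]; funext j; simp
    simp only [hK0, this]
  · have : yy 1 = y' := by rw [hyy]; funext j; simp
    simp only [hK1, this]
  · rintro _ ⟨t, ⟨ht0, ht1⟩, rfl⟩
    have := straight g (hadm t ht0 ht1) (hK t).1 (hK t).2.1.le (hK t).2.2
    exact (place_iff g.valid (by norm_num) hη).2 this

/-- rigid motions -/
theorem join_iso (g : Geo n al M H D V z a V' z' U b1 b2) {c s p p' η : ℝ} (hη : η ^ 2 = 1)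
    (hcs : c ^ 2 + s ^ 2 = 1) (hcc : CC (lk n a V' z' U b1 b2) X Y) :
    JoinedIn (Space 2 (lk n a V' z' U b1 b2)) (place (n + 5) 1 0 0 0 η X Y)
      (place (n + 5) c s p p' η X Y) := by
  obtain ⟨θ, hc, hs⟩ : ∃ θ : ℝ, c = Real.cos θ ∧ s = Real.sin θ := by
    refine ⟨Complex.arg ⟨c, s⟩, ?_, ?_⟩
    · have hn : ‖(⟨c, s⟩ : ℂ)‖ = 1 := by
        rw [Complex.norm_def, Complex.normSq_mk, ← Real.sqrt_one]
        congr 1
        linarith
      have hne : (⟨c, s⟩ : ℂ) ≠ 0 := by
        intro h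
        rw [h, norm_zero] at hn
        norm_num at hn
      rw [Complex.cos_arg hne, hn, div_one]
    · have hn : ‖(⟨c, s⟩ : ℂ)‖ = 1 := by
        rw [Complex.norm_def, Complex.normSq_mk, ← Real.sqrt_one]
        congr 1
        linarith
      rw [Complex.sin_arg, hn, div_one]
  subst hc hs
  refine JoinedIn.ofLine (f := fun t => place (n + 5) (Real.cos (t * θ)) (Real.sin (t * θ))
    (t * p) (t * p') η X Y) ?_ ?_ ?_ ?_
  · apply Continuous.continuousOn
    exact place_cont (by fun_prop) (by fun_prop) (by fun_prop) (by fun_prop)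
      (fun i => continuous_const) (fun i => continuous_const)
  · simp
  · simp
  · rintro _ ⟨t, -, rfl⟩
    exact (place_iff g.valid (by rw [Real.cos_sq_add_sin_sq]) hη).2 hcc

end Pool.Agent.TH668.Link
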