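import Pool.Agent.TH668.Link.Move

/-!
# Orientations of the cycles
-/

set_option autoImplicit false

namespace Pool.Agent.TH668.Link

open Finset

variable {n : ℕ} {al : ℕ → ℕ} {M H D V z : ℝ} {a : ℕ → ℚ} {V' z' U b1 b2 : ℚ} {X Y : ℕ → ℝ}

/-- area in coordinates -/
noncomputable def ar (X Y : ℕ → ℝ) (k : ℕ) (c : ℕ → ℕ) : ℝ :=
  ∑ i ∈ range k, (X (c i) * Y (c (i + 1)) - X (c (i + 1)) * Y (c i))

theorem area_place {N k : ℕ} {cy : ℕ → ℕ} (hN : ∀ i, cy i < N) (hk : cy k = cy 0)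
    {c s p p' η : ℝ} (hcs : c ^ 2 + s ^ 2 = 1) :
    area (place N c s p p' η X Y) k cy = η * ar X Y k cy := by
  obtain ⟨G, hG⟩ : ∃ G : ℕ → ℝ, G = fun i => p * (s * X i + η * c * Y i) -
    p' * (c * X i - η * s * Y i) := ⟨_, rfl⟩
  have h1 : ∀ i, place N c s p p' η X Y (cy i) 0 * place N c s p p' η X Y (cy (i + 1)) 1 -
      place N c s p p' η X Y (cy (i + 1)) 0 * place N c s p p' η X Y (cy i) 1 =
      η * (X (cy i) * Y (cy (i + 1)) - X (cy (i + 1)) * Y (cy i)) +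
        (G (cy (i + 1)) - G (cy i)) := by
    intro i
    rw [place_0 (hN i), place_0 (hN (i + 1)), place_1 (hN i), place_1 (hN (i + 1)), hG]
    linear_combination (η * (X (cy i) * Y (cy (i + 1)) - X (cy (i + 1)) * Y (cy i))) * hcs
  unfold area ar
  rw [Finset.sum_congr rfl fun i _ => h1 i, Finset.sum_add_distrib,
    Finset.sum_range_sub (fun i => G (cy i)), hk, Finset.mul_sum]
  ring

/-- number of times the cycle goes from `x` to `y` -/
def cnt (k : ℕ) (c : ℕ → ℕ) (x y : ℕ) : ℕ :=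
  ((range k).filter fun i => c i = x ∧ c (i + 1) = y).card

theorem cnt_eq (k : ℕ) (c : ℕ → ℕ) (x y : ℕ) :
    (cnt k c x y : ℝ) = ∑ i ∈ range k, (if c i = x ∧ c (i + 1) = y then (1 : ℝ) else 0) := by
  unfold cnt
  rw [Finset.card_filter]
  push_cast
  rfl

theorem out_le {L : Linkage} {k : ℕ} {c : ℕ → ℕ} (hc : IsCycle L k c) {w x y : ℕ} (hxy : x ≠ y) :
    cnt k c w x + cnt k c w y ≤ 1 := by
  unfold cnt
  rw [← Finset.card_union_of_disjoint]
  · rw [Finset.card_le_one]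
    intro i hi j hj
    simp only [Finset.mem_union, Finset.mem_filter, Finset.mem_range] at hi hj
    apply hc.2.2.1 i (by tauto) j (by tauto)
    have h1 : c i = w := by tauto
    have h2 : c j = w := by tauto
    rw [h1, h2]
  · rw [Finset.disjoint_left]
    intro i hi hj
    simp only [Finset.mem_filter] at hi hj
    exact hxy (hi.2.2.symm.trans hj.2.2)

theorem in_le {L : Linkage} {k : ℕ} {c : ℕ → ℕ} (hc : IsCycle L k c) {w x y : ℕ} (hxy : x ≠ y) :
    cnt k c x w + cnt k c y w ≤ 1 := by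
  unfold cnt
  rw [← Finset.card_union_of_disjoint]
  · rw [Finset.card_le_one]
    intro i hi j hj
    simp only [Finset.mem_union, Finset.mem_filter, Finset.mem_range] at hi hj
    have h1 : c (i + 1) = w := by tauto
    have h2 : c (j + 1) = w := by tauto
    have hik : i < k := by tauto
    have hjk : j < k := by tauto
    have h0 : c k = c 0 := by simpa using hc.2.1 0
    have h3 := hc.1
    rcases Nat.lt_or_ge (i + 1) k with h | h <;> rcases Nat.lt_or_ge (j + 1) k with h' | h'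
    · have := hc.2.2.1 (i + 1) h (j + 1) h' (h1.trans h2.symm)
      omega
    · have e : j + 1 = k := by omega
      rw [e, h0] at h2
      have := hc.2.2.1 (i + 1) h 0 (by omega) (h1.trans h2.symm)
      omega
    · have e : i + 1 = k := by omega
      rw [e, h0] at h1
      have := hc.2.2.1 (j + 1) h' 0 (by omega) (h2.trans h1.symm)
      omega
    · omega
  · rw [Finset.disjoint_left]
    intro i hi hj
    simp only [Finset.mem_filter] at hi hj
    exact hxy (hi.2.1.symm.trans hj.2.1)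

/-- contribution of the chain -/
noncomputable def cr (X Y : ℕ → ℝ) (j : ℕ) : ℝ := ∑ i ∈ range j, (X i * Y (i + 1) - X (i + 1) * Y i)

/-- potential -/
noncomputable def gp (n : ℕ) (X Y : ℕ → ℝ) (j : ℕ) : ℝ := if j ≤ n + 1 then cr X Y j else 0

theorem cycle_mem {L : Linkage} (hL : Valid L) {k : ℕ} {c : ℕ → ℕ} (hc : IsCycle L k c) (i : ℕ) :
    c i < L.1 := by
  obtain ⟨l, h | h⟩ := hc.2.2.2 i
  · exact (hL.1 _ h).1
  · exact (hL.1 _ h).2.1

theorem edge_eq (hF : Fr n H D V z X Y) {x y : ℕ} (hxy : Adj (lk n a V' z' U b1 b2) x y) :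
    (X x * Y y - X y * Y x) - (gp n X Y y - gp n X Y x) =
      (V * H + cr X Y (n + 1)) * ((if x = n + 1 ∧ y = n + 3 then (1 : ℝ) else 0) -
        (if x = n + 3 ∧ y = n + 1 then (1 : ℝ) else 0)) +
      (V * H - cr X Y (n + 1)) * ((if x = n + 4 ∧ y = n + 1 then (1 : ℝ) else 0) -
        (if x = n + 1 ∧ y = n + 4 then (1 : ℝ) else 0)) +
      V * z * ((if x = n + 3 ∧ y = n + 2 then (1 : ℝ) else 0) -
        (if x = n + 2 ∧ y = n + 3 then (1 : ℝ) else 0) +
        (if x = n + 2 ∧ y = n + 4 then (1 : ℝ) else 0) -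
        (if x = n + 4 ∧ y = n + 2 then (1 : ℝ) else 0)) := by
  obtain ⟨⟨x0, y0⟩, ⟨xw, yw⟩, ⟨xZ, yZ⟩, ⟨xu, yu⟩, ⟨xv, yv⟩⟩ := hF
  have g0 : gp n X Y 0 = 0 := by simp [gp, cr]
  have gw : gp n X Y (n + 1) = cr X Y (n + 1) := by simp [gp]
  have gZ : gp n X Y (n + 2) = 0 := by simp [gp]
  have gu : gp n X Y (n + 3) = 0 := by simp [gp]
  have gv : gp n X Y (n + 4) = 0 := by simp [gp]
  have gs : ∀ j ≤ n, gp n X Y (j + 1) = gp n X Y j + (X j * Y (j + 1) - X (j + 1) * Y j) := by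
    intro j hj
    unfold gp cr
    rw [if_pos (by omega), if_pos (by omega), Finset.sum_range_succ]
  obtain ⟨l, h | h⟩ := hxy
  · simp only [lk, List.mem_append, List.mem_map, List.mem_range, frame, List.mem_cons,
      List.not_mem_nil, or_false, Prod.mk.injEq] at h
    rcases h with ⟨j, hj, ⟨rfl, rfl⟩, -⟩ | ⟨⟨rfl, rfl⟩, -⟩ | ⟨⟨rfl, rfl⟩, -⟩ | ⟨⟨rfl, rfl⟩, -⟩ |
      ⟨⟨rfl, rfl⟩, -⟩ | ⟨⟨rfl, rfl⟩, -⟩ | ⟨⟨rfl, rfl⟩, -⟩ | ⟨⟨rfl, rfl⟩, -⟩
    · rw [gs j (by omega), if_neg (by omega), if_neg (by omega), if_neg (by omega),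
        if_neg (by omega), if_neg (by omega), if_neg (by omega), if_neg (by omega),
        if_neg (by omega)]
      ring
    all_goals
      simp [x0, y0, xw, yw, xZ, yZ, xu, yu, xv, yv, g0, gw, gZ, gu, gv]
      try ring
  · simp only [lk, List.mem_append, List.mem_map, List.mem_range, frame, List.mem_cons,
      List.not_mem_nil, or_false, Prod.mk.injEq] at h
    rcases h with ⟨j, hj, ⟨rfl, rfl⟩, -⟩ | ⟨⟨rfl, rfl⟩, -⟩ | ⟨⟨rfl, rfl⟩, -⟩ | ⟨⟨rfl, rfl⟩, -⟩ |
      ⟨⟨rfl, rfl⟩, -⟩ | ⟨⟨rfl, rfl⟩, -⟩ | ⟨⟨rfl, rfl⟩, -⟩ | ⟨⟨rfl, rfl⟩, -⟩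
    · rw [gs j (by omega), if_neg (by omega), if_neg (by omega), if_neg (by omega),
        if_neg (by omega), if_neg (by omega), if_neg (by omega), if_neg (by omega),
        if_neg (by omega)]
      ring
    all_goals
      simp [x0, y0, xw, yw, xZ, yZ, xu, yu, xv, yv, g0, gw, gZ, gu, gv]
      try ring

theorem ar_eq (hF : Fr n H D V z X Y) {k : ℕ} {c : ℕ → ℕ}
    (hc : IsCycle (lk n a V' z' U b1 b2) k c) :
    ar X Y k c = (V * H + cr X Y (n + 1)) * ((cnt k c (n + 1) (n + 3) : ℝ) -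
        cnt k c (n + 3) (n + 1)) +
      (V * H - cr X Y (n + 1)) * ((cnt k c (n + 4) (n + 1) : ℝ) - cnt k c (n + 1) (n + 4)) +
      V * z * ((cnt k c (n + 3) (n + 2) : ℝ) - cnt k c (n + 2) (n + 3) +
        cnt k c (n + 2) (n + 4) - cnt k c (n + 4) (n + 2)) := by
  have h0 : c k = c 0 := by simpa using hc.2.1 0
  have h1 : ar X Y k c = ∑ i ∈ range k, ((X (c i) * Y (c (i + 1)) - X (c (i + 1)) * Y (c i)) -
      (gp n X Y (c (i + 1)) - gp n X Y (c i))) := by
    unfold ar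
    rw [Finset.sum_sub_distrib (fun i => X (c i) * Y (c (i + 1)) - X (c (i + 1)) * Y (c i))
      (fun i => gp n X Y (c (i + 1)) - gp n X Y (c i)),
      Finset.sum_range_sub (fun i => gp n X Y (c i)), h0]
    ring
  rw [h1, Finset.sum_congr rfl fun i _ => edge_eq hF (hc.2.2.2 i)]
  simp only [cnt_eq, Finset.sum_add_distrib, Finset.sum_sub_distrib, ← Finset.mul_sum]

/-- the contribution of the chain is small -/
theorem cr_lt (g : Geo n al M H D V z a V' z' U b1 b2) (hcc : CC (lk n a V' z' U b1 b2) X Y)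
    (hF : Fr n H D V z X Y) : |cr X Y (n + 1)| < V * H := by
  have hA := g.A_pos
  have hM := g.hM
  have hH := g.hH
  have hDA := g.D_lt_A
  have hD0 := g.D_pos
  have hRA := g.R_lt_A
  have hle : ∀ j ≤ n, M * (al j : ℝ) ≤ M * ∑ j ∈ range n, (al j : ℝ) := by
    intro j hj
    rcases eq_or_lt_of_le hj with rfl | h
    · exact hRA.le
    · apply mul_le_mul_of_nonneg_left _ hM.le
      exact Finset.single_le_sum (f := fun i => (al i : ℝ)) (fun _ _ => Nat.cast_nonneg _)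
        (mem_range.2 h)
  have hdx : ∀ j ≤ n, |X (j + 1) - X j| ≤ M * al j := by
    intro j hj
    obtain ⟨h1, h2⟩ := chain_ne g hcc hj
    apply abs_le_of_sq_le_sq' _ h2.le |> abs_le.2
    nlinarith [sq_nonneg (Y j - Y (j + 1))]
  have hX : ∀ j ≤ n, |X j| ≤ M * ∑ j ∈ range n, (al j : ℝ) := by
    intro j hj
    have h1 : X j = ∑ i ∈ range j, (X (i + 1) - X i) := by
      rw [Finset.sum_range_sub, hF.1.1, sub_zero]
    rw [h1, Finset.mul_sum]
    refine (Finset.abs_sum_le_sum_abs _ _).trans ?_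
    refine (Finset.sum_le_sum fun i hi => hdx i (by have := mem_range.1 hi; omega)).trans ?_
    exact Finset.sum_le_sum_of_subset_of_nonneg (Finset.range_subset_range.2 hj)
      (fun _ _ _ => by positivity)
  have hYn : ∀ j ≤ n + 1, 0 ≤ Y j ∧ Y j ≤ H := by
    intro j hj
    rcases Nat.eq_zero_or_pos j with rfl | h
    · rw [hF.1.2]; exact ⟨le_rfl, hH.le⟩
    · rcases Nat.lt_or_ge n j with h' | h'
      · have : j = n + 1 := by omega
        rw [this, hF.2.1.2]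
        exact ⟨hH.le, le_rfl⟩
      · have := height g hcc hF h h'
        exact ⟨this.1.le, this.2.le⟩
  have h1 : |cr X Y (n + 1)| ≤ (n + 1) * (2 * (M * ∑ j ∈ range n, (al j : ℝ)) * H) := by
    unfold cr
    refine (Finset.abs_sum_le_sum_abs _ _).trans ?_
    refine (Finset.sum_le_card_nsmul _ _ (2 * (M * ∑ j ∈ range n, (al j : ℝ)) * H) ?_).trans ?_
    · intro j hj
      have hj' : j ≤ n := by have := mem_range.1 hj; omega
      have e1 := hX j hj'
      have e2 := (hdx j hj').trans (hle j hj')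
      have e3 := hYn j (by omega)
      have e4 := hYn (j + 1) (by omega)
      have e5 : X j * Y (j + 1) - X (j + 1) * Y j =
        X j * (Y (j + 1) - Y j) - (X (j + 1) - X j) * Y j := by ring
      have e6 : |Y (j + 1) - Y j| ≤ H := by
        rw [abs_le]; constructor <;> linarith
      have e7 : |Y j| ≤ H := by rw [abs_of_nonneg e3.1]; exact e3.2
      rw [e5]
      refine (abs_sub _ _).trans ?_
      rw [abs_mul, abs_mul]
      have f1 := mul_le_mul e1 e6 (abs_nonneg _) hA.le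
      have f2 := mul_le_mul e2 e7 (abs_nonneg _) hA.le
      linarith
    · rw [card_range, nsmul_eq_mul]
      push_cast
      exact le_rfl
  have hV := g.hV
  have h3 : (0 : ℝ) < (n + 1) * (M * ∑ j ∈ range n, (al j : ℝ)) := by positivity
  generalize M * ∑ j ∈ range n, (al j : ℝ) = A at *
  have h4 : 4 * (n + 1) * A * H ≤ V * H := mul_le_mul_of_nonneg_right hV hH.le
  have h5 : 0 < (n + 1) * A * H := by positivity
  linarith

/-- the orientation is determined by combinatorial data -/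
theorem sign_aux {V H z C : ℝ} (hV : 0 < V) (hH : 0 < H) (hz : 3 * H ≤ z) (hC : |C| < V * H)
    {a1 a2 b1 b2 : ℕ} (ha : a1 + a2 ≤ 1) (hb : b1 + b2 ≤ 1) (m : ℤ) :
    0 < (V * H + C) * ((a1 : ℝ) - b1) + (V * H - C) * ((b2 : ℝ) - a2) + V * z * m ↔
      0 < m ∨ (m = 0 ∧ 0 < (a1 : ℤ) - b1 + (b2 - a2)) := by
  obtain ⟨h1, h2⟩ := abs_lt.1 hC
  have hVz : 3 * (V * H) ≤ V * z := by nlinarith
  have hVH : 0 < V * H := by positivity
  have hm : m ≤ -1 ∨ m = 0 ∨ 1 ≤ m := by omega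
  rcases hm with hm | hm | hm
  · have hm' : (m : ℝ) ≤ -1 := by exact_mod_cast hm
    have h3 : V * z * m ≤ V * z * (-1) := mul_le_mul_of_nonneg_left hm' (by linarith)
    constructor
    · intro h
      exfalso
      rcases (by omega : (a1 = 0 ∧ a2 = 0) ∨ (a1 = 1 ∧ a2 = 0) ∨ (a1 = 0 ∧ a2 = 1)) with
        ⟨rfl, rfl⟩ | ⟨rfl, rfl⟩ | ⟨rfl, rfl⟩ <;>
      rcases (by omega : (b1 = 0 ∧ b2 = 0) ∨ (b1 = 1 ∧ b2 = 0) ∨ (b1 = 0 ∧ b2 = 1)) with
        ⟨rfl, rfl⟩ | ⟨rfl, rfl⟩ | ⟨rfl, rfl⟩ <;> push_cast at h <;> linarith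
    · rintro (h | ⟨h, -⟩) <;> omega
  · subst hm
    simp only [Int.cast_zero, mul_zero, add_zero, lt_irrefl, true_and, false_or]
    rcases (by omega : (a1 = 0 ∧ a2 = 0) ∨ (a1 = 1 ∧ a2 = 0) ∨ (a1 = 0 ∧ a2 = 1)) with
        ⟨rfl, rfl⟩ | ⟨rfl, rfl⟩ | ⟨rfl, rfl⟩ <;>
      rcases (by omega : (b1 = 0 ∧ b2 = 0) ∨ (b1 = 1 ∧ b2 = 0) ∨ (b1 = 0 ∧ b2 = 1)) with
        ⟨rfl, rfl⟩ | ⟨rfl, rfl⟩ | ⟨rfl, rfl⟩ <;> push_cast <;>
      (constructor
       · intro h
         first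
           | (norm_num; done)
           | (exfalso; linarith)
       · intro h
         first
           | linarith
           | (exfalso; revert h; norm_num))
  · have hm' : (1 : ℝ) ≤ m := by exact_mod_cast hm
    have h3 : V * z * 1 ≤ V * z * m := mul_le_mul_of_nonneg_left hm' (by linarith)
    constructor
    · intro _
      left
      omega
    · intro _
      rcases (by omega : (a1 = 0 ∧ a2 = 0) ∨ (a1 = 1 ∧ a2 = 0) ∨ (a1 = 0 ∧ a2 = 1)) with
        ⟨rfl, rfl⟩ | ⟨rfl, rfl⟩ | ⟨rfl, rfl⟩ <;>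
      rcases (by omega : (b1 = 0 ∧ b2 = 0) ∨ (b1 = 1 ∧ b2 = 0) ∨ (b1 = 0 ∧ b2 = 1)) with
        ⟨rfl, rfl⟩ | ⟨rfl, rfl⟩ | ⟨rfl, rfl⟩ <;> push_cast <;> linarith

/-- **The orientations of the cycles do not depend on the chain.** -/
theorem ar_pos_iff (g : Geo n al M H D V z a V' z' U b1 b2)
    (hcc : CC (lk n a V' z' U b1 b2) X Y) (hF : Fr n H D V z X Y) {X' Y' : ℕ → ℝ}
    (hcc' : CC (lk n a V' z' U b1 b2) X' Y') (hF' : Fr n H D V z X' Y') {k : ℕ} {c : ℕ → ℕ}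
    (hc : IsCycle (lk n a V' z' U b1 b2) k c) : 0 < ar X Y k c ↔ 0 < ar X' Y' k c := by
  have h1 := out_le hc (w := n + 1) (x := n + 3) (y := n + 4) (by omega)
  have h2 := in_le hc (w := n + 1) (x := n + 3) (y := n + 4) (by omega)
  have key := fun C hC => sign_aux (C := C) g.V_pos g.hH g.hz hC h1 h2
    ((cnt k c (n + 3) (n + 2) : ℤ) - cnt k c (n + 2) (n + 3) +
        cnt k c (n + 2) (n + 4) - cnt k c (n + 4) (n + 2))
  rw [ar_eq hF hc, ar_eq hF' hc]
  have k1 := key _ (cr_lt g hcc hF)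
  have k2 := key _ (cr_lt g hcc' hF')
  push_cast at k1 k2
  rw [k1, k2]

end Pool.Agent.TH668.Link
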