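import Pool.Agent.TH668.Link.Confine

/-!
# The horizontal directions of the bars of the chain
-/

set_option autoImplicit false

namespace Pool.Agent.TH668.Link

open Finset

variable {n : ℕ} {al : ℕ → ℕ} {M H D V z : ℝ} {a : ℕ → ℚ} {V' z' U b1 b2 : ℚ} {X Y : ℕ → ℝ}

theorem bar_x (g : Geo n al M H D V z a V' z' U b1 b2) (hcc : CC (lk n a V' z' U b1 b2) X Y)
    (hF : Fr n H D V z X Y) {j : ℕ} (hj : j ≤ n) :
    X j ≠ X (j + 1) ∧
      |X (j + 1) - X j - (if X j < X (j + 1) then (1 : ℝ) else -1) * (M * al j)| ≤ H ^ 2 / M := by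
  obtain ⟨hlen, hpos⟩ := chain_ne g hcc hj
  have hH := g.hH
  have hM := g.hM
  have hHM := g.H_lt_M
  have hMa : M ≤ M * al j := by
    have : (1 : ℝ) ≤ al j := by exact_mod_cast g.hal j hj
    nlinarith
  have hY1 : 0 ≤ Y j ∧ Y j ≤ H := by
    rcases Nat.eq_zero_or_pos j with rfl | h
    · rw [hF.1.2]; exact ⟨le_rfl, hH.le⟩
    · have := height g hcc hF h hj
      exact ⟨this.1.le, this.2.le⟩
  have hY2 : 0 ≤ Y (j + 1) ∧ Y (j + 1) ≤ H := by
    rcases eq_or_lt_of_le hj with h | h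
    · rw [h, hF.2.1.2]; exact ⟨hH.le, le_rfl⟩
    · have := height g hcc hF (j := j + 1) (by omega) (by omega)
      exact ⟨this.1.le, this.2.le⟩
  obtain ⟨s, hs⟩ : ∃ s, s = Y j - Y (j + 1) := ⟨_, rfl⟩
  obtain ⟨x, hx⟩ : ∃ x, x = X (j + 1) - X j := ⟨_, rfl⟩
  have hsH : s ^ 2 ≤ H ^ 2 := by
    have h1 : -H ≤ s := by rw [hs]; linarith [hY1.1, hY2.2]
    have h2 : s ≤ H := by rw [hs]; linarith [hY1.2, hY2.1]
    nlinarith
  have hx2 : x ^ 2 = (M * al j) ^ 2 - s ^ 2 := by rw [← hlen, hx, hs]; ring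
  have hx0 : x ≠ 0 := by
    rintro rfl
    nlinarith
  refine ⟨fun h => hx0 (by rw [hx, h]; ring), ?_⟩
  rw [← hx]
  -- the absolute value of `x` is close to the length
  have key : ∀ y : ℝ, 0 < y → y ^ 2 = (M * al j) ^ 2 - s ^ 2 → |y - M * al j| ≤ H ^ 2 / M := by
    intro y hy hy2
    have h1 : y ≤ M * al j := by nlinarith [sq_nonneg s]
    rw [abs_sub_comm, abs_of_nonneg (by linarith), le_div_iff₀ hM]
    nlinarith
  split_ifs with h
  · rw [one_mul]
    exact key x (by rw [hx]; linarith) hx2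
  · have hxn : x < 0 := lt_of_le_of_ne (by rw [hx]; linarith) hx0
    have := key (-x) (by linarith) (by rw [neg_sq]; exact hx2)
    rw [show x - -1 * (M * al j) = -(-x - M * al j) by ring, abs_neg]
    exact this

theorem signsum (g : Geo n al M H D V z a V' z' U b1 b2) (hcc : CC (lk n a V' z' U b1 b2) X Y)
    (hF : Fr n H D V z X Y) :
    ∑ j ∈ range (n + 1), (if X j < X (j + 1) then (1 : ℤ) else -1) * (al j : ℤ) =
      ∑ j ∈ range n, (al j : ℤ) - al n := by
  have hM := g.hM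
  have hσ := g.hσ
  have hP := g.hP
  have htel : ∑ j ∈ range (n + 1), (X (j + 1) - X j) = D := by
    rw [Finset.sum_range_sub, hF.2.1.1, hF.1.1]; ring
  have h1 : |∑ j ∈ range (n + 1), (X (j + 1) - X j -
      (if X j < X (j + 1) then (1 : ℝ) else -1) * (M * al j))| ≤ (n + 1) * (H ^ 2 / M) := by
    refine (Finset.abs_sum_le_sum_abs _ _).trans ?_
    refine (Finset.sum_le_card_nsmul _ _ (H ^ 2 / M) ?_).trans ?_
    · intro j hj
      exact (bar_x g hcc hF (by have := mem_range.1 hj; omega)).2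
    · rw [card_range, nsmul_eq_mul]
      push_cast
      exact le_rfl
  obtain ⟨E, hE⟩ : ∃ E : ℤ, E = ∑ j ∈ range (n + 1),
      (if X j < X (j + 1) then (1 : ℤ) else -1) * (al j : ℤ) := ⟨_, rfl⟩
  have hE' : ∑ j ∈ range (n + 1), (if X j < X (j + 1) then (1 : ℝ) else -1) * (M * al j) =
      M * (E : ℝ) := by
    rw [hE]
    push_cast
    rw [Finset.mul_sum]
    refine Finset.sum_congr rfl fun j _ => ?_
    split_ifs <;> ring
  rw [Finset.sum_sub_distrib, htel, hE'] at h1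
  rw [← hE]
  obtain ⟨T, hT⟩ : ∃ T : ℤ, T = ∑ j ∈ range n, (al j : ℤ) - al n := ⟨_, rfl⟩
  have hT' : M * ∑ j ∈ range n, (al j : ℝ) - M * al n = M * (T : ℝ) := by
    rw [hT]; push_cast; ring
  rw [hT'] at hσ hP
  rw [← hT]
  have h2 : (n + 1) * (H ^ 2 / M) * M = (n + 1) * H ^ 2 := by field_simp
  rw [abs_le] at h1
  have h3 : ((T : ℝ) - E) * M < 1 * M := by nlinarith
  have h4 : (-1 : ℝ) * M < ((T : ℝ) - E) * M := by
    have : M * (M * (E : ℝ)) ≤ M * D + (n + 1) * H ^ 2 := by nlinarith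
    have h5 : M * (-1 * M) < M * (((T : ℝ) - E) * M) := by nlinarith
    exact lt_of_mul_lt_mul_left h5 hM.le
  have h5 : (T : ℝ) - E < 1 := lt_of_mul_lt_mul_right h3 hM.le
  have h6 : (-1 : ℝ) < (T : ℝ) - E := lt_of_mul_lt_mul_right h4 hM.le
  have h7 : T - E < 1 := by exact_mod_cast h5
  have h8 : -1 < T - E := by exact_mod_cast h6
  omega

/-- If the last bar points to the right, there is a subset with the right sum. -/
theorem pattern_pos (g : Geo n al M H D V z a V' z' U b1 b2)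
    (hcc : CC (lk n a V' z' U b1 b2) X Y) (hF : Fr n H D V z X Y) (h : X n < X (n + 1)) :
    ∃ J ⊆ range n, ∑ j ∈ J, al j = al n := by
  have h1 := signsum g hcc hF
  rw [Finset.sum_range_succ, if_pos h] at h1
  refine ⟨(range n).filter fun j => ¬ X j < X (j + 1), Finset.filter_subset _ _, ?_⟩
  have h2 : ∑ j ∈ range n, (if X j < X (j + 1) then (1 : ℤ) else -1) * (al j : ℤ) =
      ∑ j ∈ range n, (al j : ℤ) -
        2 * ∑ j ∈ (range n).filter (fun j => ¬ X j < X (j + 1)), (al j : ℤ) := by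
    rw [Finset.sum_filter, Finset.mul_sum, ← Finset.sum_sub_distrib]
    refine Finset.sum_congr rfl fun j _ => ?_
    split_ifs <;> simp_all <;> ring
  rw [h2] at h1
  have h3 : (∑ j ∈ (range n).filter (fun j => ¬ X j < X (j + 1)), (al j : ℤ)) = al n := by
    linarith
  exact_mod_cast h3

/-- If the last bar points to the left, then all the others point to the right. -/
theorem pattern_neg (g : Geo n al M H D V z a V' z' U b1 b2)
    (hcc : CC (lk n a V' z' U b1 b2) X Y) (hF : Fr n H D V z X Y) (h : ¬ X n < X (n + 1)) :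
    X (n + 1) < X n ∧ ∀ j < n, X j < X (j + 1) := by
  have h0 := (bar_x g hcc hF le_rfl).1
  refine ⟨lt_of_le_of_ne (not_lt.1 h) h0.symm, ?_⟩
  have h1 := signsum g hcc hF
  rw [Finset.sum_range_succ, if_neg h] at h1
  have h2 : ∑ j ∈ range n, ((al j : ℤ) -
      (if X j < X (j + 1) then (1 : ℤ) else -1) * (al j : ℤ)) = 0 := by
    rw [Finset.sum_sub_distrib]
    linarith
  intro j hj
  by_contra hcon
  have h3 := (Finset.sum_eq_zero_iff_of_nonneg (fun i hi => by
    split_ifs <;> linarith [(Nat.cast_nonneg (al i) : (0:ℤ) ≤ _)])).1 h2 j (mem_range.2 hj)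
  rw [if_neg hcon] at h3
  have h4 : (1 : ℤ) ≤ al j := by exact_mod_cast g.hal j hj.le
  linarith

end Pool.Agent.TH668.Link
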