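import Pool.Agent.TH668.Link.Zig

/-!
# The configurations all of whose bars but the last point to the right
-/

set_option autoImplicit false

namespace Pool.Agent.TH668.Link

open Finset

variable {n : ℕ} {al : ℕ → ℕ} {M H D V z : ℝ} {a : ℕ → ℚ} {V' z' U b1 b2 : ℚ} {X Y : ℕ → ℝ}

/-- horizontal extent of the bar `i` -/
noncomputable def st (al : ℕ → ℕ) (M κ : ℝ) (y : ℕ → ℝ) (i : ℕ) : ℝ :=
  √((M * al i) ^ 2 - (κ * (y (i + 1) - y i)) ^ 2)

/-- the equation -/
noncomputable def Phi (n : ℕ) (al : ℕ → ℕ) (M H D κ : ℝ) (y : ℕ → ℝ) : ℝ :=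
  ∑ i ∈ range n, st al M κ y i - √((M * al n) ^ 2 - (H - κ) ^ 2) - D

/-- abscissas -/
noncomputable def fX (n : ℕ) (al : ℕ → ℕ) (M D κ : ℝ) (y : ℕ → ℝ) (j : ℕ) : ℝ :=
  if j ≤ n then ∑ i ∈ range j, st al M κ y i else D

/-- heights -/
noncomputable def fY (n : ℕ) (H κ : ℝ) (y : ℕ → ℝ) (j : ℕ) : ℝ :=
  if j ≤ n then κ * y j else H

/-- admissible directions -/
def Adm (n : ℕ) (y : ℕ → ℝ) : Prop := y 0 = 0 ∧ y n = 1 ∧ ∀ j, 1 ≤ j → j ≤ n → 0 < y j

theorem st_nonneg (κ : ℝ) (y : ℕ → ℝ) (i : ℕ) : 0 ≤ st al M κ y i := Real.sqrt_nonneg _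

theorem st_le (hM : 0 < M) (κ : ℝ) (y : ℕ → ℝ) (i : ℕ) : st al M κ y i ≤ M * al i := by
  unfold st
  rw [Real.sqrt_le_left (by positivity)]
  nlinarith [sq_nonneg (κ * (y (i + 1) - y i))]

/-- numerical facts -/
theorem slack (g : Geo n al M H D V z a V' z' U b1 b2) :
    ∃ δ η : ℝ, 0 < δ ∧ δ ≤ M / 2 ∧ 0 < η ∧ 8 * al n * η = H ∧
      2 * (M * ∑ j ∈ range n, (al j : ℝ)) * δ ≤ η ^ 2 ∧
      δ = M * ∑ j ∈ range n, (al j : ℝ) - √((M * al n) ^ 2 - H ^ 2) - D := by
  have hρ := g.ρ_pos
  have hH := g.hH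
  have hM := g.hM
  have hHM := g.H_lt_M
  have hA := g.A_pos
  have hMA : M < M * ∑ j ∈ range n, (al j : ℝ) := lt_of_le_of_lt g.M_le_R g.R_lt_A
  refine ⟨_, H / (8 * al n), by linarith [g.hδ], ?_, by positivity, by field_simp, g.hY, rfl⟩
  have h1 := g.hY
  have h2 : (H / (8 * al n)) ^ 2 ≤ M * M := by
    have : H / (8 * al n) ≤ H := by
      apply div_le_self hH.le
      linarith
    have h3 : 0 ≤ H / (8 * al n) := by positivity
    nlinarith
  generalize M * ∑ j ∈ range n, (al j : ℝ) = A at *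
  generalize A - √((M * al n) ^ 2 - H ^ 2) - D = δ at *
  have h3 : 2 * A * δ ≤ 2 * A * (M / 2) := by nlinarith
  exact le_of_mul_le_mul_left h3 (by positivity)

theorem sum_st (_g : Geo n al M H D V z a V' z' U b1 b2) {κ : ℝ} {y : ℕ → ℝ} (hκ0 : 0 ≤ κ)
    (hκH : κ ≤ H) (hΦ : Phi n al M H D κ y = 0) :
    ∑ i ∈ range n, (M * al i - st al M κ y i) ≤
      M * ∑ j ∈ range n, (al j : ℝ) - √((M * al n) ^ 2 - H ^ 2) - D := by
  have h1 : √((M * al n) ^ 2 - H ^ 2) ≤ √((M * al n) ^ 2 - (H - κ) ^ 2) := by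
    apply Real.sqrt_le_sqrt
    nlinarith
  unfold Phi at hΦ
  rw [Finset.sum_sub_distrib, ← Finset.mul_sum]
  linarith

theorem st_facts (g : Geo n al M H D V z a V' z' U b1 b2) {κ : ℝ} {y : ℕ → ℝ} (hκ0 : 0 ≤ κ)
    (hκH : κ ≤ H) (hΦ : Phi n al M H D κ y = 0) {i : ℕ} (hi : i < n) :
    M / 2 ≤ st al M κ y i ∧ st al M κ y i ^ 2 + (κ * (y (i + 1) - y i)) ^ 2 = (M * al i) ^ 2 := by
  obtain ⟨δ, η, hδ0, hδM, -, -, -, hδ⟩ := slack g
  have hM := g.hM
  have hs := sum_st g hκ0 hκH hΦ
  rw [← hδ] at hs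
  have h1 : M * al i - st al M κ y i ≤ δ :=
    (Finset.single_le_sum (f := fun i => M * al i - st al M κ y i)
      (fun j _ => by have := st_le (al := al) hM κ y j; linarith)
      (mem_range.2 hi)).trans hs
  have h2 : (1 : ℝ) ≤ al i := by exact_mod_cast g.hal i hi.le
  have h3 : M ≤ M * al i := by nlinarith
  have h4 : M / 2 ≤ st al M κ y i := by linarith
  refine ⟨h4, ?_⟩
  have h5 : 0 < st al M κ y i := by linarith
  have h6 : 0 < (M * al i) ^ 2 - (κ * (y (i + 1) - y i)) ^ 2 := Real.sqrt_pos.1 h5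
  unfold st
  rw [Real.sq_sqrt h6.le]
  ring

/-- total vertical variation -/
theorem vert (g : Geo n al M H D V z a V' z' U b1 b2) {κ : ℝ} {y : ℕ → ℝ} (hκ0 : 0 ≤ κ)
    (hκH : κ ≤ H) (hΦ : Phi n al M H D κ y = 0) {η : ℝ} (hη : 0 < η)
    (hη' : 2 * (M * ∑ j ∈ range n, (al j : ℝ)) *
      (M * ∑ j ∈ range n, (al j : ℝ) - √((M * al n) ^ 2 - H ^ 2) - D) ≤ η ^ 2) :
    ∑ i ∈ range n, |κ * (y (i + 1) - y i)| ≤ η := by
  have hM := g.hM
  have hs := sum_st g hκ0 hκH hΦ
  have hpos : ∀ i ∈ range n, 0 < 2 * (M * (al i : ℝ)) := fun i hi => by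
    have h2 : (1 : ℝ) ≤ al i := by exact_mod_cast g.hal i (mem_range.1 hi).le
    have : 0 < M * (al i : ℝ) := mul_pos hM (by linarith)
    linarith
  have h1 := Finset.sq_sum_div_le_sum_sq_div (range n) (fun i => |κ * (y (i + 1) - y i)|) hpos
  have h2 : ∑ i ∈ range n, |κ * (y (i + 1) - y i)| ^ 2 / (2 * (M * (al i : ℝ))) ≤
      ∑ i ∈ range n, (M * al i - st al M κ y i) := by
    refine Finset.sum_le_sum fun i hi => ?_
    obtain ⟨h3, h4⟩ := st_facts g hκ0 hκH hΦ (mem_range.1 hi)
    have h5 := st_le (al := al) hM κ y i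
    rw [div_le_iff₀ (hpos i hi), sq_abs]
    nlinarith
  rw [← Finset.mul_sum, ← Finset.mul_sum] at h1
  have hA := g.A_pos
  generalize M * ∑ j ∈ range n, (al j : ℝ) = A at *
  have h3 : (∑ i ∈ range n, |κ * (y (i + 1) - y i)|) ^ 2 ≤ η ^ 2 := by
    have := h1.trans (h2.trans hs)
    rw [div_le_iff₀ (by positivity)] at this
    linarith
  exact abs_le_of_sq_le_sq' h3 hη.le |>.2

/-- **The configurations with all bars but the last pointing to the right.** -/
theorem straight (g : Geo n al M H D V z a V' z' U b1 b2) {κ : ℝ} {y : ℕ → ℝ} (hy : Adm n y)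
    (hκ0 : 0 < κ) (hκH : κ ≤ H) (hΦ : Phi n al M H D κ y = 0) :
    CC (lk n a V' z' U b1 b2) (ext n (fX n al M D κ y) 0 (-V) V)
      (ext n (fY n H κ y) (-z) 0 0) := by
  obtain ⟨hy0, hyn, hypos⟩ := hy
  obtain ⟨δ, η, hδ0, hδM, hη0, hη, hδη, hδ⟩ := slack g
  rw [hδ] at hδη
  have hvert := vert g hκ0.le hκH hΦ hη0 hδη
  have hn := g.hn
  have hρ := g.ρ_pos
  have hM := g.hM
  have hH := g.hH
  have hη8 : 8 * η ≤ H := by rw [← hη]; nlinarith
  -- values
  have eX : ∀ {j : ℕ}, j ≤ n → ext n (fX n al M D κ y) 0 (-V) V j =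
      ∑ i ∈ range j, st al M κ y i := fun hj => by
    rw [ext_le (by omega), fX, if_pos hj]
  have eXw : ext n (fX n al M D κ y) 0 (-V) V (n + 1) = D := by
    rw [ext_le le_rfl, fX, if_neg (by omega)]
  have eY : ∀ {j : ℕ}, j ≤ n → ext n (fY n H κ y) (-z) 0 0 j = κ * y j := fun hj => by
    rw [ext_le (by omega), fY, if_pos hj]
  have eYw : ext n (fY n H κ y) (-z) 0 0 (n + 1) = H := by
    rw [ext_le le_rfl, fY, if_neg (by omega)]
  have hF : Fr n H D V z (ext n (fX n al M D κ y) 0 (-V) V) (ext n (fY n H κ y) (-z) 0 0) := by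
    refine ext_Fr ?_ ?_ ?_ ?_
    · simp [fX]
    · simp [fY, hy0]
    · simp [fX]
    · simp [fY]
  -- steps
  have hstep : ∀ i < n, M / 2 ≤ st al M κ y i := fun i hi => (st_facts g hκ0.le hκH hΦ hi).1
  have hmX : ∀ j < n, (∑ i ∈ range j, st al M κ y i) < ∑ i ∈ range (j + 1), st al M κ y i := by
    intro j hj
    rw [Finset.sum_range_succ]
    linarith [hstep j hj]
  have hmX' : ∀ i j, i < j → j ≤ n →
      (∑ i ∈ range i, st al M κ y i) < ∑ i ∈ range j, st al M κ y i := by
    intro i j hij hj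
    obtain ⟨m, rfl⟩ : ∃ m, n = m + 1 := ⟨n - 1, by omega⟩
    exact mono_chain (f := fun j => ∑ i ∈ range j, st al M κ y i) (m := m)
      (fun j hj => hmX j (by omega)) hij hj
  have hs : ∀ i < n, |κ * (y (i + 1) - y i)| ≤ η := fun i hi =>
    (Finset.single_le_sum (f := fun i => |κ * (y (i + 1) - y i)|) (fun j _ => abs_nonneg _)
      (mem_range.2 hi)).trans hvert
  have hYη : ∀ j ≤ n, κ * y j ≤ η := by
    intro j hj
    have h1 : κ * y j = ∑ i ∈ range j, κ * (y (i + 1) - y i) := by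
      rw [← Finset.mul_sum, Finset.sum_range_sub, hy0, sub_zero]
    rw [h1]
    refine (Finset.sum_le_sum fun i _ => le_abs_self _).trans ?_
    exact (Finset.sum_le_sum_of_subset_of_nonneg (Finset.range_subset_range.2 hj)
      (fun _ _ _ => abs_nonneg _)).trans hvert
  have hκη : κ ≤ η := by simpa [hyn] using hYη n le_rfl
  have hXle : ∀ j ≤ n, ∑ i ∈ range j, st al M κ y i ≤ M * ∑ j ∈ range n, (al j : ℝ) := by
    intro j hj
    rw [Finset.mul_sum]
    refine (Finset.sum_le_sum fun i _ => st_le hM κ y i).trans ?_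
    exact Finset.sum_le_sum_of_subset_of_nonneg (Finset.range_subset_range.2 hj)
      (fun _ _ _ => by positivity)
  have hlast : (∑ i ∈ range n, st al M κ y i) - D = √((M * al n) ^ 2 - (H - κ) ^ 2) := by
    unfold Phi at hΦ
    linarith
  have hRH : 0 ≤ (M * al n) ^ 2 - (H - κ) ^ 2 := by
    have h1 := g.H_lt_M
    have h2 := g.M_le_R
    nlinarith
  have hV8 := g.hV8
  have hA := g.A_pos
  have hDA := g.D_lt_A
  have hD0 := g.D_pos
  refine CC_of g hF ?_ ?_ ?_ ?_ ?_
  · intro j hj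
    rcases eq_or_lt_of_le hj with rfl | hj'
    · rw [eX le_rfl, eXw, eY le_rfl, eYw, hlast, Real.sq_sqrt hRH, hyn]
      ring
    · rw [eX hj, eX hj', eY hj, eY hj', ← (st_facts g hκ0.le hκH hΦ hj').2,
        Finset.sum_range_succ]
      ring
  · intro j hj hj'
    rw [eY hj']
    exact mul_pos hκ0 (hypos j hj hj')
  · intro j hj
    rw [eX hj, eY hj]
    have h1 := hXle j hj
    have h2 := hYη j hj
    clear hstep hmX hmX' hs hYη hXle hF hlast hRH hvert hδη hδ
    generalize ∑ i ∈ range j, st al M κ y i = x at *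
    generalize κ * y j = yy at *
    generalize M * ∑ j ∈ range n, (al j : ℝ) = A at *
    have h3 : yy * (V - D) ≤ (H / 8) * (V - D) :=
      mul_le_mul_of_nonneg_right (by linarith) (by linarith)
    have h4 : H * D > 0 := by positivity
    have h5 : (V - x) * H ≥ (V - V / 8) * H := by
      apply mul_le_mul_of_nonneg_right _ hH.le
      linarith
    nlinarith
  · intro j hj
    rw [eX hj, eY hj]
    have h1 : 0 ≤ ∑ i ∈ range j, st al M κ y i := Finset.sum_nonneg fun i _ => st_nonneg _ _ _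
    have h2 := hYη j hj
    clear hstep hmX hmX' hs hYη hXle hF hlast hRH hvert hδη hδ
    generalize ∑ i ∈ range j, st al M κ y i = x at *
    generalize κ * y j = yy at *
    generalize M * ∑ j ∈ range n, (al j : ℝ) = A at *
    have h3 : yy * (V + D) ≤ (H / 8) * (V + D) :=
      mul_le_mul_of_nonneg_right (by linarith) (by linarith)
    have h4 : H * D ≤ H * (V / 8) := mul_le_mul_of_nonneg_left (by linarith) hH.le
    have h5 : 0 ≤ x * H := mul_nonneg h1 hH.le
    have h6 : 0 < V * H := mul_pos (by linarith) hH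
    nlinarith
  · intro i j hij hj s t hs0 hs1 ht0 ht1 hX hY
    -- a point of the chain which lies to the right of `x j` on the bar `i < j`
    have key : ∑ i ∈ range j, st al M κ y i ≤ (∑ i_1 ∈ range i, st al M κ y i_1) +
        s * ((∑ i_1 ∈ range (i + 1), st al M κ y i_1) - ∑ i_1 ∈ range i, st al M κ y i_1) →
        j = i + 1 ∧ s = 1 := by
      intro hle
      have h1 := hmX i (by omega)
      have h3 : (∑ i_1 ∈ range (i + 1), st al M κ y i_1) ≤ ∑ i ∈ range j, st al M κ y i := by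
        rcases eq_or_lt_of_le (show i + 1 ≤ j by omega) with h | h
        · rw [h]
        · exact (hmX' _ _ h hj).le
      have h4 : (1 - s) * ((∑ i_1 ∈ range (i + 1), st al M κ y i_1) -
          ∑ i_1 ∈ range i, st al M κ y i_1) = 0 := by
        have := mul_nonneg (show 0 ≤ 1 - s by linarith)
          (show 0 ≤ (∑ i_1 ∈ range (i + 1), st al M κ y i_1) -
            ∑ i_1 ∈ range i, st al M κ y i_1 by linarith)
        linarith
      have h5 : s = 1 := by
        rcases mul_eq_zero.1 h4 with h | h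
        · linarith
        · linarith
      refine ⟨?_, h5⟩
      by_contra hne
      have h6 := hmX' _ _ (show i + 1 < j by omega) hj
      rw [h5] at hle
      linarith
    rcases eq_or_lt_of_le hj with rfl | hj'
    · -- the last bar
      rw [eX (by omega), eX (by omega), eX le_rfl, eXw] at hX
      rw [eY (by omega), eY (by omega), eY le_rfl, eYw, hyn] at hY
      -- the functional `y + μ x`
      obtain ⟨μ, hμ⟩ : ∃ μ, μ = 2 * η / M := ⟨_, rfl⟩
      have hμM : μ * (M / 2) = η := by rw [hμ]; field_simp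
      have hμ0 : 0 < μ := by rw [hμ]; positivity
      have hmono : ∀ i < j, κ * y i + μ * (∑ i_1 ∈ range i, st al M κ y i_1) ≤
          κ * y (i + 1) + μ * (∑ i_1 ∈ range (i + 1), st al M κ y i_1) := by
        intro i hi
        have h1 := (abs_le.1 (hs i hi)).1
        have h2 : η ≤ μ * st al M κ y i := by
          rw [← hμM]
          exact mul_le_mul_of_nonneg_left (hstep i hi) hμ0.le
        rw [Finset.sum_range_succ]
        linarith
      have hle : ∀ i ≤ j, κ * y i + μ * (∑ i_1 ∈ range i, st al M κ y i_1) ≤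
          κ * y j + μ * (∑ i_1 ∈ range j, st al M κ y i_1) := by
        intro i hi
        induction hi using Nat.decreasingInduction with
        | self => exact le_rfl
        | of_succ k hk ih => exact (hmono k hk).trans ih
      have h1 := hle i (by omega)
      have h2 := hle (i + 1) (by omega)
      rw [hyn, mul_one] at h1 h2
      -- the last bar rises
      have h3 : 0 < (H - κ) + μ * (D - ∑ i_1 ∈ range j, st al M κ y i_1) := by
        have h4 : √((M * al j) ^ 2 - (H - κ) ^ 2) ≤ M * al j := by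
          rw [Real.sqrt_le_left (by positivity)]
          nlinarith
        have h5 : μ * ((∑ i_1 ∈ range j, st al M κ y i_1) - D) ≤ μ * (M * al j) := by
          rw [hlast]
          exact mul_le_mul_of_nonneg_left h4 hμ0.le
        have h6 : μ * (M * al j) = H / 4 := by
          have : μ * (M * al j) = 2 * (μ * (M / 2)) * al j := by ring
          rw [this, hμM]
          linarith
        linarith
      have h7 : t * ((H - κ) + μ * (D - ∑ i_1 ∈ range j, st al M κ y i_1)) ≤ 0 := by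
        have h8 : κ * y i + s * (κ * y (i + 1) - κ * y i) +
            μ * ((∑ i_1 ∈ range i, st al M κ y i_1) + s * ((∑ i_1 ∈ range (i + 1), st al M κ y i_1)
              - ∑ i_1 ∈ range i, st al M κ y i_1)) ≤
            κ + μ * (∑ i_1 ∈ range j, st al M κ y i_1) := by
          have h9 := mul_le_mul_of_nonneg_left h1 (show 0 ≤ 1 - s by linarith)
          have h10 := mul_le_mul_of_nonneg_left h2 hs0
          linarith
        rw [hX, hY] at h8
        linarith
      have ht : t = 0 := by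
        rcases eq_or_lt_of_le ht0 with h | h
        · exact h.symm
        · have := mul_pos h h3
          linarith
      apply key
      rw [hX, ht]
      linarith
    · -- both bars point to the right
      rw [eX (by omega), eX (by omega), eX hj, eX (by omega)] at hX
      apply key
      rw [hX]
      have h1 := hmX j hj'
      have := mul_nonneg ht0 (show 0 ≤ (∑ i_1 ∈ range (j + 1), st al M κ y i_1) -
        ∑ i_1 ∈ range j, st al M κ y i_1 by linarith)
      linarith

end Pool.Agent.TH668.Link
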