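import Pool.Agent.TH668.Link.Build

/-!
# Zigzag configurations
-/

set_option autoImplicit false

namespace Pool.Agent.TH668.Link

open Finset

variable {n : ℕ} {al : ℕ → ℕ} {M H D V z : ℝ} {a : ℕ → ℚ} {V' z' U b1 b2 : ℚ} {X Y : ℕ → ℝ}

/-- put the frame vertices in standard position -/
noncomputable def ext (n : ℕ) (f : ℕ → ℝ) (Z u v : ℝ) (i : ℕ) : ℝ :=
  if i ≤ n + 1 then f i else if i = n + 2 then Z else if i = n + 3 then u else
    if i = n + 4 then v else 0

theorem ext_le {f : ℕ → ℝ} {Z u v : ℝ} {i : ℕ} (hi : i ≤ n + 1) : ext n f Z u v i = f i := by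
  simp [ext, hi]

theorem ext_Z {f : ℕ → ℝ} {Z u v : ℝ} : ext n f Z u v (n + 2) = Z := by
  simp [ext]

theorem ext_u {f : ℕ → ℝ} {Z u v : ℝ} : ext n f Z u v (n + 3) = u := by
  simp [ext]

theorem ext_v {f : ℕ → ℝ} {Z u v : ℝ} : ext n f Z u v (n + 4) = v := by
  simp [ext]

theorem ext_Fr {f h : ℕ → ℝ} (h0 : f 0 = 0) (h0' : h 0 = 0) (h1 : f (n + 1) = D)
    (h1' : h (n + 1) = H) : Fr n H D V z (ext n f 0 (-V) V) (ext n h (-z) 0 0) := by
  refine ⟨⟨?_, ?_⟩, ⟨?_, ?_⟩, ⟨ext_Z, ext_Z⟩, ⟨ext_u, ext_u⟩, ⟨ext_v, ext_v⟩⟩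
  · rw [ext_le (Nat.zero_le _), h0]
  · rw [ext_le (Nat.zero_le _), h0']
  · rw [ext_le le_rfl, h1]
  · rw [ext_le le_rfl, h1']

theorem mono_chain {f : ℕ → ℝ} {m : ℕ} (h : ∀ j ≤ m, f j < f (j + 1)) {i j : ℕ} (hij : i < j)
    (hj : j ≤ m + 1) : f i < f j := by
  induction j, hij using Nat.le_induction with
  | base => exact h i (by omega)
  | succ j hj' ih => exact (ih (by omega)).trans (h j (by omega))

theorem anti_chain {f : ℕ → ℝ} {m : ℕ} (h : ∀ j ≤ m, f (j + 1) < f j) {i j : ℕ} (hij : i < j)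
    (hj : j ≤ m + 1) : f j < f i := by
  induction j, hij using Nat.le_induction with
  | base => exact h i (by omega)
  | succ j hj' ih => exact (h j (by omega)).trans (ih (by omega))

theorem root_exists {A R H D C0 : ℝ} (hH : 0 < H) (hA : 0 < A) (hR : 0 < R)
    (hσ : A - R < D) (hδ : D < A - C0) (hC0 : C0 = √(R ^ 2 - H ^ 2)) :
    ∃ κ, 0 ≤ κ ∧ κ ≤ H ∧ √(A ^ 2 - κ ^ 2) - √(R ^ 2 - (H - κ) ^ 2) - D = 0 := by
  have hcont : Continuous fun κ : ℝ => √(A ^ 2 - κ ^ 2) - √(R ^ 2 - (H - κ) ^ 2) - D := by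
    fun_prop
  obtain ⟨κ, ⟨hκ0, hκH⟩, hκ⟩ := intermediate_value_Icc' hH.le hcont.continuousOn
    (show (0 : ℝ) ∈ _ by
      constructor
      · simp only [sub_self, ne_eq, OfNat.ofNat_ne_zero, not_false_eq_true, zero_pow, sub_zero]
        rw [Real.sqrt_sq hR.le]
        have : √(A ^ 2 - H ^ 2) ≤ A := by
          rw [Real.sqrt_le_left hA.le]
          have := sq_nonneg H
          linarith
        linarith
      · simp only [sub_zero, ne_eq, OfNat.ofNat_ne_zero, not_false_eq_true, zero_pow]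
        rw [Real.sqrt_sq hA.le, ← hC0]
        linarith)
  exact ⟨κ, hκ0, hκH, hκ⟩

/-- upper bound for the height of the positive bars -/
theorem kappa_up {A δ κ P η : ℝ} (hP : P ^ 2 = A ^ 2 - κ ^ 2) (hPA : P ≤ A) (hPδ : A - δ ≤ P)
    (hA : 0 < A) (hPnn : 0 ≤ P) (hδ : 0 < δ) (hη : 0 ≤ η) (h : 2 * A * δ ≤ η ^ 2) : κ ≤ η := by
  have h1 : κ ^ 2 = (A - P) * (A + P) := by linear_combination hP
  have h2 : (A - P) * (A + P) ≤ δ * (2 * A) := by
    apply mul_le_mul <;> linarith
  have h3 : κ ^ 2 ≤ η ^ 2 := by linarith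
  exact le_of_sq_le_sq h3 hη

/-- lower bound for the height of the positive bars -/
theorem kappa_low {A R H D κ P Q C0 δ : ℝ} (hP : P ^ 2 = A ^ 2 - κ ^ 2) (hPA : P ≤ A)
    (hPnn : 0 ≤ P) (hQ : Q ^ 2 = R ^ 2 - (H - κ) ^ 2) (hC : C0 ^ 2 = R ^ 2 - H ^ 2)
    (hQC : C0 ≤ Q) (hRC : R ≤ 2 * C0) (hRA : R ≤ A) (hκ0 : 0 ≤ κ) (hκH : κ ≤ H)
    (hPQ : P - Q = D) (hδ : δ = A - C0 - D) : δ * R ≤ 3 * H * κ := by
  have h1 : (A - P) * R ≤ κ ^ 2 := by
    have : κ ^ 2 = (A - P) * (A + P) := by linear_combination hP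
    rw [this]
    apply mul_le_mul_of_nonneg_left <;> linarith
  have h2 : (Q - C0) * R ≤ 2 * H * κ := by
    have h3 : (Q - C0) * (Q + C0) = 2 * H * κ - κ ^ 2 := by
      linear_combination hQ - hC
    have h4 : (Q - C0) * R ≤ (Q - C0) * (Q + C0) := by
      apply mul_le_mul_of_nonneg_left <;> linarith
    have := sq_nonneg κ
    linarith
  have h5 : δ = (A - P) + (Q - C0) := by rw [hδ]; linarith
  have h6 : κ ^ 2 ≤ H * κ := by
    rw [sq]
    exact mul_le_mul_of_nonneg_right hκH hκ0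
  rw [h5]
  linarith

/-- the slopes of the zigzag -/
theorem exists_root (g : Geo n al M H D V z a V' z' U b1 b2) :
    ∃ κ P Q : ℝ, 0 < κ ∧ κ ≤ H / 8 ∧ 0 < P ∧ 0 < Q ∧
      P ^ 2 + κ ^ 2 = (M * ∑ j ∈ range n, (al j : ℝ)) ^ 2 ∧
      Q ^ 2 + (H - κ) ^ 2 = (M * al n) ^ 2 ∧ P - Q = D ∧
      H * (M * ∑ j ∈ range n, (al j : ℝ)) < V * κ := by
  have hA := g.A_pos
  have hRA := g.R_lt_A
  have hM := g.hM
  have hMR := g.M_le_R
  have hH := g.hH
  have hHM := g.H_lt_M
  have h2H := g.two_H_sq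
  have hσ := g.hσ
  have hδ := g.hδ
  have hY := g.hY
  have hW := g.hW
  have hρ := g.ρ_pos
  have hD := g.D_pos
  have hV := g.V_pos
  generalize hAeq : M * ∑ j ∈ range n, (al j : ℝ) = A at *
  generalize hReq : M * (al n : ℝ) = R at *
  obtain ⟨C0, hC0⟩ : ∃ C0, C0 = √(R ^ 2 - H ^ 2) := ⟨_, rfl⟩
  rw [← hC0] at hδ hY hW
  have hR0 : 0 < R := by linarith
  have hMR2 : M ^ 2 ≤ R ^ 2 := pow_le_pow_left₀ hM.le hMR 2
  have hH2 : 0 < H ^ 2 := by positivity
  have hC0sq : C0 ^ 2 = R ^ 2 - H ^ 2 := by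
    rw [hC0, Real.sq_sqrt]
    linarith
  have hC0nn : 0 ≤ C0 := by rw [hC0]; exact Real.sqrt_nonneg _
  obtain ⟨κ, hκ0, hκH, hκ⟩ := root_exists hH hA hR0 hσ hδ hC0
  obtain ⟨P, hP⟩ : ∃ P, P = √(A ^ 2 - κ ^ 2) := ⟨_, rfl⟩
  obtain ⟨Q, hQ⟩ : ∃ Q, Q = √(R ^ 2 - (H - κ) ^ 2) := ⟨_, rfl⟩
  rw [← hP, ← hQ] at hκ
  have hHκ2 : (H - κ) ^ 2 ≤ H ^ 2 := pow_le_pow_left₀ (by linarith) (by linarith) 2
  have hκA2 : κ ^ 2 ≤ A ^ 2 := pow_le_pow_left₀ hκ0 (by linarith) 2
  have hPsq : P ^ 2 = A ^ 2 - κ ^ 2 := by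
    rw [hP, Real.sq_sqrt]
    linarith
  have hQsq : Q ^ 2 = R ^ 2 - (H - κ) ^ 2 := by
    rw [hQ, Real.sq_sqrt]
    linarith
  have hPnn : 0 ≤ P := by rw [hP]; exact Real.sqrt_nonneg _
  have hQnn : 0 ≤ Q := by rw [hQ]; exact Real.sqrt_nonneg _
  have hQC : C0 ≤ Q := by
    rw [hC0, hQ]
    apply Real.sqrt_le_sqrt
    linarith
  obtain ⟨δ, hδe⟩ : ∃ δ, δ = A - C0 - D := ⟨_, rfl⟩
  rw [← hδe] at hY hW
  have hδ0 : 0 < δ := by rw [hδe]; linarith
  have hPge : A - δ ≤ P := by rw [hδe]; linarith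
  have hPle : P ≤ A := by
    apply le_of_sq_le_sq _ hA.le
    rw [hPsq]
    linarith [sq_nonneg κ]
  have hκη : κ ≤ H / (8 * al n) :=
    kappa_up hPsq hPle hPge hA hPnn hδ0 (by positivity) hY
  have hκ8 : κ ≤ H / 8 := by
    refine hκη.trans ?_
    apply div_le_div_of_nonneg_left hH.le (by norm_num)
    linarith
  have hC0R : R ≤ 2 * C0 := by
    apply le_of_sq_le_sq _ (by linarith)
    rw [mul_pow, hC0sq]
    linarith
  have hlow : δ * R ≤ 3 * H * κ :=
    kappa_low hPsq hPle hPnn hQsq hC0sq hQC hC0R hRA.le hκ0 hκH (by linarith) hδe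
  have hVκ : H * A < V * κ := by
    have h0 : V * (δ * R) ≤ V * (3 * H * κ) := mul_le_mul_of_nonneg_left hlow hV.le
    have h1 : 3 * H * (H * A) < 3 * H * (V * κ) := by
      linarith
    exact lt_of_mul_lt_mul_left h1 (by positivity)
  have hκpos : 0 < κ := by
    rcases eq_or_lt_of_le hκ0 with h | h
    · rw [← h, mul_zero] at hVκ
      have : 0 < H * A := mul_pos hH hA
      linarith
    · exact h
  have hC0pos : 0 < C0 := by linarith
  refine ⟨κ, P, Q, hκpos, hκ8, by linarith, by linarith, by linarith, by linarith, by linarith,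
    hVκ⟩

/-- **Zigzag configurations.** -/
theorem zigzag (g : Geo n al M H D V z a V' z' U b1 b2) (ν : ℕ → Prop) [DecidablePred ν]
    (hν : ∑ i ∈ range (n + 1), (if ν i then al i else 0) = al n) :
    ∃ X Y : ℕ → ℝ, Fr n H D V z X Y ∧ CC (lk n a V' z' U b1 b2) X Y ∧
      (ν n → X (n + 1) < X n) ∧ (¬ ν n → X n < X (n + 1)) := by
  obtain ⟨κ, P, Q, hκ, hκ8, hP, hQ, hPA, hQR, hPQ, hVκ⟩ := exists_root g
  have hA := g.A_pos
  have hRA := g.R_lt_A
  have hM := g.hM
  have hMR := g.M_le_R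
  have hH := g.hH
  have hV8 := g.hV8
  have hDA := g.D_lt_A
  have hD0 := g.D_pos
  have hR : 0 < M * (al n : ℝ) := by linarith
  have hν' : ∑ i ∈ range (n + 1), (if ν i then (al i : ℝ) else 0) = al n := by
    have := congrArg (Nat.cast (R := ℝ)) hν
    push_cast at this
    exact this
  have hν2 : ∑ i ∈ range (n + 1), (if ν i then 0 else (al i : ℝ)) =
      ∑ j ∈ range n, (al j : ℝ) := by
    have h1 : ∑ i ∈ range (n + 1), ((if ν i then 0 else (al i : ℝ)) +
        (if ν i then (al i : ℝ) else 0)) = ∑ i ∈ range (n + 1), (al i : ℝ) :=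
      Finset.sum_congr rfl fun i _ => by split_ifs <;> ring
    have h2 := Finset.sum_range_succ (fun i => (al i : ℝ)) n
    rw [Finset.sum_add_distrib, hν', h2] at h1
    linarith
  have hal : ∀ j ≤ n, 0 < M * (al j : ℝ) := fun j hj => by
    have : (1 : ℝ) ≤ al j := by exact_mod_cast g.hal j hj
    exact mul_pos hM (by linarith)
  generalize hAeq : M * ∑ j ∈ range n, (al j : ℝ) = A at *
  generalize hReq : M * (al n : ℝ) = R at *
  -- the steps
  obtain ⟨dx, hdx⟩ : ∃ dx : ℕ → ℝ, dx = fun i =>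
    if ν i then -(M * al i * (Q / R)) else M * al i * (P / A) := ⟨_, rfl⟩
  obtain ⟨dy, hdy⟩ : ∃ dy : ℕ → ℝ, dy = fun i =>
    if ν i then M * al i * ((H - κ) / R) else M * al i * (κ / A) := ⟨_, rfl⟩
  have hdxy : ∀ j, dx j ^ 2 + dy j ^ 2 = (M * al j) ^ 2 := by
    intro j
    rw [hdx, hdy]
    simp only
    split_ifs
    · have : (Q / R) ^ 2 + ((H - κ) / R) ^ 2 = 1 := by
        field_simp
        exact hQR
      linear_combination (M * al j) ^ 2 * this
    · have : (P / A) ^ 2 + (κ / A) ^ 2 = 1 := by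
        field_simp
        exact hPA
      linear_combination (M * al j) ^ 2 * this
  have hHκ : 0 < H - κ := by linarith
  have hdypos : ∀ j ≤ n, 0 < dy j := by
    intro j hj
    have := hal j hj
    rw [hdy]
    simp only
    split_ifs <;> positivity
  have hsumx : ∑ i ∈ range (n + 1), dx i = D := by
    have h1 : ∀ i, dx i = (if ν i then 0 else (al i : ℝ)) * (M * (P / A)) -
        (if ν i then (al i : ℝ) else 0) * (M * (Q / R)) := by
      intro i
      rw [hdx]
      simp only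
      split_ifs <;> ring
    rw [Finset.sum_congr rfl fun i _ => h1 i, Finset.sum_sub_distrib, ← Finset.sum_mul,
      ← Finset.sum_mul, hν', hν2]
    have h2 : (∑ j ∈ range n, (al j : ℝ)) * (M * (P / A)) = P := by
      have : (∑ j ∈ range n, (al j : ℝ)) * (M * (P / A)) = A * (P / A) := by rw [← hAeq]; ring
      rw [this]; field_simp
    have h3 : (al n : ℝ) * (M * (Q / R)) = Q := by
      have : (al n : ℝ) * (M * (Q / R)) = R * (Q / R) := by rw [← hReq]; ring
      rw [this]; field_simp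
    rw [h2, h3, hPQ]
  have hsumy : ∑ i ∈ range (n + 1), dy i = H := by
    have h1 : ∀ i, dy i = (if ν i then 0 else (al i : ℝ)) * (M * (κ / A)) +
        (if ν i then (al i : ℝ) else 0) * (M * ((H - κ) / R)) := by
      intro i
      rw [hdy]
      simp only
      split_ifs <;> ring
    rw [Finset.sum_congr rfl fun i _ => h1 i, Finset.sum_add_distrib, ← Finset.sum_mul,
      ← Finset.sum_mul, hν', hν2]
    have h2 : (∑ j ∈ range n, (al j : ℝ)) * (M * (κ / A)) = κ := by
      have : (∑ j ∈ range n, (al j : ℝ)) * (M * (κ / A)) = A * (κ / A) := by rw [← hAeq]; ring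
      rw [this]; field_simp
    have h3 : (al n : ℝ) * (M * ((H - κ) / R)) = H - κ := by
      have : (al n : ℝ) * (M * ((H - κ) / R)) = R * ((H - κ) / R) := by rw [← hReq]; ring
      rw [this]; field_simp
    rw [h2, h3]; ring
  obtain ⟨f, hf⟩ : ∃ f : ℕ → ℝ, f = fun j => ∑ i ∈ range j, dx i := ⟨_, rfl⟩
  obtain ⟨h, hh⟩ : ∃ h : ℕ → ℝ, h = fun j => ∑ i ∈ range j, dy i := ⟨_, rfl⟩
  have hfs : ∀ j, f (j + 1) = f j + dx j := fun j => by rw [hf]; exact Finset.sum_range_succ _ _
  have hhs : ∀ j, h (j + 1) = h j + dy j := fun j => by rw [hh]; exact Finset.sum_range_succ _ _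
  have hf0 : f 0 = 0 := by rw [hf]; simp
  have hh0 : h 0 = 0 := by rw [hh]; simp
  have hf1 : f (n + 1) = D := by rw [hf]; exact hsumx
  have hh1 : h (n + 1) = H := by rw [hh]; exact hsumy
  have hmono : ∀ j ≤ n, h j < h (j + 1) := fun j hj => by
    rw [hhs]; linarith [hdypos j hj]
  have hQR' : H * Q ≤ H * R := by
    apply mul_le_mul_of_nonneg_left _ hH.le
    apply le_of_sq_le_sq _ hR.le
    linarith [sq_nonneg (H - κ)]
  have hPA' : H * P ≤ H * A := by
    apply mul_le_mul_of_nonneg_left _ hH.le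
    apply le_of_sq_le_sq _ hA.le
    linarith [sq_nonneg κ]
  have hVD3 : H * R < (V - D) * (H - κ) := by
    have h1 : 7 * A * (H * (7 / 8)) ≤ (V - D) * (H - κ) :=
      mul_le_mul (by linarith) (by linarith) (by positivity) (by linarith)
    have h2 : H * R < H * A := mul_lt_mul_of_pos_left hRA hH
    have h3 : 0 < H * A := mul_pos hH hA
    linarith
  have hVD2 : H * A < (V + D) * κ := by
    have : 0 < D * κ := mul_pos hD0 hκ
    linarith
  have hG3 : ∀ j ≤ n, (V - f (j + 1)) * H - h (j + 1) * (V - D) <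
      (V - f j) * H - h j * (V - D) := by
    intro j hj
    rw [hfs, hhs]
    have h1 := hal j hj
    have h2 : 0 < H * dx j + (V - D) * dy j := by
      rw [hdx, hdy]
      simp only
      split_ifs
      · have h5 : 0 < (V - D) * (H - κ) - H * Q := by linarith
        have h6 : H * -(M * al j * (Q / R)) + (V - D) * (M * al j * ((H - κ) / R)) =
          M * al j * (((V - D) * (H - κ) - H * Q) / R) := by ring
        rw [h6]
        positivity
      · have : 0 < V - D := by linarith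
        positivity
    linarith
  have hG2 : ∀ j ≤ n, (f (j + 1) + V) * H - h (j + 1) * (V + D) <
      (f j + V) * H - h j * (V + D) := by
    intro j hj
    rw [hfs, hhs]
    have h1 := hal j hj
    have h2 : 0 < -(H * dx j) + (V + D) * dy j := by
      rw [hdx, hdy]
      simp only
      split_ifs
      · have h6 : -(H * -(M * al j * (Q / R))) + (V + D) * (M * al j * ((H - κ) / R)) =
          M * al j * ((H * Q + (V + D) * (H - κ)) / R) := by ring
        rw [h6]
        have : 0 < V + D := by linarith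
        positivity
      · have h5 : 0 < (V + D) * κ - H * P := by linarith
        have h6 : -(H * (M * al j * (P / A))) + (V + D) * (M * al j * (κ / A)) =
          M * al j * (((V + D) * κ - H * P) / A) := by ring
        rw [h6]
        positivity
    linarith
  have e1 : ∀ {j : ℕ}, j ≤ n → ext n f 0 (-V) V j = f j := fun hj => ext_le (by omega)
  have e2 : ∀ {j : ℕ}, j ≤ n → ext n f 0 (-V) V (j + 1) = f (j + 1) := fun hj => ext_le (by omega)
  have e3 : ∀ {j : ℕ}, j ≤ n → ext n h (-z) 0 0 j = h j := fun hj => ext_le (by omega)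
  have e4 : ∀ {j : ℕ}, j ≤ n → ext n h (-z) 0 0 (j + 1) = h (j + 1) :=
    fun hj => ext_le (by omega)
  refine ⟨ext n f 0 (-V) V, ext n h (-z) 0 0, ext_Fr hf0 hh0 hf1 hh1, ?_, ?_, ?_⟩
  · refine CC_of g (ext_Fr hf0 hh0 hf1 hh1) ?_ ?_ ?_ ?_ ?_
    · intro j hj
      rw [e1 hj, e2 hj, e3 hj, e4 hj, hfs, hhs, ← hdxy j]
      ring
    · intro j hj hj'
      rw [e3 hj', ← hh0]
      exact mono_chain hmono hj (by omega)
    · intro j hj
      rw [e1 hj, e3 hj]
      have := anti_chain (f := fun j => (V - f j) * H - h j * (V - D)) hG3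
        (show j < n + 1 by omega) le_rfl
      simp only [hf1, hh1] at this
      linarith
    · intro j hj
      rw [e1 hj, e3 hj]
      have := anti_chain (f := fun j => (f j + V) * H - h j * (V + D)) hG2
        (show j < n + 1 by omega) le_rfl
      simp only [hf1, hh1] at this
      linarith
    · intro i j hij hj s t hs hs' ht ht' _ eY
      rw [e3 (by omega), e4 (by omega), e3 hj, e4 hj] at eY
      have h1 := hmono i (by omega)
      have h2 := hmono j hj
      have h3 : h (i + 1) ≤ h j := by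
        rcases eq_or_lt_of_le (show i + 1 ≤ j by omega) with h | h
        · rw [h]
        · exact (mono_chain hmono h (by omega)).le
      have h4 : (1 - s) * (h (i + 1) - h i) = 0 := by
        have := mul_nonneg (show 0 ≤ 1 - s by linarith) (show 0 ≤ h (i + 1) - h i by linarith)
        have := mul_nonneg ht (show 0 ≤ h (j + 1) - h j by linarith)
        linarith
      have h5 : s = 1 := by
        rcases mul_eq_zero.1 h4 with h | h
        · linarith
        · linarith
      refine ⟨?_, h5⟩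
      by_contra hne
      have h6 := mono_chain hmono (show i + 1 < j by omega) (by omega)
      have := mul_nonneg ht (show 0 ≤ h (j + 1) - h j by linarith)
      rw [h5] at eY
      linarith
  · intro h1
    rw [e1 le_rfl, e2 le_rfl, hfs, hdx]
    simp only [h1, if_true]
    have := hal n le_rfl
    have : 0 < M * (al n : ℝ) * (Q / R) := by positivity
    linarith
  · intro h1
    rw [e1 le_rfl, e2 le_rfl, hfs, hdx]
    simp only [h1, if_false]
    have := hal n le_rfl
    have : 0 < M * (al n : ℝ) * (P / A) := by positivity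
    linarith

end Pool.Agent.TH668.Link
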